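import Pool.Agent.PStar.Basic0

set_option autoImplicit false

namespace PStar

open Finset

variable {V : Type*} [DecidableEq V] {W : Finset V} {m : V → V → ℕ} {f : V → ℕ} {r : ℕ}

/-- `r` matchings give a decomposition. -/
theorem dec_of_matchings (hdeg : ∀ v ∈ W, ∑ u ∈ W, m v u + f v = r)
    (J : Fin r → V → V → ℕ) (hs : ∀ c, ∀ u ∈ W, ∀ v ∈ W, J c u v = J c v u)
    (hJ : ∀ u ∈ W, ∀ v ∈ W, ∑ c, J c u v = m u v)
    (h1 : ∀ c, ∀ v ∈ W, ∑ u ∈ W, J c v u ≤ 1) : Dec W m f r := by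
  refine ⟨J, fun c v => 1 - ∑ u ∈ W, J c v u, hs, hJ, fun v hv => ?_, fun c v hv => ?_⟩
  · have h2 : ∑ c, ((1 - ∑ u ∈ W, J c v u) + ∑ u ∈ W, J c v u) = r := by
      have h3 : ∀ c : Fin r, (1 - ∑ u ∈ W, J c v u) + ∑ u ∈ W, J c v u = 1 := fun c =>
        Nat.sub_add_cancel (h1 c v hv)
      simp [h3]
    rw [sum_add_distrib] at h2
    have h4 : ∑ c, ∑ u ∈ W, J c v u = ∑ u ∈ W, m v u := by
      rw [sum_comm]
      exact sum_congr rfl fun u hu => hJ v hv u hu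
    have h5 := hdeg v hv
    simp only
    omega
  · have h2 := h1 c v hv
    have h3 : ∑ u ∈ W, J c v u + (1 - ∑ u ∈ W, J c v u) = 1 := by omega
    simp only
    rw [h3]
    exact odd_one

theorem dec_zero (hdeg : ∀ v ∈ W, ∑ u ∈ W, m v u + f v = 0) : Dec W m f 0 := by
  refine dec_of_matchings hdeg (fun c => c.elim0) (fun c => c.elim0) (fun u hu v hv => ?_)
    (fun c => c.elim0)
  have h1 := hdeg u hu
  have h2 : ∑ u' ∈ W, m u u' = 0 := by omega
  rw [sum_eq_zero_iff] at h2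
  simp [h2 v hv]

end PStar
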