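import Pool.Agent.PStar.VC.Defs
import Pool.Agent.PStar.Basic0
import Pool.Agent.PStar.Step

set_option autoImplicit false

namespace PStar

open Finset

variable {V : Type*} [DecidableEq V] {W S : Finset V} {m : V → V → ℕ} {f : V → ℕ} {r s : ℕ}

/-- The partner function `Q` describes a set of edges of the z-graph meeting every vertex of `W`
exactly once. -/
structure PQ (W : Finset V) (m : V → V → ℕ) (f : V → ℕ) (Q : V → Option V) : Prop where
  symm : ∀ u ∈ W, ∀ v ∈ W, Q u = some v → Q v = some u
  some : ∀ u ∈ W, ∀ v, Q u = some v → v ∈ W ∧ 1 ≤ m u v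
  none : ∀ u ∈ W, Q u = none → 1 ≤ f u

/-- no tight critical set -/
def NTV (W S : Finset V) (m : V → V → ℕ) (f : V → ℕ) (r : ℕ) : Prop :=
  ∀ X ⊆ W, Odd X.card → 3 ≤ X.card → (X \ S).card < (X ∩ S).card → r + 2 ≤ cut W m f X

private theorem Basic_cut_E (m : V → V → ℕ) (f : V → ℕ) (c : ℕ) {X : Finset V} (hX : X ⊆ W)
    (h : ∀ x ∈ W, ∑ u ∈ W, m x u + f x = c) : cut W m f X + E m X X = c * X.card := by
  have h1 : ∑ x ∈ X, (∑ u ∈ W, m x u + f x) = ∑ _x ∈ X, c := sum_congr rfl fun x hx => h x (hX hx)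
  have h2 : ∑ x ∈ X, (∑ u ∈ W, m x u + f x) = cut W m f X + E m X X := by
    unfold cut E
    rw [sum_add_distrib, sum_congr rfl (fun x _ => (sum_sdiff hX (f := fun u => m x u)).symm),
      sum_add_distrib]
    ring
  rw [← h2, h1, sum_const, smul_eq_mul, mul_comm]

private theorem Basic_row {Q : V → Option V} {u : V}
    (h : ∀ v, Q u = some v → v ∈ W) :
    ∑ v ∈ W, stepJ Q u v + stepG Q u = 1 := by
  unfold stepJ stepG
  cases hQ : Q u with
  | none => simp
  | some w =>
    simp only [Option.some.injEq, reduceCtorEq, if_false, add_zero]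
    rw [Finset.sum_ite_eq W w (fun _ => 1), if_pos (h w hQ)]

theorem IsZG.cut_add_E (h : IsZG W m f (fun _ => 0) r) {X : Finset V} (hX : X ⊆ W) :
    cut W m f X + E m X X = r * X.card := by
  exact Basic_cut_E m f r hX fun x hx => by
    have := h.degree x hx
    simpa using this

theorem PQ.cut_add_E {Q : V → Option V} (hQ : PQ W m f Q) {X : Finset V} (hX : X ⊆ W) :
    cut W (stepJ Q) (stepG Q) X + E (stepJ Q) X X = X.card := by
  have := Basic_cut_E (stepJ Q) (stepG Q) 1 hX fun x hx => Basic_row fun v hv => (hQ.some x hx v hv).1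
  rwa [one_mul] at this

theorem VCS.deg_dS (h : VCS W S m f r) {u : V} (hu : u ∈ W) (hS : u ∉ S) :
    dS m S u + f u = r := by
  have h1 := h.zg.degree u hu
  have h2 : ∑ v ∈ W, m u v = dS m S u := by
    rw [← sum_sdiff h.sub, sum_eq_zero (s := W \ S), zero_add]
    · unfold dS
      exact sum_congr rfl fun v hv => h.zg.symm u hu v (h.sub hv)
    · intro v hv
      rw [mem_sdiff] at hv
      exact h.ind u hu hS v hv.1 hv.2
  omega

theorem VCS.E_eq (h : VCS W S m f r) {X : Finset V} (hX : X ⊆ W) :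
    E m X X = E m (X ∩ S) (X ∩ S) + 2 * ∑ u ∈ X \ S, ∑ t ∈ X ∩ S, m t u := by
  have hsplit : ∀ g : V → ℕ, ∑ x ∈ X, g x = ∑ x ∈ X ∩ S, g x + ∑ x ∈ X \ S, g x := by
    intro g
    rw [add_comm, ← sum_union (disjoint_sdiff_inter X S), sdiff_union_inter]
  unfold E
  rw [hsplit]
  have h1 : ∑ x ∈ X ∩ S, ∑ y ∈ X, m x y =
      ∑ x ∈ X ∩ S, ∑ y ∈ X ∩ S, m x y + ∑ x ∈ X ∩ S, ∑ y ∈ X \ S, m x y := by
    rw [← sum_add_distrib]
    exact sum_congr rfl fun x _ => hsplit _
  have h2 : ∑ x ∈ X \ S, ∑ y ∈ X, m x y = ∑ u ∈ X \ S, ∑ t ∈ X ∩ S, m t u := by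
    refine sum_congr rfl fun u hu => ?_
    rw [mem_sdiff] at hu
    rw [hsplit, sum_eq_zero (s := X \ S), add_zero]
    · exact sum_congr rfl fun t ht => h.zg.symm u (hX hu.1) t (hX (mem_inter.1 ht).1)
    · intro v hv
      rw [mem_sdiff] at hv
      exact h.ind u (hX hu.1) hu.2 v (hX hv.1) hv.2
  rw [h1, h2, sum_comm (s := X ∩ S) (t := X \ S)]
  ring

/-- main reduction criterion -/
theorem VCS.red_of_crit (h : VCS W S m f (s + 1)) {Q : V → Option V} (hQ : PQ W m f Q)
    (hcrit : ∀ X ⊆ W, Odd X.card → 3 ≤ X.card → (X \ S).card < (X ∩ S).card →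
      E m X X + s ≤ s * X.card + E (stepJ Q) X X) : VRed W S m f s := by
  have hs : ∀ u ∈ W, ∀ v ∈ W, stepJ Q u v = stepJ Q v u := by
    intro u hu v hv
    unfold stepJ
    have : (Q u = some v) ↔ (Q v = some u) := ⟨hQ.symm u hu v hv, hQ.symm v hv u hu⟩
    simp only [this]
  have hJ : ∀ u ∈ W, ∀ v ∈ W, stepJ Q u v ≤ m u v := by
    intro u hu v hv
    unfold stepJ
    split_ifs with h1
    · exact (hQ.some u hu v h1).2
    · exact Nat.zero_le _
  have hg : ∀ v ∈ W, stepG Q v ≤ f v := by
    intro v hv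
    unfold stepG
    split_ifs with h1
    · exact hQ.none v hv h1
    · exact Nat.zero_le _
  have hrow : ∀ v ∈ W, ∑ u ∈ W, stepJ Q v u + stepG Q v = 1 := fun v hv =>
    Basic_row fun w hw => (hQ.some v hv w hw).1
  -- rows of the difference
  have hsub : ∀ v ∈ W, ∀ Y ⊆ W, ∑ u ∈ Y, m v u = ∑ u ∈ Y, (m v u - stepJ Q v u) + ∑ u ∈ Y, stepJ Q v u := by
    intro v hv Y hY
    rw [← sum_add_distrib]
    exact sum_congr rfl fun u hu => (Nat.sub_add_cancel (hJ v hv u (hY hu))).symm
  have hdeg : ∀ v ∈ W, ∑ u ∈ W, (m v u - stepJ Q v u) + (f v - stepG Q v) = s := by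
    intro v hv
    have h1 := h.zg.degree v hv
    have h2 := hrow v hv
    have h3 := hsub v hv W (Subset.refl _)
    have h4 := hg v hv
    omega
  have hcutsub : ∀ X ⊆ W, cut W m f X =
      cut W (fun u v => m u v - stepJ Q u v) (fun v => f v - stepG Q v) X + cut W (stepJ Q) (stepG Q) X := by
    intro X hX
    unfold cut E
    rw [sum_congr rfl (fun x hx => hsub x (hX hx) (W \ X) sdiff_subset), sum_add_distrib,
      sum_congr rfl (fun x hx => (Nat.sub_add_cancel (hg x (hX hx))).symm), sum_add_distrib]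
    ring
  have hcut : ∀ X ⊆ W, Odd X.card → s + cut W (stepJ Q) (stepG Q) X ≤ cut W m f X := by
    intro X hX ho
    have hcard : (X ∩ S).card + (X \ S).card = X.card := card_inter_add_card_sdiff X S
    by_cases hc1 : X.card = 1
    · obtain ⟨x, rfl⟩ := card_eq_one.1 hc1
      have h1 := h.zg.cut_add_E hX
      have h2 := hQ.cut_add_E hX
      have h3 : E m {x} {x} = 0 := by
        unfold E
        simp only [sum_singleton]
        exact h.zg.loopless x (hX (mem_singleton_self x))
      rw [card_singleton] at h1 h2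
      omega
    · have ho' := Nat.odd_iff.1 ho
      rcases Nat.lt_or_ge (X \ S).card (X ∩ S).card with hlt | hge
      · have h1 := h.zg.cut_add_E hX
        have h2 := hQ.cut_add_E hX
        have h3 := hcrit X hX ho (by omega) hlt
        have h4 : (s + 1) * X.card = s * X.card + X.card := by ring
        omega
      · have hgt : (X ∩ S).card + 1 ≤ (X \ S).card := by omega
        rw [hcutsub X hX]
        have hmain : s * (X \ S).card ≤
            cut W (fun u v => m u v - stepJ Q u v) (fun v => f v - stepG Q v) X + s * (X ∩ S).card := by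
          have hPT : ∑ x ∈ X \ S, ∑ y ∈ X ∩ S, (m x y - stepJ Q x y) ≤ s * (X ∩ S).card := by
            rw [sum_comm]
            calc ∑ y ∈ X ∩ S, ∑ x ∈ X \ S, (m x y - stepJ Q x y)
                ≤ ∑ _y ∈ X ∩ S, s := by
                  refine sum_le_sum fun y hy => ?_
                  have hyW : y ∈ W := hX (mem_inter.1 hy).1
                  rw [← hdeg y hyW]
                  calc ∑ x ∈ X \ S, (m x y - stepJ Q x y) = ∑ x ∈ X \ S, (m y x - stepJ Q y x) :=
                        sum_congr rfl fun x hx => by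
                          have hxW : x ∈ W := hX (mem_sdiff.1 hx).1
                          rw [h.zg.symm x hxW y hyW, hs x hxW y hyW]
                    _ ≤ ∑ x ∈ W, (m y x - stepJ Q y x) :=
                        sum_le_sum_of_subset (sdiff_subset.trans hX)
                    _ ≤ _ := Nat.le_add_right _ _
              _ = s * (X ∩ S).card := by rw [sum_const, smul_eq_mul, mul_comm]
          have hP : s * (X \ S).card = ∑ x ∈ X \ S, (∑ y ∈ W \ X, (m x y - stepJ Q x y) + (f x - stepG Q x)) +
              ∑ x ∈ X \ S, ∑ y ∈ X ∩ S, (m x y - stepJ Q x y) := by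
            rw [← sum_add_distrib, mul_comm, ← smul_eq_mul, ← sum_const]
            refine sum_congr rfl fun x hx => ?_
            have hx' := mem_sdiff.1 hx
            have hxW : x ∈ W := hX hx'.1
            have e1 := hdeg x hxW
            have e2 : ∑ u ∈ W, (m x u - stepJ Q x u) =
                ∑ u ∈ W \ X, (m x u - stepJ Q x u) + ∑ u ∈ X, (m x u - stepJ Q x u) := (sum_sdiff hX).symm
            have e3 : ∑ u ∈ X, (m x u - stepJ Q x u) =
                ∑ u ∈ X \ S, (m x u - stepJ Q x u) + ∑ u ∈ X ∩ S, (m x u - stepJ Q x u) := by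
              rw [← sum_union (disjoint_sdiff_inter X S), sdiff_union_inter]
            have e4 : ∑ u ∈ X \ S, (m x u - stepJ Q x u) = 0 := by
              refine sum_eq_zero fun u hu => ?_
              have hu' := mem_sdiff.1 hu
              rw [h.ind x hxW hx'.2 u (hX hu'.1) hu'.2, Nat.zero_sub]
            omega
          have hcutP : ∑ x ∈ X \ S, (∑ y ∈ W \ X, (m x y - stepJ Q x y) + (f x - stepG Q x)) ≤
              cut W (fun u v => m u v - stepJ Q u v) (fun v => f v - stepG Q v) X := by
            unfold cut E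
            rw [← sum_add_distrib]
            exact sum_le_sum_of_subset sdiff_subset
          omega
        have hmul : s * ((X ∩ S).card + 1) ≤ s * (X \ S).card := Nat.mul_le_mul_left s hgt
        rw [Nat.mul_add, Nat.mul_one] at hmul
        omega
  refine ⟨fun u v => m u v - stepJ Q u v, fun v => f v - stepG Q v, ⟨?_, h.sub, ?_, ?_⟩, ?_⟩
  · have := h.zg.removal (stepJ Q) (stepG Q) (fun _ => 0) hs hJ hg
      (fun v hv => by rw [hrow v hv]) (fun v _ => le_refl _) hcut
    simpa using this
  · intro x hx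
    show f x - stepG Q x = 0
    rw [h.sat x hx, Nat.zero_sub]
  · intro u hu huS v hv hvS
    show m u v - stepJ Q u v = 0
    rw [h.ind u hu huS v hv hvS, Nat.zero_sub]
  · intro hd
    exact Dec.of_removal (stepJ Q) (stepG Q) hs hJ hg
      (fun v hv => by rw [hrow v hv]; exact odd_one) hd

end PStar
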