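import Pool.Agent.PStar.VC.Sub

set_option autoImplicit false

namespace PStar

open Finset

/-- Koenig's edge colouring theorem for bipartite multigraphs. -/
theorem konig_mult {α β : Type*} [Fintype α] [Fintype β] [DecidableEq α] [DecidableEq β] (r : ℕ) :
    ∀ m : α → β → ℕ, (∀ a, ∑ b, m a b ≤ r) → (∀ b, ∑ a, m a b ≤ r) →
    ∃ M : Fin r → α → β → ℕ, (∀ a b, ∑ c, M c a b = m a b) ∧
      (∀ c a, ∑ b, M c a b ≤ 1) ∧ (∀ c b, ∑ a, M c a b ≤ 1) := by
  induction r with
  | zero =>
    intro m hA _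
    refine ⟨fun c => c.elim0, fun a b => ?_, fun c => c.elim0, fun c => c.elim0⟩
    have h1 := hA a
    have h2 : m a b ≤ ∑ b, m a b :=
      single_le_sum (f := fun b => m a b) (fun _ _ => Nat.zero_le _) (mem_univ b)
    simp only [univ_eq_empty, sum_empty]
    omega
  | succ r ih =>
    intro m hA hB
    have hX : ∀ (X : Finset α) (Y : Finset β),
        ∑ a ∈ X, ∑ b ∈ Y, (m a b : ℤ) ≤ ((r : ℤ) + 1) * X.card := by
      intro X Y
      have h : ∑ a ∈ X, ∑ b ∈ Y, (m a b : ℤ) ≤ ∑ a ∈ X, ((r : ℤ) + 1) := by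
        refine sum_le_sum fun a _ => ?_
        have h1 : ∑ b ∈ Y, (m a b : ℤ) ≤ ∑ b, (m a b : ℤ) :=
          sum_le_sum_of_subset_of_nonneg (subset_univ _) fun _ _ _ => Int.natCast_nonneg _
        have h2 : (∑ b, (m a b : ℤ)) ≤ (r : ℤ) + 1 := by exact_mod_cast hA a
        linarith
      rw [sum_const, nsmul_eq_mul] at h
      linarith
    have hY : ∀ (X : Finset α) (Y : Finset β),
        ∑ a ∈ X, ∑ b ∈ Y, (m a b : ℤ) ≤ ((r : ℤ) + 1) * Y.card := by
      intro X Y
      rw [sum_comm]
      have h : ∑ b ∈ Y, ∑ a ∈ X, (m a b : ℤ) ≤ ∑ b ∈ Y, ((r : ℤ) + 1) := by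
        refine sum_le_sum fun b _ => ?_
        have h1 : ∑ a ∈ X, (m a b : ℤ) ≤ ∑ a, (m a b : ℤ) :=
          sum_le_sum_of_subset_of_nonneg (subset_univ _) fun _ _ _ => Int.natCast_nonneg _
        have h2 : (∑ a, (m a b : ℤ)) ≤ (r : ℤ) + 1 := by exact_mod_cast hB b
        linarith
      rw [sum_const, nsmul_eq_mul] at h
      linarith
    have hr0 : (0 : ℤ) ≤ r := Int.natCast_nonneg r
    obtain ⟨x, hx, hxA, hxA', hxB, hxB'⟩ := exists_subdeg m
      (fun a => (∑ b, (m a b : ℤ)) - r) (fun _ => 1) (fun b => (∑ a, (m a b : ℤ)) - r)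
      (fun _ => 1)
      (by
        intro a
        have h2 : (∑ b, (m a b : ℤ)) ≤ (r : ℤ) + 1 := by exact_mod_cast hA a
        show (∑ b, (m a b : ℤ)) - r ≤ 1
        linarith)
      (by
        intro b
        have h2 : (∑ a, (m a b : ℤ)) ≤ (r : ℤ) + 1 := by exact_mod_cast hB b
        show (∑ a, (m a b : ℤ)) - r ≤ 1
        linarith)
      (by
        intro X Y
        have h1 := hX X Y
        have h2 := hY X Y
        have h3 : ∑ a ∈ X, ((∑ b, (m a b : ℤ)) - r) = ∑ a ∈ X, ∑ b ∈ Y, (m a b : ℤ) +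
            ∑ a ∈ X, ∑ b ∈ Yᶜ, (m a b : ℤ) - r * X.card := by
          rw [sum_sub_distrib, ← sum_add_distrib, sum_const, nsmul_eq_mul]
          simp only [sum_add_sum_compl]
          ring
        rw [h3, sum_const, nsmul_eq_mul, mul_one]
        rcases le_total (X.card : ℤ) Y.card with h4 | h4
        · nlinarith
        · nlinarith)
      (by
        intro X Y
        have h1 := hX X Y
        have h2 := hY X Y
        have h3 : ∑ b ∈ Y, ((∑ a, (m a b : ℤ)) - r) = ∑ a ∈ X, ∑ b ∈ Y, (m a b : ℤ) +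
            ∑ a ∈ Xᶜ, ∑ b ∈ Y, (m a b : ℤ) - r * Y.card := by
          rw [sum_sub_distrib, sum_const, nsmul_eq_mul, sum_comm (s := X), sum_comm (s := Xᶜ),
            ← sum_add_distrib]
          simp only [sum_add_sum_compl]
          ring
        rw [h3, sum_const, nsmul_eq_mul, mul_one]
        rcases le_total (X.card : ℤ) Y.card with h4 | h4
        · nlinarith
        · nlinarith)
    obtain ⟨M, hM, hMA, hMB⟩ := ih (fun a b => m a b - x a b)
      (by
        intro a
        have h1 := hxA a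
        have h2 : (∑ b, ((m a b - x a b : ℕ) : ℤ)) = (∑ b, (m a b : ℤ)) - ∑ b, (x a b : ℤ) := by
          rw [← sum_sub_distrib]
          refine sum_congr rfl fun b _ => ?_
          rw [Nat.cast_sub (hx a b)]
        have h3 : (∑ b, ((m a b - x a b : ℕ) : ℤ)) ≤ r := by
          rw [h2]
          linarith
        exact_mod_cast h3)
      (by
        intro b
        have h1 := hxB b
        have h2 : (∑ a, ((m a b - x a b : ℕ) : ℤ)) = (∑ a, (m a b : ℤ)) - ∑ a, (x a b : ℤ) := by
          rw [← sum_sub_distrib]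
          refine sum_congr rfl fun a _ => ?_
          rw [Nat.cast_sub (hx a b)]
        have h3 : (∑ a, ((m a b - x a b : ℕ) : ℤ)) ≤ r := by
          rw [h2]
          linarith
        exact_mod_cast h3)
    refine ⟨Fin.cons x M, fun a b => ?_, fun c a => ?_, fun c b => ?_⟩
    · rw [Fin.sum_univ_succ]
      simp only [Fin.cons_zero, Fin.cons_succ]
      rw [hM a b]
      have := hx a b
      omega
    · refine Fin.cases ?_ (fun c => ?_) c
      · simp only [Fin.cons_zero]
        exact_mod_cast hxA' a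
      · simp only [Fin.cons_succ]
        exact hMA c a
    · refine Fin.cases ?_ (fun c => ?_) c
      · simp only [Fin.cons_zero]
        exact_mod_cast hxB' b
      · simp only [Fin.cons_succ]
        exact hMB c b

end PStar
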