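import Pool.Agent.PStar.VC.Basic
import Pool.Agent.PStar.VC.Konig
import Pool.Agent.PStar.VC.OfMatch

set_option autoImplicit false

namespace PStar

open Finset

variable {V : Type*} [DecidableEq V] {W S : Finset V} {m : V → V → ℕ} {f : V → ℕ} {r : ℕ}

private theorem bip_konig (S T : Finset V) (m : V → V → ℕ) (r : ℕ)
    (h1 : ∀ a ∈ S, ∑ b ∈ T, m a b ≤ r) (h2 : ∀ b ∈ T, ∑ a ∈ S, m a b ≤ r) :
    ∃ M : Fin r → V → V → ℕ, (∀ a ∈ S, ∀ b ∈ T, ∑ c, M c a b = m a b) ∧
      (∀ c a b, ¬ (a ∈ S ∧ b ∈ T) → M c a b = 0) ∧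
      (∀ c, ∀ a ∈ S, ∑ b ∈ T, M c a b ≤ 1) ∧ (∀ c, ∀ b ∈ T, ∑ a ∈ S, M c a b ≤ 1) := by
  classical
  obtain ⟨M, hM, hM1, hM2⟩ := konig_mult (α := {a // a ∈ S}) (β := {b // b ∈ T}) r
    (fun a b => m a.1 b.1)
    (fun a => by
      have := h1 a.1 a.2
      rw [← Finset.sum_coe_sort T (fun b => m a.1 b)] at this
      exact this)
    (fun b => by
      have := h2 b.1 b.2
      rw [← Finset.sum_coe_sort S (fun a => m a b.1)] at this
      exact this)
  refine ⟨fun c a b => if h : a ∈ S ∧ b ∈ T then M c ⟨a, h.1⟩ ⟨b, h.2⟩ else 0, ?_, ?_, ?_, ?_⟩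
  · intro a ha b hb
    have := hM ⟨a, ha⟩ ⟨b, hb⟩
    simp only [ha, hb, and_self, dite_true]
    exact this
  · intro c a b hn
    simp only [hn, dite_false]
  · intro c a ha
    have := hM1 c ⟨a, ha⟩
    rw [← Finset.sum_coe_sort T]
    refine le_trans (le_of_eq (Finset.sum_congr rfl fun b _ => ?_)) this
    simp only [ha, b.2, and_self, dite_true]
  · intro c b hb
    have := hM2 c ⟨b, hb⟩
    rw [← Finset.sum_coe_sort S]
    refine le_trans (le_of_eq (Finset.sum_congr rfl fun a _ => ?_)) this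
    simp only [hb, a.2, and_self, dite_true]

theorem VCS.dec_bip (h : VCS W S m f r) (h0 : ∀ x ∈ S, ∀ y ∈ S, m x y = 0) : Dec W m f r := by
  classical
  have hdeg : ∀ v ∈ W, ∑ u ∈ W, m v u + f v = r := by
    intro v hv
    have := h.zg.degree v hv
    simpa using this
  have hSW := h.sub
  obtain ⟨M, hM, hM0, hM1, hM2⟩ := bip_konig S (W \ S) m r
    (fun a ha => by
      have h1 := hdeg a (hSW ha)
      have h2 : ∑ b ∈ W \ S, m a b ≤ ∑ b ∈ W, m a b :=
        Finset.sum_le_sum_of_subset Finset.sdiff_subset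
      omega)
    (fun b hb => by
      rw [Finset.mem_sdiff] at hb
      have h1 := hdeg b hb.1
      have h2 : ∑ a ∈ S, m a b ≤ ∑ a ∈ W, m b a := by
        calc ∑ a ∈ S, m a b = ∑ a ∈ S, m b a :=
              Finset.sum_congr rfl fun a ha => h.zg.symm a (hSW ha) b hb.1
          _ ≤ ∑ a ∈ W, m b a := Finset.sum_le_sum_of_subset hSW
      omega)
  refine dec_of_matchings hdeg (fun c u v => M c u v + M c v u) ?_ ?_ ?_
  · intro c u _ v _
    exact Nat.add_comm _ _
  · intro u hu v hv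
    rw [Finset.sum_add_distrib]
    by_cases huS : u ∈ S
    · by_cases hvS : v ∈ S
      · rw [h0 u huS v hvS]
        have e1 : ∑ c, M c u v = 0 := Finset.sum_eq_zero fun c _ =>
          hM0 c u v (fun hh => (Finset.mem_sdiff.mp hh.2).2 hvS)
        have e2 : ∑ c, M c v u = 0 := Finset.sum_eq_zero fun c _ =>
          hM0 c v u (fun hh => (Finset.mem_sdiff.mp hh.2).2 huS)
        omega
      · have e1 := hM u huS v (Finset.mem_sdiff.mpr ⟨hv, hvS⟩)
        have e2 : ∑ c, M c v u = 0 := Finset.sum_eq_zero fun c _ =>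
          hM0 c v u (fun hh => hvS hh.1)
        omega
    · by_cases hvS : v ∈ S
      · have e1 := hM v hvS u (Finset.mem_sdiff.mpr ⟨hu, huS⟩)
        have e2 : ∑ c, M c u v = 0 := Finset.sum_eq_zero fun c _ =>
          hM0 c u v (fun hh => huS hh.1)
        have e3 := h.zg.symm u hu v hv
        omega
      · have e1 : ∑ c, M c u v = 0 := Finset.sum_eq_zero fun c _ =>
          hM0 c u v (fun hh => huS hh.1)
        have e2 : ∑ c, M c v u = 0 := Finset.sum_eq_zero fun c _ =>
          hM0 c v u (fun hh => hvS hh.1)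
        have e3 := h.ind u hu huS v hv hvS
        omega
  · intro c v hv
    rw [Finset.sum_add_distrib]
    by_cases hvS : v ∈ S
    · have e2 : ∑ u ∈ W, M c u v = 0 := Finset.sum_eq_zero fun u _ =>
        hM0 c u v (fun hh => (Finset.mem_sdiff.mp hh.2).2 hvS)
      have e1 : ∑ u ∈ W, M c v u = ∑ u ∈ W \ S, M c v u := by
        symm
        refine Finset.sum_subset Finset.sdiff_subset ?_
        intro u _ hu2
        exact hM0 c v u (fun hh => hu2 hh.2)
      have e3 := hM1 c v hvS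
      omega
    · have e2 : ∑ u ∈ W, M c v u = 0 := Finset.sum_eq_zero fun u _ =>
        hM0 c v u (fun hh => hvS hh.1)
      have e1 : ∑ u ∈ W, M c u v = ∑ u ∈ S, M c u v := by
        symm
        refine Finset.sum_subset hSW ?_
        intro u _ hu2
        exact hM0 c u v (fun hh => hu2 hh.1)
      have e3 := hM2 c v (Finset.mem_sdiff.mpr ⟨hv, hvS⟩)
      omega

end PStar
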