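import Pool.Agent.PStar.Defs

set_option autoImplicit false

/-!
# z-graphs with a saturated vertex cover of at most four vertices
-/

namespace PStar

open Finset

variable {V : Type*} [DecidableEq V]

/-- `S` is a set of vertices meeting every edge of the z-graph which does not go to `z`, and no
vertex of `S` is joined to `z`. -/
structure VCS (W S : Finset V) (m : V → V → ℕ) (f : V → ℕ) (r : ℕ) : Prop where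
  zg : IsZG W m f (fun _ => 0) r
  sub : S ⊆ W
  sat : ∀ x ∈ S, f x = 0
  ind : ∀ u ∈ W, u ∉ S → ∀ v ∈ W, v ∉ S → m u v = 0

/-- number of edges from `u` to `S` -/
def dS (m : V → V → ℕ) (S : Finset V) (u : V) : ℕ := ∑ x ∈ S, m x u

/-- The numerical data of a z-graph with a saturated vertex cover `{1,2,3,4}`, leaves `I`
(`xi u` = number of edges between `i` and `u`), without tight sets. -/
structure N4 (I : Finset V) (x1 x2 x3 x4 : V → ℕ) (m12 m13 m14 m23 m24 m34 r : ℕ) : Prop where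
  card : 5 ≤ I.card
  d1 : m12 + m13 + m14 + ∑ u ∈ I, x1 u = r
  d2 : m12 + m23 + m24 + ∑ u ∈ I, x2 u = r
  d3 : m13 + m23 + m34 + ∑ u ∈ I, x3 u = r
  d4 : m14 + m24 + m34 + ∑ u ∈ I, x4 u = r
  pos : ∀ u ∈ I, 1 ≤ x1 u + x2 u + x3 u + x4 u
  le : ∀ u ∈ I, x1 u + x2 u + x3 u + x4 u ≤ r
  t12 : ∀ u ∈ I, m12 + x1 u + x2 u + 1 ≤ r
  t34 : ∀ u ∈ I, m34 + x3 u + x4 u + 1 ≤ r
  c123 : m12 + m13 + m23 + 1 ≤ r
  c124 : m12 + m14 + m24 + 1 ≤ r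
  q : ∀ u ∈ I, (m12 + m13 + m14 + m23 + m24 + m34) + (x1 u + x2 u + x3 u + x4 u) + 1 ≤ 2 * r
  p123 : ∀ u ∈ I, ∀ v ∈ I, u ≠ v →
    (m12 + m13 + m23) + (x1 u + x2 u + x3 u) + (x1 v + x2 v + x3 v) + 1 ≤ 2 * r
  p124 : ∀ u ∈ I, ∀ v ∈ I, u ≠ v →
    (m12 + m14 + m24) + (x1 u + x2 u + x4 u) + (x1 v + x2 v + x4 v) + 1 ≤ 2 * r
  p134 : ∀ u ∈ I, ∀ v ∈ I, u ≠ v →
    (m13 + m14 + m34) + (x1 u + x3 u + x4 u) + (x1 v + x3 v + x4 v) + 1 ≤ 2 * r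
  p234 : ∀ u ∈ I, ∀ v ∈ I, u ≠ v →
    (m23 + m24 + m34) + (x2 u + x3 u + x4 u) + (x2 v + x3 v + x4 v) + 1 ≤ 2 * r
  w : ∀ u ∈ I, ∀ v ∈ I, ∀ w ∈ I, u ≠ v → u ≠ w → v ≠ w →
    (m12 + m13 + m14 + m23 + m24 + m34) + (x1 u + x2 u + x3 u + x4 u) +
      (x1 v + x2 v + x3 v + x4 v) + (x1 w + x2 w + x3 w + x4 w) + 1 ≤ 3 * r

/-- The pair `a`, `b` of leaves is good: the matching `{12, 3a, 4b}` can be removed. -/
structure GoodPair (I : Finset V) (x1 x2 x3 x4 : V → ℕ) (m12 m13 m14 m23 m24 m34 r : ℕ)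
    (a b : V) : Prop where
  ha : a ∈ I
  hb : b ∈ I
  ne : a ≠ b
  xa : 1 ≤ x3 a
  xb : 1 ≤ x4 b
  le : ∀ u ∈ I, u ≠ a → u ≠ b → x1 u + x2 u + x3 u + x4 u + 1 ≤ r
  p134 : ∀ u ∈ I, ∀ v ∈ I, u ≠ v → u ≠ a → u ≠ b → v ≠ a → v ≠ b →
    (m13 + m14 + m34) + (x1 u + x3 u + x4 u) + (x1 v + x3 v + x4 v) + 2 ≤ 2 * r
  p234 : ∀ u ∈ I, ∀ v ∈ I, u ≠ v → u ≠ a → u ≠ b → v ≠ a → v ≠ b →
    (m23 + m24 + m34) + (x2 u + x3 u + x4 u) + (x2 v + x3 v + x4 v) + 2 ≤ 2 * r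
  w : ∀ u ∈ I, ∀ v ∈ I, ∀ w ∈ I, u ≠ v → u ≠ w → v ≠ w →
    u ≠ a → u ≠ b → v ≠ a → v ≠ b → w ≠ a → w ≠ b →
    (m12 + m13 + m14 + m23 + m24 + m34) + (x1 u + x2 u + x3 u + x4 u) +
      (x1 v + x2 v + x3 v + x4 v) + (x1 w + x2 w + x3 w + x4 w) + 2 ≤ 3 * r

/-- One part can be removed. -/
def VRed (W S : Finset V) (m : V → V → ℕ) (f : V → ℕ) (s : ℕ) : Prop :=
  ∃ (m' : V → V → ℕ) (f' : V → ℕ), VCS W S m' f' s ∧ (Dec W m' f' s → Dec W m f (s + 1))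

end PStar
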