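import Pool.Agent.PStar.Basic0

set_option autoImplicit false

namespace PStar

open Finset

/-- transport to a larger type: the image z-graph -/
noncomputable def upM {V : Type*} (m : V → V → ℕ) : V ⊕ ℕ → V ⊕ ℕ → ℕ
  | Sum.inl u, Sum.inl v => m u v
  | _, _ => 0

noncomputable def upF {V : Type*} (f : V → ℕ) : V ⊕ ℕ → ℕ
  | Sum.inl u => f u
  | _ => 0

private theorem Transport_cut {V : Type*} [DecidableEq V] (W X : Finset V) (m : V → V → ℕ)
    (f : V → ℕ) : cut (W.map Function.Embedding.inl) (upM m) (upF f)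
      (X.map Function.Embedding.inl : Finset (V ⊕ ℕ)) = cut W m f X := by
  have h : (W.map Function.Embedding.inl : Finset (V ⊕ ℕ)) \ X.map Function.Embedding.inl =
      (W \ X).map Function.Embedding.inl := by
    ext v
    simp only [mem_sdiff, mem_map, Function.Embedding.inl_apply]
    constructor
    · rintro ⟨⟨u, hu, rfl⟩, h2⟩
      exact ⟨u, ⟨hu, fun h3 => h2 ⟨u, h3, rfl⟩⟩, rfl⟩
    · rintro ⟨u, ⟨hu, h2⟩, rfl⟩
      refine ⟨⟨u, hu, rfl⟩, ?_⟩
      rintro ⟨w, hw, h3⟩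
      exact h2 (Sum.inl_injective h3 ▸ hw)
  unfold cut E
  rw [h, sum_map, sum_map]
  simp only [sum_map]
  rfl

theorem IsZG.up {V : Type*} [DecidableEq V] {W : Finset V} {m : V → V → ℕ} {f : V → ℕ} {r : ℕ}
    (h : IsZG W m f (fun _ => 0) r) :
    IsZG (W.map Function.Embedding.inl) (upM m) (upF f) (fun _ => 0) r := by
  refine ⟨?_, ?_, ?_, ?_⟩
  · intro u hu v hv
    rw [mem_map] at hu hv
    obtain ⟨u, hu, rfl⟩ := hu
    obtain ⟨v, hv, rfl⟩ := hv
    exact h.symm u hu v hv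
  · intro v hv
    rw [mem_map] at hv
    obtain ⟨v, hv, rfl⟩ := hv
    exact h.loopless v hv
  · intro v hv
    rw [mem_map] at hv
    obtain ⟨v, hv, rfl⟩ := hv
    rw [sum_map]
    exact h.degree v hv
  · intro X hX hodd
    have hX' : X = (W.filter (fun v => (Sum.inl v : V ⊕ ℕ) ∈ X)).map Function.Embedding.inl := by
      ext x
      rw [mem_map]
      constructor
      · intro hx
        obtain ⟨v, hv, rfl⟩ := mem_map.1 (hX hx)
        exact ⟨v, mem_filter.2 ⟨hv, hx⟩, rfl⟩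
      · rintro ⟨v, hv, rfl⟩
        exact (mem_filter.1 hv).2
    rw [hX', Transport_cut]
    refine h.cuts _ (filter_subset _ _) ?_
    rw [hX', card_map] at hodd
    exact hodd

theorem Dec.of_up {V : Type*} [DecidableEq V] {W : Finset V} {m : V → V → ℕ} {f : V → ℕ} {r : ℕ}
    (h : Dec (W.map Function.Embedding.inl) (upM m) (upF f) r) : Dec W m f r := by
  obtain ⟨J, g, h1, h2, h3, h4⟩ := h
  have hm : ∀ {v : V}, v ∈ W → (Sum.inl v : V ⊕ ℕ) ∈ W.map Function.Embedding.inl := fun hv =>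
    mem_map.2 ⟨_, hv, rfl⟩
  refine ⟨fun c u v => J c (Sum.inl u) (Sum.inl v), fun c v => g c (Sum.inl v), ?_, ?_, ?_, ?_⟩
  · intro c u hu v hv
    exact h1 c _ (hm hu) _ (hm hv)
  · intro u hu v hv
    exact h2 _ (hm hu) _ (hm hv)
  · intro v hv
    exact h3 _ (hm hv)
  · intro c v hv
    have h5 := h4 c _ (hm hv)
    rw [sum_map] at h5
    exact h5

end PStar
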