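import Pool.Agent.PStar.VC.Main
import Pool.Agent.PStar.VC.Transport
import Pool.Agent.PStar.FinalZG
import Pool.Agent.PStar.FinalCol

set_option autoImplicit false

namespace PStar

open Finset

section
open Classical

private theorem VCFinal_edeg_le {V E : Type} [Fintype V] [Fintype E] (φ : E → Sym2 V) (v : V) :
    edeg φ v ≤ bound φ := by
  unfold edeg bound
  exact le_trans (Finset.le_sup (f := fun v : V =>
    (Finset.univ.filter (fun e : E => v ∈ φ e)).card) (Finset.mem_univ v)) (le_max_left _ _)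

theorem exact_of_cover {V E : Type} [Fintype V] [Fintype E] (φ : E → Sym2 V)
    (hl : ∀ e, ¬ (φ e).IsDiag) (S : Finset V) (hS : S.card ≤ 4)
    (hcov : ∀ e, ∃ v ∈ S, v ∈ φ e) :
    ∃ c : E → Fin (bound φ),
      ∀ e₁ e₂ : E, e₁ ≠ e₂ → (∃ v, v ∈ φ e₁ ∧ v ∈ φ e₂) → c e₁ ≠ c e₂ := by
  have hz := isZG_of_graph φ hl
  have hdeg : ∀ v, edeg φ v + (bound φ - edeg φ v) = bound φ := fun v => by
    have := VCFinal_edeg_le φ v
    omega
  refine coloring_of_dec φ hl (bound φ) (fun v => bound φ - edeg φ v) hdeg ?_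
  refine Dec.of_up ?_
  refine dec_of_cover _ (S.map Function.Embedding.inl) _ _ _ hz.up ?_ ?_ ?_
  · exact map_subset_map.2 (subset_univ S)
  · intro u hu huS v hv hvS
    rw [mem_map] at hu hv
    obtain ⟨u', _, rfl⟩ := hu
    obtain ⟨v', _, rfl⟩ := hv
    have h1 : u' ∉ S := fun h => huS (mem_map_of_mem _ h)
    have h2 : v' ∉ S := fun h => hvS (mem_map_of_mem _ h)
    change mult φ u' v' = 0
    unfold mult
    rw [card_eq_zero, filter_eq_empty_iff]
    intro e _ he
    obtain ⟨w, hw, hwe⟩ := hcov e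
    rw [he, Sym2.mem_iff] at hwe
    rcases hwe with rfl | rfl
    · exact h1 hw
    · exact h2 hw
  · rw [card_map]
    exact hS

end

end PStar
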