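import Pool.Agent.PStar.Basic0

set_option autoImplicit false

namespace PStar

open Finset

variable {V : Type*} [DecidableEq V] {W : Finset V} {m : V → V → ℕ} {f : V → ℕ} {r : ℕ}

/-- add a new vertex `y` joined to `x` by `F` edges -/
def leafM (m : V → V → ℕ) (x y : V) (F : ℕ) : V → V → ℕ := fun u v =>
  if (u = x ∧ v = y) ∨ (u = y ∧ v = x) then F else if u = y ∨ v = y then 0 else m u v

def leafF (f : V → ℕ) (x y : V) (r : ℕ) : V → ℕ := fun u =>
  if u = y then r - f x else if u = x then 0 else f u

private theorem Leaf_M (m : V → V → ℕ) (x y : V) (F : ℕ) {u v : V} (hu : u ≠ y) (hv : v ≠ y) :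
    leafM m x y F u v = m u v := by
  unfold leafM
  rw [if_neg, if_neg]
  · rintro (h | h)
    · exact hu h
    · exact hv h
  · rintro (h | h)
    · exact hv h.2
    · exact hu h.1

private theorem Leaf_My (m : V → V → ℕ) (x y : V) (F : ℕ) {u : V} (hu : u ≠ y) :
    leafM m x y F u y = if u = x then F else 0 := by
  unfold leafM
  by_cases h : u = x
  · rw [if_pos (Or.inl ⟨h, rfl⟩), if_pos h]
  · rw [if_neg, if_pos (Or.inr rfl), if_neg h]
    rintro (h1 | h1)
    · exact h h1.1
    · exact hu h1.1

private theorem Leaf_yM (m : V → V → ℕ) (x y : V) (F : ℕ) {v : V} (hv : v ≠ y) :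
    leafM m x y F y v = if v = x then F else 0 := by
  unfold leafM
  by_cases h : v = x
  · rw [if_pos (Or.inr ⟨rfl, h⟩), if_pos h]
  · rw [if_neg, if_pos (Or.inl rfl), if_neg h]
    rintro (h1 | h1)
    · exact hv h1.2
    · exact h h1.2

private theorem Leaf_yy (m : V → V → ℕ) {x y : V} (F : ℕ) (hxy : x ≠ y) :
    leafM m x y F y y = 0 := by
  unfold leafM
  rw [if_neg, if_pos (Or.inl rfl)]
  rintro (h1 | h1)
  · exact hxy h1.1.symm
  · exact hxy h1.2.symm

private theorem Leaf_Fy (f : V → ℕ) (x y : V) (r : ℕ) : leafF f x y r y = r - f x := by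
  unfold leafF
  rw [if_pos rfl]

private theorem Leaf_F (f : V → ℕ) (x y : V) (r : ℕ) {u : V} (hu : u ≠ y) :
    leafF f x y r u + (if u = x then f x else 0) = f u := by
  unfold leafF
  rw [if_neg hu]
  split_ifs with h
  · rw [h, zero_add]
  · rw [add_zero]

private theorem Leaf_deg (h : IsZG W m f (fun _ => 0) r) {v : V} (hv : v ∈ W) :
    ∑ u ∈ W, m v u + f v = r := by
  have h1 := h.degree v hv
  simpa using h1

theorem IsZG.add_leaf (h : IsZG W m f (fun _ => 0) r) {x y : V} (hx : x ∈ W) (hy : y ∉ W) :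
    IsZG (insert y W) (leafM m x y (f x)) (leafF f x y r) (fun _ => 0) r := by
  have hxy : x ≠ y := fun e => hy (e ▸ hx)
  have hW : ∀ u ∈ W, u ≠ y := fun u hu e => hy (e ▸ hu)
  have hFr : f x ≤ r := by
    have h1 := Leaf_deg h hx
    omega
  refine ⟨?_, ?_, ?_, ?_⟩
  · intro u hu v hv
    rcases mem_insert.1 hu with h1 | h1 <;> rcases mem_insert.1 hv with h2 | h2
    · rw [h1, h2]
    · rw [h1, Leaf_yM _ _ _ _ (hW v h2), Leaf_My _ _ _ _ (hW v h2)]
    · rw [h2, Leaf_yM _ _ _ _ (hW u h1), Leaf_My _ _ _ _ (hW u h1)]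
    · rw [Leaf_M _ _ _ _ (hW u h1) (hW v h2), Leaf_M _ _ _ _ (hW v h2) (hW u h1)]
      exact h.symm u h1 v h2
  · intro v hv
    rcases mem_insert.1 hv with rfl | hv
    · exact Leaf_yy _ _ hxy
    · rw [Leaf_M _ _ _ _ (hW v hv) (hW v hv)]
      exact h.loopless v hv
  · intro v hv
    show ∑ u ∈ insert y W, leafM m x y (f x) v u + leafF f x y r v = r + 2 * 0
    rw [sum_insert hy]
    rcases mem_insert.1 hv with rfl | hv
    · rw [Leaf_yy _ _ hxy, Leaf_Fy, sum_congr rfl fun u hu => Leaf_yM m x v (f x) (hW u hu),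
        sum_ite_eq' W x (fun _ => f x), if_pos hx]
      omega
    · rw [Leaf_My _ _ _ _ (hW v hv), sum_congr rfl fun u hu => Leaf_M m x y (f x) (hW v hv) (hW u hu)]
      have h1 := Leaf_deg h hv
      have h2 := Leaf_F f x y r (hW v hv)
      omega
  · intro X hX hXo
    by_cases hyX : y ∈ X
    · obtain ⟨Y, hyY, rfl⟩ : ∃ Y, y ∉ Y ∧ insert y Y = X :=
        ⟨X.erase y, notMem_erase y X, insert_erase hyX⟩
      have hYW : Y ⊆ W := by
        intro a ha
        rcases mem_insert.1 (hX (mem_insert_of_mem ha)) with h1 | h1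
        · exact absurd ha (h1 ▸ hyY)
        · exact h1
      have hsd : insert y W \ insert y Y = W \ Y := by
        ext a
        simp only [mem_sdiff, mem_insert]
        constructor
        · rintro ⟨h1 | h1, h2⟩
          · exact absurd (Or.inl h1) h2
          · exact ⟨h1, fun h3 => h2 (Or.inr h3)⟩
        · rintro ⟨h1, h2⟩
          refine ⟨Or.inr h1, ?_⟩
          rintro (h3 | h3)
          · exact hW a h1 h3
          · exact h2 h3
      have e1 : cut (insert y W) (leafM m x y (f x)) (leafF f x y r) (insert y Y)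
          = (∑ b ∈ W \ Y, (if b = x then f x else 0) + E m Y (W \ Y)) +
            ((r - f x) + ∑ a ∈ Y, leafF f x y r a) := by
        unfold cut E
        rw [hsd, sum_insert hyY, sum_insert hyY, Leaf_Fy]
        congr 2
        · exact sum_congr rfl fun b hb => Leaf_yM m x y (f x) (hW b (mem_sdiff.1 hb).1)
        · exact sum_congr rfl fun a ha => sum_congr rfl fun b hb =>
            Leaf_M m x y (f x) (hW a (hYW ha)) (hW b (mem_sdiff.1 hb).1)
      have e2 : ∑ a ∈ Y, leafF f x y r a + ∑ a ∈ Y, (if a = x then f x else 0) = ∑ a ∈ Y, f a := by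
        rw [← sum_add_distrib]
        exact sum_congr rfl fun a ha => Leaf_F f x y r (hW a (hYW ha))
      rw [sum_ite_eq' Y x (fun _ => f x)] at e2
      rw [sum_ite_eq' (W \ Y) x (fun _ => f x)] at e1
      rw [e1]
      by_cases hxY : x ∈ Y
      · rw [if_pos hxY] at e2
        rw [if_neg fun h1 => (mem_sdiff.1 h1).2 hxY]
        have hodd : Odd (Y.erase x).card := by
          rw [card_insert_of_notMem hyY] at hXo
          rw [card_erase_of_mem hxY]
          have h1 : 0 < Y.card := card_pos.2 ⟨x, hxY⟩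
          rw [Nat.odd_iff] at hXo ⊢
          omega
        have hc := h.cuts (Y.erase x) ((erase_subset x Y).trans hYW) hodd
        have hxd : x ∉ W \ Y := fun h1 => (mem_sdiff.1 h1).2 hxY
        have hsd2 : W \ Y.erase x = insert x (W \ Y) := by
          ext a
          simp only [mem_sdiff, mem_insert, mem_erase]
          constructor
          · rintro ⟨h1, h2⟩
            by_cases h3 : a = x
            · exact Or.inl h3
            · exact Or.inr ⟨h1, fun h4 => h2 ⟨h3, h4⟩⟩
          · rintro (h1 | ⟨h1, h2⟩)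
            · rw [h1]
              exact ⟨hx, fun h3 => h3.1 rfl⟩
            · exact ⟨h1, fun h3 => h2 h3.2⟩
        have e3 : cut W m f (Y.erase x)
            = (∑ a ∈ Y.erase x, m a x + E m (Y.erase x) (W \ Y)) + ∑ a ∈ Y.erase x, f a := by
          have e8 : E m (Y.erase x) (W \ Y.erase x)
              = ∑ a ∈ Y.erase x, m a x + E m (Y.erase x) (W \ Y) := by
            unfold E
            rw [hsd2, ← sum_add_distrib]
            exact sum_congr rfl fun a _ => sum_insert hxd
          unfold cut
          rw [e8]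
        have e4 : E m Y (W \ Y) = ∑ b ∈ W \ Y, m x b + E m (Y.erase x) (W \ Y) := by
          unfold E
          rw [← add_sum_erase Y _ hxY]
        have e5 : ∑ a ∈ Y, f a = f x + ∑ a ∈ Y.erase x, f a := (add_sum_erase Y f hxY).symm
        have e6 : ∑ u ∈ W, m x u = ∑ b ∈ W \ Y, m x b + ∑ a ∈ Y.erase x, m a x := by
          rw [← sum_sdiff hYW, ← add_sum_erase Y _ hxY, h.loopless x hx, zero_add]
          congr 1
          exact sum_congr rfl fun a ha => h.symm x hx a (hYW (mem_of_mem_erase ha))
        have e7 := Leaf_deg h hx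
        omega
      · rw [if_neg hxY] at e2
        rw [if_pos (mem_sdiff.2 ⟨hx, hxY⟩)]
        omega
    · have hXW : X ⊆ W := by
        intro a ha
        rcases mem_insert.1 (hX ha) with h1 | h1
        · exact absurd ha (h1 ▸ hyX)
        · exact h1
      have hsd : insert y W \ X = insert y (W \ X) := insert_sdiff_of_notMem W hyX
      have hyd : y ∉ W \ X := fun h1 => hy (mem_sdiff.1 h1).1
      have e1 : cut (insert y W) (leafM m x y (f x)) (leafF f x y r) X = cut W m f X := by
        unfold cut E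
        rw [hsd, ← sum_add_distrib, ← sum_add_distrib]
        refine sum_congr rfl fun a ha => ?_
        rw [sum_insert hyd, Leaf_My _ _ _ _ (hW a (hXW ha)),
          sum_congr rfl fun b hb =>
            Leaf_M m x y (f x) (hW a (hXW ha)) (hW b (mem_sdiff.1 hb).1)]
        have h2 := Leaf_F f x y r (hW a (hXW ha))
        omega
      rw [e1]
      exact h.cuts X hXW hXo

theorem Dec.of_leaf (h : IsZG W m f (fun _ => 0) r) {x y : V} (hx : x ∈ W) (hy : y ∉ W)
    (hd : Dec (insert y W) (leafM m x y (f x)) (leafF f x y r) r) : Dec W m f r := by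
  have _ := h
  have hxy : x ≠ y := fun e => hy (e ▸ hx)
  have hW : ∀ u ∈ W, u ≠ y := fun u hu e => hy (e ▸ hu)
  obtain ⟨J, g, h1, h2, h3, h4⟩ := hd
  have hy' : y ∈ insert y W := mem_insert_self y W
  refine ⟨J, fun c u => if u = x then J c x y else g c u, ?_, ?_, ?_, ?_⟩
  · intro c u hu v hv
    exact h1 c u (mem_insert_of_mem hu) v (mem_insert_of_mem hv)
  · intro u hu v hv
    rw [h2 u (mem_insert_of_mem hu) v (mem_insert_of_mem hv), Leaf_M _ _ _ _ (hW u hu) (hW v hv)]
  · intro v hv
    by_cases hvx : v = x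
    · have e1 : ∀ c, (if v = x then J c x y else g c v) = J c x y := fun c => if_pos hvx
      show ∑ c, (if v = x then J c x y else g c v) = f v
      rw [sum_congr rfl fun c _ => e1 c, h2 x (mem_insert_of_mem hx) y hy',
        Leaf_My _ _ _ _ hxy, if_pos rfl, hvx]
    · have e1 : ∀ c, (if v = x then J c x y else g c v) = g c v := fun c => if_neg hvx
      show ∑ c, (if v = x then J c x y else g c v) = f v
      have e2 := Leaf_F f x y r (hW v hv)
      rw [if_neg hvx, add_zero] at e2
      rw [sum_congr rfl fun c _ => e1 c, h3 v (mem_insert_of_mem hv), e2]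
  · intro c v hv
    have h5 := h4 c v (mem_insert_of_mem hv)
    rw [sum_insert hy] at h5
    show Odd (∑ u ∈ W, J c v u + (if v = x then J c x y else g c v))
    by_cases hvx : v = x
    · rw [if_pos hvx]
      have e1 : g c x = 0 := by
        have e2 : ∑ c, g c x = 0 := by
          have e3 := Leaf_F f x y r hxy
          rw [if_pos rfl] at e3
          rw [h3 x (mem_insert_of_mem hx)]
          omega
        exact (sum_eq_zero_iff.1 e2) c (mem_univ c)
      rw [hvx, e1] at h5
      rw [hvx]
      have e4 : ∑ u ∈ W, J c x u + J c x y = J c x y + ∑ u ∈ W, J c x u + 0 := by ring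
      rw [e4]
      exact h5
    · rw [if_neg hvx]
      have e1 : J c v y = 0 := by
        have e2 : ∑ c, J c v y = 0 := by
          rw [h2 v (mem_insert_of_mem hv) y hy', Leaf_My _ _ _ _ (hW v hv), if_neg hvx]
        exact (sum_eq_zero_iff.1 e2) c (mem_univ c)
      rw [e1, zero_add] at h5
      exact h5

private theorem Leaf_iso (h : IsZG W m f (fun _ => 0) r) {y : V} (hy : y ∈ W) (hf : f y = r) :
    ∀ u ∈ W, m y u = 0 ∧ m u y = 0 := by
  intro u hu
  have h1 := Leaf_deg h hy
  have h2 : ∑ u ∈ W, m y u = 0 := by omega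
  have h3 : m y u = 0 := (sum_eq_zero_iff.1 h2) u hu
  exact ⟨h3, by rw [h.symm u hu y hy]; exact h3⟩

/-- removing a vertex which has only edges to `z` -/
theorem IsZG.erase_iso (h : IsZG W m f (fun _ => 0) r) {y : V} (hy : y ∈ W) (hf : f y = r) :
    IsZG (W.erase y) m f (fun _ => 0) r := by
  have hi := Leaf_iso h hy hf
  refine ⟨?_, ?_, ?_, ?_⟩
  · intro u hu v hv
    exact h.symm u (mem_of_mem_erase hu) v (mem_of_mem_erase hv)
  · intro v hv
    exact h.loopless v (mem_of_mem_erase hv)
  · intro v hv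
    have hv' := mem_of_mem_erase hv
    have h1 := h.degree v hv'
    rw [← add_sum_erase W _ hy, (hi v hv').2, zero_add] at h1
    exact h1
  · intro X hX hXo
    have hXW : X ⊆ W := hX.trans (erase_subset y W)
    have h1 := h.cuts X hXW hXo
    have hyX : y ∉ X := fun h2 => (mem_erase.1 (hX h2)).1 rfl
    have hyd : y ∈ W \ X := mem_sdiff.2 ⟨hy, hyX⟩
    have e1 : cut W m f X = cut (W.erase y) m f X := by
      unfold cut E
      congr 1
      refine sum_congr rfl fun a ha => ?_
      have e2 : W.erase y \ X = (W \ X).erase y := by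
        ext b
        simp only [mem_sdiff, mem_erase]
        tauto
      rw [e2, ← add_sum_erase (W \ X) _ hyd, (hi a (hXW ha)).2, zero_add]
    rw [← e1]
    exact h1

theorem Dec.of_erase_iso (h : IsZG W m f (fun _ => 0) r) {y : V} (hy : y ∈ W) (hf : f y = r)
    (hd : Dec (W.erase y) m f r) : Dec W m f r := by
  have hi := Leaf_iso h hy hf
  obtain ⟨J, g, h1, h2, h3, h4⟩ := hd
  refine ⟨fun c u v => if u = y ∨ v = y then 0 else J c u v,
    fun c u => if u = y then 1 else g c u, ?_, ?_, ?_, ?_⟩
  · intro c u hu v hv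
    show (if u = y ∨ v = y then 0 else J c u v) = (if v = y ∨ u = y then 0 else J c v u)
    by_cases h5 : u = y ∨ v = y
    · rw [if_pos h5, if_pos h5.symm]
    · rw [if_neg h5, if_neg fun h6 => h5 h6.symm]
      rw [not_or] at h5
      exact h1 c u (mem_erase.2 ⟨h5.1, hu⟩) v (mem_erase.2 ⟨h5.2, hv⟩)
  · intro u hu v hv
    show ∑ c, (if u = y ∨ v = y then 0 else J c u v) = m u v
    by_cases h5 : u = y ∨ v = y
    · rw [sum_congr rfl fun c _ => if_pos h5, sum_const_zero]
      rcases h5 with h5 | h5
      · rw [h5]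
        exact (hi v hv).1.symm
      · rw [h5]
        exact (hi u hu).2.symm
    · rw [sum_congr rfl fun c _ => if_neg h5]
      rw [not_or] at h5
      exact h2 u (mem_erase.2 ⟨h5.1, hu⟩) v (mem_erase.2 ⟨h5.2, hv⟩)
  · intro v hv
    show ∑ c, (if v = y then 1 else g c v) = f v
    by_cases h5 : v = y
    · rw [sum_congr rfl fun c _ => if_pos h5, h5, hf]
      simp
    · rw [sum_congr rfl fun c _ => if_neg h5]
      exact h3 v (mem_erase.2 ⟨h5, hv⟩)
  · intro c v hv
    show Odd (∑ u ∈ W, (if v = y ∨ u = y then 0 else J c v u) + (if v = y then 1 else g c v))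
    by_cases h5 : v = y
    · rw [sum_congr rfl fun u _ => if_pos (Or.inl h5), sum_const_zero, if_pos h5, zero_add]
      exact odd_one
    · rw [if_neg h5, ← add_sum_erase W _ hy]
      rw [if_pos (Or.inr rfl), zero_add]
      have e1 : ∑ u ∈ W.erase y, (if v = y ∨ u = y then 0 else J c v u)
          = ∑ u ∈ W.erase y, J c v u := by
        refine sum_congr rfl fun u hu => if_neg ?_
        rintro (h6 | h6)
        · exact h5 h6
        · exact (mem_erase.1 hu).1 h6
      rw [e1]
      exact h4 c v (mem_erase.2 ⟨h5, hv⟩)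

end PStar
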