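import Pool.Agent.PStar.VC.Basic

set_option autoImplicit false

namespace PStar

open Finset

variable {V : Type*} [DecidableEq V] {W S : Finset V} {m : V → V → ℕ} {f : V → ℕ} {r s : ℕ}

private theorem red3_nt (h : VCS W S m f (s + 1)) (hnt : NTV W S m f (s + 1)) {X : Finset V}
    (hX : X ⊆ W) (ho : Odd X.card) (h3 : 3 ≤ X.card) (hc : (X \ S).card < (X ∩ S).card) :
    E m X X + s + 3 ≤ (s + 1) * X.card := by
  have h1 := hnt X hX ho h3 hc
  have h2 := h.zg.cut_add_E hX
  omega

private theorem red3_pair (g : V → V → ℕ) {X : Finset V} {a b : V} (ha : a ∈ X) (hb : b ∈ X)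
    (hab : a ≠ b) : g a b + g b a ≤ E g X X := by
  unfold E
  have h1 : ∑ x ∈ ({a, b} : Finset V), ∑ y ∈ X, g x y ≤ ∑ x ∈ X, ∑ y ∈ X, g x y := by
    apply Finset.sum_le_sum_of_subset
    intro x hx
    rw [Finset.mem_insert, Finset.mem_singleton] at hx
    rcases hx with rfl | rfl
    · exact ha
    · exact hb
  rw [Finset.sum_pair hab] at h1
  have h2 : g a b ≤ ∑ y ∈ X, g a y :=
    Finset.single_le_sum (f := fun y => g a y) (fun _ _ => Nat.zero_le _) hb
  have h3 : g b a ≤ ∑ y ∈ X, g b y :=
    Finset.single_le_sum (f := fun y => g b y) (fun _ _ => Nat.zero_le _) ha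
  omega

theorem VCS.red3 (h : VCS W S m f (s + 1)) (hnt : NTV W S m f (s + 1)) {p q k : V}
    (hS : S = {p, q, k}) (hcard : S.card = 3) (hpq : 1 ≤ m p q) : VRed W S m f s := by
  have hsub := h.sub
  have hpS : p ∈ S := by rw [hS]; simp
  have hqS : q ∈ S := by rw [hS]; simp
  have hkS : k ∈ S := by rw [hS]; simp
  have hpW := hsub hpS
  have hqW := hsub hqS
  have hkW := hsub hkS
  have hpq' : p ≠ q := by
    rintro rfl
    have h1 := h.zg.loopless p hpW
    omega
  have hpk : p ≠ k := by
    rintro rfl
    have h1 : S ⊆ {p, q} := by
      rw [hS]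
      intro x hx
      simp only [Finset.mem_insert, Finset.mem_singleton] at hx ⊢
      tauto
    have h2 := Finset.card_le_card h1
    have h3 : ({p, q} : Finset V).card ≤ 2 := Finset.card_le_two
    omega
  have hqk : q ≠ k := by
    rintro rfl
    have h1 : S ⊆ {p, q} := by
      rw [hS]
      intro x hx
      simp only [Finset.mem_insert, Finset.mem_singleton] at hx ⊢
      tauto
    have h2 := Finset.card_le_card h1
    have h3 : ({p, q} : Finset V).card ≤ 2 := Finset.card_le_two
    omega
  have hqp : 1 ≤ m q p := by rw [← h.zg.symm p hpW q hqW]; exact hpq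
  -- the choice of the leaf `a`
  have hex : ∃ a ∈ W, a ∉ S ∧ 1 ≤ m k a ∧ ∀ u ∈ W, u ∉ S → u ≠ a → 1 ≤ f u := by
    by_cases hz : ∃ u ∈ W, u ∉ S ∧ f u = 0
    · obtain ⟨u, hu, huS, hfu⟩ := hz
      have hdu := h.deg_dS hu huS
      refine ⟨u, hu, huS, ?_, ?_⟩
      · -- `X = {p, q, u}`
        have hpu : p ≠ u := fun h0 => huS (h0 ▸ hpS)
        have hqu : q ≠ u := fun h0 => huS (h0 ▸ hqS)
        have hku : k ≠ u := fun h0 => huS (h0 ▸ hkS)
        have e1 : ({p, q, u} : Finset V) ∩ S = {p, q} := by
          ext x
          simp only [Finset.mem_inter, Finset.mem_insert, Finset.mem_singleton]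
          constructor
          · rintro ⟨rfl | rfl | rfl, h2⟩
            · exact Or.inl rfl
            · exact Or.inr rfl
            · exact absurd h2 huS
          · rintro (rfl | rfl)
            · exact ⟨Or.inl rfl, hpS⟩
            · exact ⟨Or.inr (Or.inl rfl), hqS⟩
        have e2 : ({p, q, u} : Finset V) \ S = {u} := by
          ext x
          simp only [Finset.mem_sdiff, Finset.mem_insert, Finset.mem_singleton]
          constructor
          · rintro ⟨rfl | rfl | rfl, h2⟩
            · exact absurd hpS h2
            · exact absurd hqS h2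
            · rfl
          · rintro rfl
            exact ⟨Or.inr (Or.inr rfl), huS⟩
        have hX : ({p, q, u} : Finset V) ⊆ W := by
          intro x hx
          simp only [Finset.mem_insert, Finset.mem_singleton] at hx
          rcases hx with rfl | rfl | rfl
          · exact hpW
          · exact hqW
          · exact hu
        have hc : ({p, q, u} : Finset V).card = 3 := Finset.card_eq_three.2
          ⟨p, q, u, hpq', hpu, hqu, rfl⟩
        have h1 := red3_nt h hnt hX (by rw [hc]; decide) (by rw [hc])
          (by rw [e1, e2, Finset.card_pair hpq', Finset.card_singleton]; omega)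
        rw [h.E_eq hX, e1, e2, Finset.sum_singleton, Finset.sum_pair hpq', hc] at h1
        have h2 := red3_pair m (X := {p, q}) (Finset.mem_insert_self p {q})
          (Finset.mem_insert_of_mem (Finset.mem_singleton_self q)) hpq'
        have h3 : dS m S u = m p u + (m q u + m k u) := by
          unfold dS
          rw [hS, Finset.sum_insert (by simp [hpq', hpk]), Finset.sum_pair hqk]
        omega
      · intro u' hu' huS' hne
        by_contra hf
        have hfu' : f u' = 0 := by omega
        have hdu' := h.deg_dS hu' huS'
        have e1 : (S ∪ {u, u'}) ∩ S = S := Finset.union_inter_cancel_left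
        have e2 : (S ∪ {u, u'}) \ S = {u, u'} := by
          rw [Finset.union_sdiff_left]
          apply Finset.sdiff_eq_self_of_disjoint
          rw [Finset.disjoint_left]
          intro x hx hxS
          simp only [Finset.mem_insert, Finset.mem_singleton] at hx
          rcases hx with rfl | rfl
          · exact huS hxS
          · exact huS' hxS
        have hX : (S ∪ {u, u'}) ⊆ W := by
          intro x hx
          simp only [Finset.mem_union, Finset.mem_insert, Finset.mem_singleton] at hx
          rcases hx with hx | rfl | rfl
          · exact hsub hx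
          · exact hu
          · exact hu'
        have hc : (S ∪ {u, u'}).card = 5 := by
          rw [← Finset.card_sdiff_add_card_inter (S ∪ {u, u'}) S, e1, e2, hcard,
            Finset.card_pair hne.symm]
        have h1 := red3_nt h hnt hX (by rw [hc]; decide) (by rw [hc]; omega)
          (by rw [e1, e2, hcard, Finset.card_pair hne.symm]; omega)
        rw [h.E_eq hX, e1, e2, Finset.sum_pair hne.symm, hc] at h1
        have h2 := red3_pair m (X := S) hpS hqS hpq'
        unfold dS at hdu hdu'
        omega
    · push Not at hz
      have e1 : S ∩ S = S := Finset.inter_self S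
      have e2 : S \ S = ∅ := Finset.sdiff_self S
      have h1 := red3_nt h hnt hsub (by rw [hcard]; decide) (by rw [hcard])
        (by rw [e1, e2, hcard, Finset.card_empty]; omega)
      have hlow : 2 * (m k p + m k q) ≤ E m S S := by
        have h2 := h.zg.symm k hkW p hpW
        have h3 := h.zg.symm k hkW q hqW
        have h4 : ∑ y ∈ S, m k y = m k p + (m k q + m k k) := by
          rw [hS, Finset.sum_insert (by simp [hpq', hpk]), Finset.sum_pair hqk]
        have h5 : E m S S = ∑ y ∈ S, m p y + (∑ y ∈ S, m q y + ∑ y ∈ S, m k y) := by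
          unfold E
          nth_rewrite 1 [hS]
          rw [Finset.sum_insert (by simp [hpq', hpk]), Finset.sum_pair hqk]
        have h6 : m p k ≤ ∑ y ∈ S, m p y :=
          Finset.single_le_sum (f := fun y => m p y) (fun _ _ => Nat.zero_le _) hkS
        have h7 : m q k ≤ ∑ y ∈ S, m q y :=
          Finset.single_le_sum (f := fun y => m q y) (fun _ _ => Nat.zero_le _) hkS
        omega
      rw [hcard] at h1
      by_contra hno
      push Not at hno
      have hz' : ∀ u ∈ W, u ∉ S → 1 ≤ f u := by
        intro u hu huS
        have := hz u hu huS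
        omega
      have h3 : ∀ a ∈ W \ S, m k a = 0 := by
        intro a ha
        rw [Finset.mem_sdiff] at ha
        by_contra h4
        obtain ⟨u, hu, huS, _, hf⟩ := hno a ha.1 ha.2 (by omega)
        have := hz' u hu huS
        omega
      have h4 := h.zg.degree k hkW
      rw [← Finset.sum_sdiff hsub, Finset.sum_eq_zero h3, h.sat k hkS] at h4
      have h5 : ∑ y ∈ S, m k y = m k p + (m k q + m k k) := by
        rw [hS, Finset.sum_insert (by simp [hpq', hpk]), Finset.sum_pair hqk]
      have h6 := h.zg.loopless k hkW
      omega
  obtain ⟨a, haW, haS, hka, hfa⟩ := hex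
  have hap : a ≠ p := fun h0 => haS (h0 ▸ hpS)
  have haq : a ≠ q := fun h0 => haS (h0 ▸ hqS)
  have hak : a ≠ k := fun h0 => haS (h0 ▸ hkS)
  have hak' : 1 ≤ m a k := by rw [h.zg.symm a haW k hkW]; exact hka
  obtain ⟨Q, hQ⟩ : ∃ Q : V → Option V, Q = fun u => if u = p then some q else if u = q then
    some p else if u = k then some a else if u = a then some k else none := ⟨_, rfl⟩
  have Qp : Q p = some q := by rw [hQ]; simp
  have hQq0 : Q q = some p := by rw [hQ]; simp [hpq'.symm]
  have Qk : Q k = some a := by rw [hQ]; simp [hpk.symm, hqk.symm]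
  have Qa : Q a = some k := by rw [hQ]; simp [hap, haq, hak]
  have Qn : ∀ u, u ≠ p → u ≠ q → u ≠ k → u ≠ a → Q u = none := by
    intro u h1 h2 h3 h4
    rw [hQ]
    simp [h1, h2, h3, h4]
  have hPQ : PQ W m f Q := by
    refine { symm := ?_, some := ?_, none := ?_ }
    · intro u _ v _ huv
      by_cases h1 : u = p
      · subst h1
        rw [Qp, Option.some.injEq] at huv
        rw [← huv, hQq0]
      by_cases h2 : u = q
      · subst h2
        rw [hQq0, Option.some.injEq] at huv
        rw [← huv, Qp]
      by_cases h3 : u = k
      · subst h3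
        rw [Qk, Option.some.injEq] at huv
        rw [← huv, Qa]
      by_cases h4 : u = a
      · subst h4
        rw [Qa, Option.some.injEq] at huv
        rw [← huv, Qk]
      rw [Qn u h1 h2 h3 h4] at huv
      exact absurd huv (by simp)
    · intro u _ v huv
      by_cases h1 : u = p
      · subst h1
        rw [Qp, Option.some.injEq] at huv
        rw [← huv]
        exact ⟨hqW, hpq⟩
      by_cases h2 : u = q
      · subst h2
        rw [hQq0, Option.some.injEq] at huv
        rw [← huv]
        exact ⟨hpW, hqp⟩
      by_cases h3 : u = k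
      · subst h3
        rw [Qk, Option.some.injEq] at huv
        rw [← huv]
        exact ⟨haW, hka⟩
      by_cases h4 : u = a
      · subst h4
        rw [Qa, Option.some.injEq] at huv
        rw [← huv]
        exact ⟨hkW, hak'⟩
      rw [Qn u h1 h2 h3 h4] at huv
      exact absurd huv (by simp)
    · intro u hu hun
      by_cases h1 : u = p
      · subst h1
        rw [Qp] at hun
        exact absurd hun (by simp)
      by_cases h2 : u = q
      · subst h2
        rw [hQq0] at hun
        exact absurd hun (by simp)
      by_cases h3 : u = k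
      · subst h3
        rw [Qk] at hun
        exact absurd hun (by simp)
      by_cases h4 : u = a
      · subst h4
        rw [Qa] at hun
        exact absurd hun (by simp)
      apply hfa u hu _ h4
      rw [hS]
      simp [h1, h2, h3]
  apply h.red_of_crit hPQ
  intro X hX ho h3 hc
  have h1 := red3_nt h hnt hX ho h3 hc
  have h2 : X.card = (X \ S).card + (X ∩ S).card :=
    (Finset.card_sdiff_add_card_inter X S).symm
  have h4 : (X ∩ S).card ≤ 3 := by
    rw [← hcard]
    exact Finset.card_le_card Finset.inter_subset_right
  have h5 : (s + 1) * X.card = s * X.card + X.card := by ring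
  have h6 := Nat.odd_iff.1 ho
  by_cases h7 : X.card = 3
  · omega
  · have h8 : X.card = 5 := by omega
    have h9 : (X ∩ S).card = 3 := by omega
    have h10 : X ∩ S = S :=
      Finset.eq_of_subset_of_card_le Finset.inter_subset_right (by omega)
    have h11 : S ⊆ X := by
      rw [← h10]
      exact Finset.inter_subset_left
    have h12 := red3_pair (stepJ Q) (h11 hpS) (h11 hqS) hpq'
    have h13 : stepJ Q p q = 1 := by
      unfold stepJ
      rw [if_pos Qp]
    have h14 : stepJ Q q p = 1 := by
      unfold stepJ
      rw [if_pos hQq0]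
    omega

theorem VCS.red2 (h : VCS W S m f (s + 1)) (hnt : NTV W S m f (s + 1)) {p q : V}
    (hS : S = {p, q}) (hcard : S.card = 2) (hpq : 1 ≤ m p q) : VRed W S m f s := by
  have hsub := h.sub
  have hpS : p ∈ S := by rw [hS]; simp
  have hqS : q ∈ S := by rw [hS]; simp
  have hpW := hsub hpS
  have hqW := hsub hqS
  have hpq' : p ≠ q := by
    rintro rfl
    have h1 := h.zg.loopless p hpW
    omega
  have hqp : 1 ≤ m q p := by rw [← h.zg.symm p hpW q hqW]; exact hpq
  have hf : ∀ u ∈ W, u ∉ S → 1 ≤ f u := by
    intro u hu huS
    have hdu := h.deg_dS hu huS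
    have e1 : (S ∪ {u}) ∩ S = S := Finset.union_inter_cancel_left
    have e2 : (S ∪ {u}) \ S = {u} := by
      rw [Finset.union_sdiff_left]
      apply Finset.sdiff_eq_self_of_disjoint
      rw [Finset.disjoint_singleton_left]
      exact huS
    have hX : (S ∪ {u}) ⊆ W := by
      intro x hx
      simp only [Finset.mem_union, Finset.mem_singleton] at hx
      rcases hx with hx | rfl
      · exact hsub hx
      · exact hu
    have hc : (S ∪ {u}).card = 3 := by
      rw [← Finset.card_sdiff_add_card_inter (S ∪ {u}) S, e1, e2, hcard, Finset.card_singleton]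
    have h1 := red3_nt h hnt hX (by rw [hc]; decide) (by rw [hc])
      (by rw [e1, e2, hcard, Finset.card_singleton]; omega)
    rw [h.E_eq hX, e1, e2, Finset.sum_singleton, hc] at h1
    have h2 := red3_pair m (X := S) hpS hqS hpq'
    unfold dS at hdu
    omega
  obtain ⟨Q, hQ⟩ : ∃ Q : V → Option V, Q = fun u => if u = p then some q else if u = q then
    some p else none := ⟨_, rfl⟩
  have Qp : Q p = some q := by rw [hQ]; simp
  have hQq0 : Q q = some p := by rw [hQ]; simp [hpq'.symm]
  have Qn : ∀ u, u ≠ p → u ≠ q → Q u = none := by
    intro u h1 h2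
    rw [hQ]
    simp [h1, h2]
  have hPQ : PQ W m f Q := by
    refine { symm := ?_, some := ?_, none := ?_ }
    · intro u _ v _ huv
      by_cases h1 : u = p
      · subst h1
        rw [Qp, Option.some.injEq] at huv
        rw [← huv, hQq0]
      by_cases h2 : u = q
      · subst h2
        rw [hQq0, Option.some.injEq] at huv
        rw [← huv, Qp]
      rw [Qn u h1 h2] at huv
      exact absurd huv (by simp)
    · intro u _ v huv
      by_cases h1 : u = p
      · subst h1
        rw [Qp, Option.some.injEq] at huv
        rw [← huv]
        exact ⟨hqW, hpq⟩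
      by_cases h2 : u = q
      · subst h2
        rw [hQq0, Option.some.injEq] at huv
        rw [← huv]
        exact ⟨hpW, hqp⟩
      rw [Qn u h1 h2] at huv
      exact absurd huv (by simp)
    · intro u hu hun
      by_cases h1 : u = p
      · subst h1
        rw [Qp] at hun
        exact absurd hun (by simp)
      by_cases h2 : u = q
      · subst h2
        rw [hQq0] at hun
        exact absurd hun (by simp)
      apply hf u hu
      rw [hS]
      simp [h1, h2]
  apply h.red_of_crit hPQ
  intro X hX ho h3 hc
  have h1 := red3_nt h hnt hX ho h3 hc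
  have h2 : X.card = (X \ S).card + (X ∩ S).card :=
    (Finset.card_sdiff_add_card_inter X S).symm
  have h4 : (X ∩ S).card ≤ 2 := by
    rw [← hcard]
    exact Finset.card_le_card Finset.inter_subset_right
  have h5 : (s + 1) * X.card = s * X.card + X.card := by ring
  omega

end PStar
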