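import Pool.Agent.PStar.VC.Basic

set_option autoImplicit false

namespace PStar

open Finset

variable {V : Type*} [DecidableEq V] {W S : Finset V} {m : V → V → ℕ} {f : V → ℕ} {r s : ℕ}

private theorem redB_dist {p q k l : V} (h : ({p, q, k, l} : Finset V).card = 4) :
    p ≠ q ∧ p ≠ k ∧ p ≠ l ∧ q ≠ k ∧ q ≠ l ∧ k ≠ l := by
  have key : ∀ a b c : V, ¬ ({p, q, k, l} : Finset V) ⊆ {a, b, c} := by
    intro a b c hs
    have h1 := (card_le_card hs).trans (card_le_three (a := a) (b := b) (c := c))
    omega
  refine ⟨?_, ?_, ?_, ?_, ?_, ?_⟩ <;> intro he <;> subst he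
  · apply key p k l
    intro x hx
    simp only [mem_insert, mem_singleton] at hx ⊢
    tauto
  · apply key p q l
    intro x hx
    simp only [mem_insert, mem_singleton] at hx ⊢
    tauto
  · apply key p q k
    intro x hx
    simp only [mem_insert, mem_singleton] at hx ⊢
    tauto
  · apply key p q l
    intro x hx
    simp only [mem_insert, mem_singleton] at hx ⊢
    tauto
  · apply key p q k
    intro x hx
    simp only [mem_insert, mem_singleton] at hx ⊢
    tauto
  · apply key p q k
    intro x hx
    simp only [mem_insert, mem_singleton] at hx ⊢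
    tauto

private theorem redB_EJ {Q : V → Option V} {T X : Finset V} (hT : T ⊆ X)
    (h : ∀ x ∈ T, ∃ y ∈ X, Q x = some y) : T.card ≤ E (stepJ Q) X X := by
  unfold E
  have h1 : T.card ≤ ∑ x ∈ T, ∑ y ∈ X, stepJ Q x y := by
    rw [card_eq_sum_ones]
    apply sum_le_sum
    intro x hx
    obtain ⟨y, hy, hQ⟩ := h x hx
    have h2 := single_le_sum (f := fun y => stepJ Q x y) (fun _ _ => Nat.zero_le _) hy
    simp only [stepJ, hQ, if_true] at h2
    simpa only [stepJ, hQ] using h2
  exact h1.trans (sum_le_sum_of_subset_of_nonneg hT (fun _ _ _ => Nat.zero_le _))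

private theorem redB_card {p q k l : V} (hd : p ≠ q ∧ p ≠ k ∧ p ≠ l ∧ q ≠ k ∧ q ≠ l ∧ k ≠ l)
    (X : Finset V) : (X ∩ {p, q, k, l}).card = (if p ∈ X then 1 else 0) +
      (if q ∈ X then 1 else 0) + (if k ∈ X then 1 else 0) + (if l ∈ X then 1 else 0) := by
  obtain ⟨h1, h2, h3, h4, h5, h6⟩ := hd
  have e : X ∩ {p, q, k, l} = ({p, q, k, l} : Finset V).filter (fun x => x ∈ X) := by
    ext x
    simp only [mem_inter, mem_filter]
    tauto
  rw [e, card_filter, sum_insert (by simp [h1, h2, h3]), sum_insert (by simp [h4, h5]),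
    sum_insert (by simp [h6]), sum_singleton]
  ring

theorem VCS.redB (h : VCS W S m f (s + 1)) (hnt : NTV W S m f (s + 1)) {p q k l : V}
    (hS : S = {p, q, k, l}) (hcard : S.card = 4) (hpq : 1 ≤ m p q) (hkl : 1 ≤ m k l)
    (hl : ∀ u ∈ W, u ∉ S → 1 ≤ f u) : VRed W S m f s := by
  have hd := redB_dist (hS ▸ hcard)
  obtain ⟨npq, npk, npl, nqk, nql, nkl⟩ := id hd
  have hpS : p ∈ S := by rw [hS]; simp
  have hqS : q ∈ S := by rw [hS]; simp
  have hkS : k ∈ S := by rw [hS]; simp
  have hlS : l ∈ S := by rw [hS]; simp
  have hpW := h.sub hpS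
  have hqW := h.sub hqS
  have hkW := h.sub hkS
  have hlW := h.sub hlS
  set Q : V → Option V := fun u => if u = p then some q else if u = q then some p else
    if u = k then some l else if u = l then some k else none with hQ
  have Qp : Q p = some q := by simp [hQ]
  have hQq0 : Q q = some p := by simp [hQ, npq.symm]
  have Qk : Q k = some l := by simp [hQ, npk.symm, nqk.symm]
  have Ql : Q l = some k := by simp [hQ, npl.symm, nql.symm, nkl.symm]
  have Qn : ∀ u, u ≠ p → u ≠ q → u ≠ k → u ≠ l → Q u = none := by
    intro u h1 h2 h3 h4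
    simp [hQ, h1, h2, h3, h4]
  have hPQ : PQ W m f Q := by
    constructor
    · intro u _ v _ huv
      by_cases h1 : u = p
      · subst h1; rw [Qp] at huv; rw [← Option.some.inj huv]; exact hQq0
      by_cases h2 : u = q
      · subst h2; rw [hQq0] at huv; rw [← Option.some.inj huv]; exact Qp
      by_cases h3 : u = k
      · subst h3; rw [Qk] at huv; rw [← Option.some.inj huv]; exact Ql
      by_cases h4 : u = l
      · subst h4; rw [Ql] at huv; rw [← Option.some.inj huv]; exact Qk
      rw [Qn u h1 h2 h3 h4] at huv
      exact absurd huv (by simp)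
    · intro u _ v huv
      by_cases h1 : u = p
      · subst h1; rw [Qp] at huv; rw [← Option.some.inj huv]; exact ⟨hqW, hpq⟩
      by_cases h2 : u = q
      · subst h2; rw [hQq0] at huv; rw [← Option.some.inj huv]
        exact ⟨hpW, by rw [h.zg.symm _ hqW _ hpW]; exact hpq⟩
      by_cases h3 : u = k
      · subst h3; rw [Qk] at huv; rw [← Option.some.inj huv]; exact ⟨hlW, hkl⟩
      by_cases h4 : u = l
      · subst h4; rw [Ql] at huv; rw [← Option.some.inj huv]
        exact ⟨hkW, by rw [h.zg.symm _ hlW _ hkW]; exact hkl⟩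
      rw [Qn u h1 h2 h3 h4] at huv
      exact absurd huv (by simp)
    · intro u hu hun
      by_cases h1 : u = p
      · subst h1; rw [Qp] at hun; exact absurd hun (by simp)
      by_cases h2 : u = q
      · subst h2; rw [hQq0] at hun; exact absurd hun (by simp)
      by_cases h3 : u = k
      · subst h3; rw [Qk] at hun; exact absurd hun (by simp)
      by_cases h4 : u = l
      · subst h4; rw [Ql] at hun; exact absurd hun (by simp)
      apply hl u hu
      rw [hS]
      simp [h1, h2, h3, h4]
  apply h.red_of_crit hPQ
  intro X hXW hodd h3 hlt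
  have hc1 := hnt X hXW hodd h3 hlt
  have hc2 := h.zg.cut_add_E hXW
  have hsplit : (X \ S).card + (X ∩ S).card = X.card := card_sdiff_add_card_inter X S
  have hcX := redB_card hd X
  rw [← hS] at hcX
  have hle4 : (X ∩ S).card ≤ 4 := by
    rw [← hcard]
    exact card_le_card inter_subset_right
  have e0 : (s + 1) * X.card = s * X.card + X.card := by ring
  rw [e0] at hc2
  suffices hJ : X.card ≤ 3 + E (stepJ Q) X X by omega
  have hodd' := Nat.odd_iff.mp hodd
  have hcase : X.card = 3 ∨ X.card = 5 ∨ X.card = 7 := by omega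
  -- number of matching edges inside
  have hpqX : p ∈ X → q ∈ X → 2 ≤ E (stepJ Q) X X := by
    intro h1 h2
    have := redB_EJ (Q := Q) (T := {p, q}) (X := X)
      (by intro x hx; simp only [mem_insert, mem_singleton] at hx; rcases hx with rfl | rfl <;> assumption)
      (by
        intro x hx
        simp only [mem_insert, mem_singleton] at hx
        rcases hx with rfl | rfl
        · exact ⟨q, h2, Qp⟩
        · exact ⟨p, h1, hQq0⟩)
    rwa [card_pair npq] at this
  have hklX : k ∈ X → l ∈ X → 2 ≤ E (stepJ Q) X X := by
    intro h1 h2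
    have := redB_EJ (Q := Q) (T := {k, l}) (X := X)
      (by intro x hx; simp only [mem_insert, mem_singleton] at hx; rcases hx with rfl | rfl <;> assumption)
      (by
        intro x hx
        simp only [mem_insert, mem_singleton] at hx
        rcases hx with rfl | rfl
        · exact ⟨l, h2, Qk⟩
        · exact ⟨k, h1, Ql⟩)
    rwa [card_pair nkl] at this
  rcases hcase with h5 | h5 | h5
  · omega
  · have hS3 : 3 ≤ (X ∩ S).card := by omega
    by_cases h1 : p ∈ X
    · by_cases h2 : q ∈ X
      · have := hpqX h1 h2
        omega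
      · have hk' : k ∈ X := by
          by_contra hk
          rw [hcX, if_neg h2, if_neg hk] at hS3
          split_ifs at hS3 <;> omega
        have hl' : l ∈ X := by
          by_contra hk
          rw [hcX, if_neg h2, if_neg hk] at hS3
          split_ifs at hS3 <;> omega
        have := hklX hk' hl'
        omega
    · have hk' : k ∈ X := by
        by_contra hk
        rw [hcX, if_neg h1, if_neg hk] at hS3
        split_ifs at hS3 <;> omega
      have hl' : l ∈ X := by
        by_contra hk
        rw [hcX, if_neg h1, if_neg hk] at hS3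
        split_ifs at hS3 <;> omega
      have := hklX hk' hl'
      omega
  · have hS4 : (X ∩ S).card = 4 := by omega
    have hsub : S ⊆ X := by
      have h6 : X ∩ S = S := eq_of_subset_of_card_le inter_subset_right (by omega)
      intro x hx
      rw [← h6] at hx
      exact (mem_inter.mp hx).1
    have := redB_EJ (Q := Q) (T := S) (X := X) hsub
      (by
        intro x hx
        rw [hS] at hx
        simp only [mem_insert, mem_singleton] at hx
        rcases hx with rfl | rfl | rfl | rfl
        · exact ⟨q, hsub hqS, Qp⟩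
        · exact ⟨p, hsub hpS, hQq0⟩
        · exact ⟨l, hsub hlS, Qk⟩
        · exact ⟨k, hsub hkS, Ql⟩)
    omega

end PStar
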