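import Pool.Agent.PStar.VC.Defs

set_option autoImplicit false

namespace PStar

open Finset

variable {V : Type*} [DecidableEq V] {I : Finset V} {x1 x2 x3 x4 : V → ℕ}
  {m12 m13 m14 m23 m24 m34 r : ℕ}

/-- symmetry exchanging the vertices 1 and 2 -/
theorem N4.swap (h : N4 I x1 x2 x3 x4 m12 m13 m14 m23 m24 m34 r) :
    N4 I x2 x1 x3 x4 m12 m23 m24 m13 m14 m34 r := by
  obtain ⟨h1, h2, h3, h4, h5, h6, h7, h8, h9, h10, h11, h12, h13, h14, h15, h16, h17⟩ := h
  refine ⟨h1, h3, h2, by omega, by omega, ?_, ?_, ?_, h9, by omega, by omega, ?_, ?_, ?_, ?_, ?_,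
    ?_⟩
  · intro u hu; have := h6 u hu; omega
  · intro u hu; have := h7 u hu; omega
  · intro u hu; have := h8 u hu; omega
  · intro u hu; have := h12 u hu; omega
  · intro u hu v hv huv; have := h13 u hu v hv huv; omega
  · intro u hu v hv huv; have := h14 u hu v hv huv; omega
  · intro u hu v hv huv; have := h16 u hu v hv huv; omega
  · intro u hu v hv huv; have := h15 u hu v hv huv; omega
  · intro u hu v hv w hw h1 h2 h3; have := h17 u hu v hv w hw h1 h2 h3; omega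

theorem GoodPair.swap {a b : V} (h : GoodPair I x1 x2 x3 x4 m12 m13 m14 m23 m24 m34 r a b) :
    GoodPair I x2 x1 x3 x4 m12 m23 m24 m13 m14 m34 r a b := by
  obtain ⟨h1, h2, h3, h4, h5, h6, h7, h8, h9⟩ := h
  refine ⟨h1, h2, h3, h4, h5, ?_, ?_, ?_, ?_⟩
  · intro u hu ha hb; have := h6 u hu ha hb; omega
  · intro u hu v hv k1 k2 k3 k4 k5; have := h8 u hu v hv k1 k2 k3 k4 k5; omega
  · intro u hu v hv k1 k2 k3 k4 k5; have := h7 u hu v hv k1 k2 k3 k4 k5; omega
  · intro u hu v hv w hw k1 k2 k3 k4 k5 k6 k7 k8 k9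
    have := h9 u hu v hv w hw k1 k2 k3 k4 k5 k6 k7 k8 k9; omega

end PStar
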