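import Pool.Agent.PStar.VC.Defs
import Pool.Agent.PStar.VC.Swap

set_option autoImplicit false

namespace PStar

open Finset

variable {V : Type*} [DecidableEq V] {I : Finset V} {x1 x2 x3 x4 : V → ℕ}
  {m12 m13 m14 m23 m24 m34 r : ℕ}

private theorem sel0_sum2 (g : V → ℕ) {u v : V} (hu : u ∈ I) (hv : v ∈ I) (h1 : u ≠ v) :
    g u + g v ≤ ∑ x ∈ I, g x := by
  have hsub : ({u, v} : Finset V) ⊆ I := by
    intro x hx
    simp only [mem_insert, mem_singleton] at hx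
    rcases hx with rfl | rfl <;> assumption
  have := Finset.sum_le_sum_of_subset (f := g) hsub
  rwa [Finset.sum_pair h1] at this

private theorem sel0_sum3 (g : V → ℕ) {u v w : V} (hu : u ∈ I) (hv : v ∈ I) (hw : w ∈ I)
    (h1 : u ≠ v) (h2 : u ≠ w) (h3 : v ≠ w) :
    g u + g v + g w ≤ ∑ x ∈ I, g x := by
  have hsub : ({u, v, w} : Finset V) ⊆ I := by
    intro x hx
    simp only [mem_insert, mem_singleton] at hx
    rcases hx with rfl | rfl | rfl <;> assumption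
  have := Finset.sum_le_sum_of_subset (f := g) hsub
  rw [Finset.sum_insert (by simp [h1, h2]), Finset.sum_pair h3] at this
  omega

private theorem sel0_sum4 (g : V → ℕ) {u v w t : V} (hu : u ∈ I) (hv : v ∈ I) (hw : w ∈ I)
    (ht : t ∈ I) (h1 : u ≠ v) (h2 : u ≠ w) (h3 : u ≠ t) (h4 : v ≠ w) (h5 : v ≠ t) (h6 : w ≠ t) :
    g u + g v + g w + g t ≤ ∑ x ∈ I, g x := by
  have hsub : ({u, v, w, t} : Finset V) ⊆ I := by
    intro x hx
    simp only [mem_insert, mem_singleton] at hx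
    rcases hx with rfl | rfl | rfl | rfl <;> assumption
  have := Finset.sum_le_sum_of_subset (f := g) hsub
  rw [Finset.sum_insert (by simp [h1, h2, h3]), Finset.sum_insert (by simp [h4, h5]),
    Finset.sum_pair h6] at this
  omega

private theorem sel0_sum5 (g : V → ℕ) {u v w t y : V} (hu : u ∈ I) (hv : v ∈ I) (hw : w ∈ I)
    (ht : t ∈ I) (hy : y ∈ I) (h1 : u ≠ v) (h2 : u ≠ w) (h3 : u ≠ t) (h4 : v ≠ w) (h5 : v ≠ t)
    (h6 : w ≠ t) (h7 : u ≠ y) (h8 : v ≠ y) (h9 : w ≠ y) (h10 : t ≠ y) :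
    g u + g v + g w + g t + g y ≤ ∑ x ∈ I, g x := by
  have hsub : ({u, v, w, t, y} : Finset V) ⊆ I := by
    intro x hx
    simp only [mem_insert, mem_singleton] at hx
    rcases hx with rfl | rfl | rfl | rfl | rfl <;> assumption
  have := Finset.sum_le_sum_of_subset (f := g) hsub
  rw [Finset.sum_insert (by simp [h1, h2, h3, h7]), Finset.sum_insert (by simp [h4, h5, h8]),
    Finset.sum_insert (by simp [h6, h9]), Finset.sum_pair h10] at this
  omega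

private theorem sel0_fifth (h5 : 5 ≤ I.card) (p q s t : V) :
    ∃ y ∈ I, y ≠ p ∧ y ≠ q ∧ y ≠ s ∧ y ≠ t := by
  have hc : ({p, q, s, t} : Finset V).card < I.card := by
    have := Finset.card_le_four (a := p) (b := q) (c := s) (d := t)
    omega
  obtain ⟨y, hy, hn⟩ := Finset.exists_mem_notMem_of_card_lt_card hc
  simp only [mem_insert, mem_singleton, not_or] at hn
  exact ⟨y, hy, hn.1, hn.2.1, hn.2.2.1, hn.2.2.2⟩

private theorem sel0_g1 (h : N4 I x1 x2 x3 x4 m12 m13 m14 m23 m24 m34 r) (h34 : m34 = 0) :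
    ∑ u ∈ I, (x1 u + x3 u + x4 u) + 2 * (m13 + m14) + (m12 + m23 + m24) = 3 * r := by
  rw [Finset.sum_add_distrib, Finset.sum_add_distrib]
  have h1 := h.d1
  have h3 := h.d3
  have h4 := h.d4
  omega

private theorem sel0_d (h : N4 I x1 x2 x3 x4 m12 m13 m14 m23 m24 m34 r) :
    ∑ u ∈ I, (x1 u + x2 u + x3 u + x4 u) + 2 * (m12 + m13 + m14 + m23 + m24 + m34) = 4 * r := by
  rw [Finset.sum_add_distrib, Finset.sum_add_distrib, Finset.sum_add_distrib]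
  have h1 := h.d1
  have h2 := h.d2
  have h3 := h.d3
  have h4 := h.d4
  omega

private theorem sel0_r (h : N4 I x1 x2 x3 x4 m12 m13 m14 m23 m24 m34 r)
    (hl : ∀ u ∈ I, x1 u + x2 u + x3 u + x4 u + 1 ≤ r) : 2 ≤ r := by
  have h5 := h.card
  have hne : I.Nonempty := by
    rw [← Finset.card_pos]; omega
  obtain ⟨u, hu⟩ := hne
  have := h.pos u hu
  have := hl u hu
  omega

/-- choice of the pair, given a vertex `c` of the set `Z` with `x3 c + x4 c ≥ 1` -/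
private theorem sel0_choose (h : N4 I x1 x2 x3 x4 m12 m13 m14 m23 m24 m34 r) (h12 : 1 ≤ m12)
    (h34 : m34 = 0) (c : V) (hc : c ∈ I) (hx : 1 ≤ x3 c + x4 c) :
    ∃ a b, a ∈ I ∧ b ∈ I ∧ a ≠ b ∧ 1 ≤ x3 a ∧ 1 ≤ x4 b ∧ (a = c ∨ b = c) := by
  have e3 := h.d3
  have e4 := h.d4
  have hq := h.q c hc
  have h123 := h.c123
  have h124 := h.c124
  by_cases k3 : ∃ a ∈ I, a ≠ c ∧ 1 ≤ x3 a
  · by_cases k4 : ∃ b ∈ I, b ≠ c ∧ 1 ≤ x4 b
    · by_cases k : 1 ≤ x3 c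
      · obtain ⟨b, hb, hbc, hb1⟩ := k4
        exact ⟨c, b, hc, hb, fun e => hbc e.symm, k, hb1, Or.inl rfl⟩
      · obtain ⟨a, ha, hac, ha1⟩ := k3
        exact ⟨a, c, ha, hc, hac, ha1, by omega, Or.inr rfl⟩
    · have hs : ∑ u ∈ I, x4 u = x4 c := by
        apply Finset.sum_eq_single_of_mem c hc
        intro b hb hbc
        by_contra hcon
        exact k4 ⟨b, hb, hbc, by omega⟩
      obtain ⟨a, ha, hac, ha1⟩ := k3
      exact ⟨a, c, ha, hc, hac, ha1, by omega, Or.inr rfl⟩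
  · have hs3 : ∑ u ∈ I, x3 u = x3 c := by
      apply Finset.sum_eq_single_of_mem c hc
      intro b hb hbc
      by_contra hcon
      exact k3 ⟨b, hb, hbc, by omega⟩
    by_cases k4 : ∃ b ∈ I, b ≠ c ∧ 1 ≤ x4 b
    · obtain ⟨b, hb, hbc, hb1⟩ := k4
      exact ⟨c, b, hc, hb, fun e => hbc e.symm, by omega, hb1, Or.inl rfl⟩
    · have hs4 : ∑ u ∈ I, x4 u = x4 c := by
        apply Finset.sum_eq_single_of_mem c hc
        intro b hb hbc
        by_contra hcon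
        exact k4 ⟨b, hb, hbc, by omega⟩
      exfalso
      omega

section crit

variable (h : N4 I x1 x2 x3 x4 m12 m13 m14 m23 m24 m34 r) (h12 : 1 ≤ m12)
  (h34 : m34 = 0) (hl : ∀ u ∈ I, x1 u + x2 u + x3 u + x4 u + 1 ≤ r)

include h h12 h34 hl

private theorem sel0_b0 {v w v' w' : V} (hv : v ∈ I) (hw : w ∈ I) (hv' : v' ∈ I) (hw' : w' ∈ I)
    (n1 : v ≠ w) (n2 : v' ≠ w') (n3 : v ≠ v') (n4 : v ≠ w') (n5 : w ≠ v') (n6 : w ≠ w')
    (c1 : 2 * r ≤ (m13 + m14 + m34) + (x1 v + x3 v + x4 v) + (x1 w + x3 w + x4 w) + 1)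
    (c2 : 2 * r ≤ (m13 + m14 + m34) + (x1 v' + x3 v' + x4 v') + (x1 w' + x3 w' + x4 w') + 1) :
    False := by
  have hr := sel0_r h hl
  have hg := sel0_g1 h h34
  have hs := sel0_sum4 (fun u => x1 u + x3 u + x4 u) hv hw hv' hw' n1 n3 n4 n5 n6 n2
  omega

private theorem sel0_b1 {v w w' t : V} (hv : v ∈ I) (hw : w ∈ I) (hw' : w' ∈ I) (ht : t ∈ I)
    (n1 : v ≠ w) (n2 : v ≠ w') (n3 : w ≠ w') (n4 : v ≠ t) (n5 : w ≠ t) (n6 : w' ≠ t)
    (c1 : 2 * r ≤ (m13 + m14 + m34) + (x1 v + x3 v + x4 v) + (x1 w + x3 w + x4 w) + 1)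
    (c2 : 2 * r ≤ (m13 + m14 + m34) + (x1 v + x3 v + x4 v) + (x1 w' + x3 w' + x4 w') + 1)
    (hx : 1 ≤ x3 t + x4 t) :
    False := by
  have hg := sel0_g1 h h34
  have hs := sel0_sum4 (fun u => x1 u + x3 u + x4 u) hv hw hw' ht n1 n2 n4 n3 n5 n6
  have h1 := hl v hv
  omega

private theorem sel0_c0 {v w v' w' : V} (hv : v ∈ I) (hw : w ∈ I) (hv' : v' ∈ I) (hw' : w' ∈ I)
    (n1 : v ≠ w) (n2 : v' ≠ w') (n3 : v ≠ v') (n4 : v ≠ w') (n5 : w ≠ v') (n6 : w ≠ w')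
    (c1 : 2 * r ≤ (m13 + m14 + m34) + (x1 v + x3 v + x4 v) + (x1 w + x3 w + x4 w) + 1)
    (c2 : 2 * r ≤ (m23 + m24 + m34) + (x2 v' + x3 v' + x4 v') + (x2 w' + x3 w' + x4 w') + 1) :
    False := by
  have hr := sel0_r h hl
  have hg := sel0_d h
  have hs := sel0_sum4 (fun u => x1 u + x2 u + x3 u + x4 u) hv hw hv' hw' n1 n3 n4 n5 n6 n2
  have h1 := hl v hv
  have h2 := hl w hw
  omega

private theorem sel0_c1 {v w w' : V} (hv : v ∈ I) (hw : w ∈ I) (hw' : w' ∈ I)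
    (n1 : v ≠ w) (n2 : v ≠ w') (n3 : w ≠ w')
    (c1 : 2 * r ≤ (m13 + m14 + m34) + (x1 v + x3 v + x4 v) + (x1 w + x3 w + x4 w) + 1)
    (c2 : 2 * r ≤ (m23 + m24 + m34) + (x2 v + x3 v + x4 v) + (x2 w' + x3 w' + x4 w') + 1) :
    False := by
  have h1 := h.t34 v hv
  have h2 := h.w v hv w hw w' hw' n1 n2 n3
  omega

private theorem sel0_d0 {v w x y z : V} (hv : v ∈ I) (hw : w ∈ I) (hx : x ∈ I) (hy : y ∈ I)
    (hz : z ∈ I) (n1 : v ≠ w) (n2 : x ≠ y) (n3 : x ≠ z) (n4 : y ≠ z)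
    (n5 : v ≠ x) (n6 : v ≠ y) (n7 : v ≠ z) (n8 : w ≠ x) (n9 : w ≠ y) (n10 : w ≠ z)
    (c1 : 2 * r ≤ (m13 + m14 + m34) + (x1 v + x3 v + x4 v) + (x1 w + x3 w + x4 w) + 1)
    (c2 : 3 * r ≤ (m12 + m13 + m14 + m23 + m24 + m34) + (x1 x + x2 x + x3 x + x4 x) +
      (x1 y + x2 y + x3 y + x4 y) + (x1 z + x2 z + x3 z + x4 z) + 1) :
    False := by
  have hr := sel0_r h hl
  have hg := sel0_d h
  have hs := sel0_sum5 (fun u => x1 u + x2 u + x3 u + x4 u) hv hw hx hy hz n1 n5 n6 n8 n9 n2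
    n7 n10 n3 n4
  omega

private theorem sel0_d1 {v w y z : V} (hv : v ∈ I) (hw : w ∈ I) (hy : y ∈ I)
    (hz : z ∈ I) (n1 : v ≠ w) (n4 : y ≠ z)
    (n6 : v ≠ y) (n7 : v ≠ z) (n9 : w ≠ y) (n10 : w ≠ z)
    (c1 : 2 * r ≤ (m13 + m14 + m34) + (x1 v + x3 v + x4 v) + (x1 w + x3 w + x4 w) + 1)
    (c2 : 3 * r ≤ (m12 + m13 + m14 + m23 + m24 + m34) + (x1 v + x2 v + x3 v + x4 v) +
      (x1 y + x2 y + x3 y + x4 y) + (x1 z + x2 z + x3 z + x4 z) + 1) :
    False := by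
  obtain ⟨t, ht, t1, t2, t3, t4⟩ := sel0_fifth h.card v w y z
  have hg := sel0_d h
  have hs := sel0_sum5 (fun u => x1 u + x2 u + x3 u + x4 u) hv hw hy hz ht n1 n6 n7 n9 n10 n4
    t1.symm t2.symm t3.symm t4.symm
  have h1 := hl v hv
  have h2 := h.pos t ht
  omega

private theorem sel0_e1 {x y z v w t : V} (hx : x ∈ I) (hy : y ∈ I) (hz : z ∈ I) (hv : v ∈ I)
    (hw : w ∈ I) (ht : t ∈ I) (n1 : x ≠ y) (n2 : x ≠ z) (n3 : y ≠ z) (n4 : v ≠ w)
    (n5 : v ≠ x) (n6 : v ≠ y) (n7 : v ≠ z) (n8 : w ≠ x) (n9 : w ≠ y) (n10 : w ≠ z)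
    (c1 : 3 * r ≤ (m12 + m13 + m14 + m23 + m24 + m34) + (x1 x + x2 x + x3 x + x4 x) +
      (x1 y + x2 y + x3 y + x4 y) + (x1 z + x2 z + x3 z + x4 z) + 1)
    (c2 : 3 * r ≤ (m12 + m13 + m14 + m23 + m24 + m34) + (x1 v + x2 v + x3 v + x4 v) +
      (x1 w + x2 w + x3 w + x4 w) + (x1 t + x2 t + x3 t + x4 t) + 1) :
    False := by
  have hr := sel0_r h hl
  have hg := sel0_d h
  have hs := sel0_sum5 (fun u => x1 u + x2 u + x3 u + x4 u) hv hw hx hy hz n4 n5 n6 n8 n9 n1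
    n7 n10 n2 n3
  have h1 := hl t ht
  omega

private theorem sel0_e2 {u v w w' : V} (hu : u ∈ I) (hv : v ∈ I) (hw : w ∈ I) (hw' : w' ∈ I)
    (n1 : u ≠ v) (n2 : u ≠ w) (n3 : v ≠ w) (n4 : u ≠ w') (n5 : v ≠ w') (n6 : w ≠ w')
    (c1 : 3 * r ≤ (m12 + m13 + m14 + m23 + m24 + m34) + (x1 u + x2 u + x3 u + x4 u) +
      (x1 v + x2 v + x3 v + x4 v) + (x1 w + x2 w + x3 w + x4 w) + 1)
    (c2 : 3 * r ≤ (m12 + m13 + m14 + m23 + m24 + m34) + (x1 u + x2 u + x3 u + x4 u) +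
      (x1 v + x2 v + x3 v + x4 v) + (x1 w' + x2 w' + x3 w' + x4 w') + 1) :
    False := by
  obtain ⟨t, ht, t1, t2, t3, t4⟩ := sel0_fifth h.card u v w w'
  have hg := sel0_d h
  have hs := sel0_sum5 (fun u => x1 u + x2 u + x3 u + x4 u) hu hv hw hw' ht n1 n2 n4 n3 n5 n6
    t1.symm t2.symm t3.symm t4.symm
  have h1 := hl u hu
  have h2 := hl v hv
  have h3 := h.pos t ht
  omega

/-- two critical pairs of type 134: `c` in the first, not in the second, and another `t` with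
`x3 t + x4 t ≥ 1` not in the second -/
private theorem sel0_bb {v w y z t : V} (hv : v ∈ I) (hw : w ∈ I) (hy : y ∈ I) (hz : z ∈ I)
    (ht : t ∈ I) (n1 : v ≠ w) (n2 : y ≠ z) (n3 : v ≠ y) (n4 : v ≠ z) (n5 : t ≠ v) (n6 : t ≠ y)
    (n7 : t ≠ z)
    (c1 : 2 * r ≤ (m13 + m14 + m34) + (x1 v + x3 v + x4 v) + (x1 w + x3 w + x4 w) + 1)
    (c2 : 2 * r ≤ (m13 + m14 + m34) + (x1 y + x3 y + x4 y) + (x1 z + x3 z + x4 z) + 1)
    (hx : 1 ≤ x3 t + x4 t) : False := by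
  by_cases k1 : w = y
  · subst k1
    exact sel0_b1 h h12 h34 hl hw hv hz ht n1.symm n2 n4 n6.symm n5.symm n7.symm (by omega)
      (by omega) hx
  · by_cases k2 : w = z
    · subst k2
      exact sel0_b1 h h12 h34 hl hw hv hy ht n1.symm n2.symm n3 n7.symm n5.symm n6.symm (by omega)
        (by omega) hx
    · exact sel0_b0 h h12 h34 hl hv hw hy hz n1 n2 n3 n4 k1 k2 c1 c2

/-- pairs of types 134 and 234: `v` in the first not in the second -/
private theorem sel0_cc {v w y z : V} (hv : v ∈ I) (hw : w ∈ I) (hy : y ∈ I) (hz : z ∈ I)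
    (n1 : v ≠ w) (n2 : y ≠ z) (n3 : v ≠ y) (n4 : v ≠ z)
    (c1 : 2 * r ≤ (m13 + m14 + m34) + (x1 v + x3 v + x4 v) + (x1 w + x3 w + x4 w) + 1)
    (c2 : 2 * r ≤ (m23 + m24 + m34) + (x2 y + x3 y + x4 y) + (x2 z + x3 z + x4 z) + 1) :
    False := by
  by_cases k1 : w = y
  · subst k1
    exact sel0_c1 h h12 h34 hl hw hv hz n1.symm n2 n4 (by omega) (by omega)
  · by_cases k2 : w = z
    · subst k2
      exact sel0_c1 h h12 h34 hl hw hv hy n1.symm n2.symm n3 (by omega) (by omega)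
    · exact sel0_c0 h h12 h34 hl hv hw hy hz n1 n2 n3 n4 k1 k2 c1 c2

/-- pair of type 134 and critical triple: `v` in the first not in the second -/
private theorem sel0_dd {v w x y z : V} (hv : v ∈ I) (hw : w ∈ I) (hx : x ∈ I) (hy : y ∈ I)
    (hz : z ∈ I) (n1 : v ≠ w) (n2 : x ≠ y) (n3 : x ≠ z) (n4 : y ≠ z)
    (n5 : v ≠ x) (n6 : v ≠ y) (n7 : v ≠ z)
    (c1 : 2 * r ≤ (m13 + m14 + m34) + (x1 v + x3 v + x4 v) + (x1 w + x3 w + x4 w) + 1)
    (c2 : 3 * r ≤ (m12 + m13 + m14 + m23 + m24 + m34) + (x1 x + x2 x + x3 x + x4 x) +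
      (x1 y + x2 y + x3 y + x4 y) + (x1 z + x2 z + x3 z + x4 z) + 1) :
    False := by
  by_cases k1 : w = x
  · subst k1
    exact sel0_d1 h h12 h34 hl hw hv hy hz n1.symm n4 n2 n3 n6 n7 (by omega) (by omega)
  · by_cases k2 : w = y
    · subst k2
      exact sel0_d1 h h12 h34 hl hw hv hx hz n1.symm n3 n2.symm n4 n5 n7 (by omega) (by omega)
    · by_cases k3 : w = z
      · subst k3
        exact sel0_d1 h h12 h34 hl hw hv hx hy n1.symm n2 n3.symm n4.symm n5 n6 (by omega)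
          (by omega)
      · exact sel0_d0 h h12 h34 hl hv hw hx hy hz n1 n2 n3 n4 n5 n6 n7 k1 k2 k3 c1 c2

/-- two critical triples -/
private theorem sel0_ee {u v w x y z : V} (hu : u ∈ I) (hv : v ∈ I) (hw : w ∈ I) (hx : x ∈ I)
    (hy : y ∈ I) (hz : z ∈ I) (k1 : u ≠ v) (k2 : u ≠ w) (k3 : v ≠ w) (n2 : x ≠ y) (n3 : x ≠ z)
    (n4 : y ≠ z) (n5 : u ≠ x) (n6 : u ≠ y) (n7 : u ≠ z)
    (c1 : 3 * r ≤ (m12 + m13 + m14 + m23 + m24 + m34) + (x1 u + x2 u + x3 u + x4 u) +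
      (x1 v + x2 v + x3 v + x4 v) + (x1 w + x2 w + x3 w + x4 w) + 1)
    (c2 : 3 * r ≤ (m12 + m13 + m14 + m23 + m24 + m34) + (x1 x + x2 x + x3 x + x4 x) +
      (x1 y + x2 y + x3 y + x4 y) + (x1 z + x2 z + x3 z + x4 z) + 1) :
    False := by
  by_cases a1 : v = x
  · subst a1
    by_cases b1 : w = y
    · subst b1
      exact sel0_e2 h h12 h34 hl hv hw hu hz k3 k1.symm k2.symm n3 n4 n7 (by omega) (by omega)
    · by_cases b2 : w = z
      · subst b2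
        exact sel0_e2 h h12 h34 hl hv hw hu hy k3 k1.symm k2.symm n2 n4.symm n6 (by omega)
          (by omega)
      · exact sel0_e1 h h12 h34 hl hv hy hz hu hw hv n2 n3 n4 k2 k1 n6 n7 k3.symm b1 b2
          c2 (by omega)
  · by_cases a2 : v = y
    · subst a2
      by_cases b1 : w = x
      · subst b1
        exact sel0_e2 h h12 h34 hl hv hw hu hz k3 k1.symm k2.symm n4 n3 n7 (by omega) (by omega)
      · by_cases b2 : w = z
        · subst b2
          exact sel0_e2 h h12 h34 hl hv hw hu hx k3 k1.symm k2.symm n2.symm n3.symm n5 (by omega)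
            (by omega)
        · exact sel0_e1 h h12 h34 hl hx hv hz hu hw hv n2 n3 n4 k2 n5 n6 n7 b1 k3.symm b2
            c2 (by omega)
    · by_cases a3 : v = z
      · subst a3
        by_cases b1 : w = x
        · subst b1
          exact sel0_e2 h h12 h34 hl hv hw hu hy k3 k1.symm k2.symm n4.symm n2 n6 (by omega)
            (by omega)
        · by_cases b2 : w = y
          · subst b2
            exact sel0_e2 h h12 h34 hl hv hw hu hx k3 k1.symm k2.symm n3.symm n2.symm n5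
              (by omega) (by omega)
          · exact sel0_e1 h h12 h34 hl hx hy hv hu hw hv n2 n3 n4 k2 n5 n6 n7 b1 b2 k3.symm
              c2 (by omega)
      · exact sel0_e1 h h12 h34 hl hx hy hz hu hv hw n2 n3 n4 k1 n5 n6 n7 a1 a2 a3 c2 (by omega)

/-- there is a critical pair of type 134 -/
private theorem sel0_caseA {v w : V} (hv : v ∈ I) (hw : w ∈ I) (n1 : v ≠ w)
    (c1 : 2 * r ≤ (m13 + m14 + m34) + (x1 v + x3 v + x4 v) + (x1 w + x3 w + x4 w) + 1) :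
    ∃ a b, GoodPair I x1 x2 x3 x4 m12 m13 m14 m23 m24 m34 r a b := by
  -- a vertex of the pair with `x3 + x4 ≥ 1`
  have key : ∃ c d, c ∈ I ∧ d ∈ I ∧ c ≠ d ∧ 1 ≤ x3 c + x4 c ∧
      2 * r ≤ (m13 + m14 + m34) + (x1 c + x3 c + x4 c) + (x1 d + x3 d + x4 d) + 1 := by
    by_cases k : 1 ≤ x3 v + x4 v
    · exact ⟨v, w, hv, hw, n1, k, c1⟩
    · refine ⟨w, v, hw, hv, n1.symm, ?_, by omega⟩
      have hs := sel0_sum2 x1 hv hw n1
      have e1 := h.d1
      have hr := sel0_r h hl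
      omega
  obtain ⟨c, d, hc, hd, ncd, hx, c0⟩ := key
  obtain ⟨a, b, ha, hb, hab, xa, xb, hor⟩ := sel0_choose h h12 h34 c hc hx
  refine ⟨a, b, ha, hb, hab, xa, xb, fun u hu _ _ => hl u hu, ?_, ?_, ?_⟩
  · intro y hy z hz hyz ya yb za zb
    by_contra hcon
    rcases hor with rfl | rfl
    · exact sel0_bb h h12 h34 hl hc hd hy hz hb ncd hyz ya.symm za.symm hab.symm yb.symm
        zb.symm c0 (by omega) (by omega)
    · exact sel0_bb h h12 h34 hl hc hd hy hz ha ncd hyz yb.symm zb.symm hab ya.symm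
        za.symm c0 (by omega) (by omega)
  · intro y hy z hz hyz ya yb za zb
    by_contra hcon
    rcases hor with rfl | rfl
    · exact sel0_cc h h12 h34 hl hc hd hy hz ncd hyz ya.symm za.symm c0 (by omega)
    · exact sel0_cc h h12 h34 hl hc hd hy hz ncd hyz yb.symm zb.symm c0 (by omega)
  · intro x hx' y hy z hz hxy hxz hyz xa' xb' ya yb za zb
    by_contra hcon
    rcases hor with rfl | rfl
    · exact sel0_dd h h12 h34 hl hc hd hx' hy hz ncd hxy hxz hyz xa'.symm ya.symm za.symm c0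
        (by omega)
    · exact sel0_dd h h12 h34 hl hc hd hx' hy hz ncd hxy hxz hyz xb'.symm yb.symm zb.symm c0
        (by omega)

end crit

/-- no saturated leaf and `m34 = 0` -/
theorem N4.sel0 (h : N4 I x1 x2 x3 x4 m12 m13 m14 m23 m24 m34 r) (h12 : 1 ≤ m12)
    (h34 : m34 = 0) (hl : ∀ u ∈ I, x1 u + x2 u + x3 u + x4 u + 1 ≤ r) :
    ∃ a b, GoodPair I x1 x2 x3 x4 m12 m13 m14 m23 m24 m34 r a b := by
  by_cases hA : ∃ v ∈ I, ∃ w ∈ I, v ≠ w ∧
      2 * r ≤ (m13 + m14 + m34) + (x1 v + x3 v + x4 v) + (x1 w + x3 w + x4 w) + 1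
  · obtain ⟨v, hv, w, hw, n1, c1⟩ := hA
    exact sel0_caseA h h12 h34 hl hv hw n1 c1
  by_cases hB : ∃ v ∈ I, ∃ w ∈ I, v ≠ w ∧
      2 * r ≤ (m23 + m24 + m34) + (x2 v + x3 v + x4 v) + (x2 w + x3 w + x4 w) + 1
  · obtain ⟨v, hv, w, hw, n1, c1⟩ := hB
    obtain ⟨a, b, hab⟩ := sel0_caseA h.swap h12 h34
      (fun u hu => by have := hl u hu; omega) hv hw n1 c1
    exact ⟨a, b, hab.swap⟩
  push Not at hA hB
  by_cases hC : ∃ u ∈ I, ∃ v ∈ I, ∃ w ∈ I, u ≠ v ∧ u ≠ w ∧ v ≠ w ∧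
      3 * r ≤ (m12 + m13 + m14 + m23 + m24 + m34) + (x1 u + x2 u + x3 u + x4 u) +
      (x1 v + x2 v + x3 v + x4 v) + (x1 w + x2 w + x3 w + x4 w) + 1
  · obtain ⟨u, hu, v, hv, w, hw, n1, n2, n3, c1⟩ := hC
    have key : ∃ c d e, c ∈ I ∧ d ∈ I ∧ e ∈ I ∧ c ≠ d ∧ c ≠ e ∧ d ≠ e ∧ 1 ≤ x3 c + x4 c ∧
        3 * r ≤ (m12 + m13 + m14 + m23 + m24 + m34) + (x1 c + x2 c + x3 c + x4 c) +
        (x1 d + x2 d + x3 d + x4 d) + (x1 e + x2 e + x3 e + x4 e) + 1 := by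
      by_cases k : 1 ≤ x3 u + x4 u
      · exact ⟨u, v, w, hu, hv, hw, n1, n2, n3, k, c1⟩
      · by_cases k' : 1 ≤ x3 v + x4 v
        · exact ⟨v, u, w, hv, hu, hw, n1.symm, n3, n2, k', by omega⟩
        · refine ⟨w, u, v, hw, hu, hv, n2.symm, n3.symm, n1, ?_, by omega⟩
          have hs1 := sel0_sum3 x1 hu hv hw n1 n2 n3
          have hs2 := sel0_sum3 x2 hu hv hw n1 n2 n3
          have e1 := h.d1
          have e2 := h.d2
          have hr := sel0_r h hl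
          omega
    obtain ⟨c, d, e, hc, hd, he, n1, n2, n3, hx, c0⟩ := key
    obtain ⟨a, b, ha, hb, hab, xa, xb, hor⟩ := sel0_choose h h12 h34 c hc hx
    refine ⟨a, b, ha, hb, hab, xa, xb, fun u hu _ _ => hl u hu, ?_, ?_, ?_⟩
    · intro y hy z hz hyz ya yb za zb
      have := hA y hy z hz hyz
      omega
    · intro y hy z hz hyz ya yb za zb
      have := hB y hy z hz hyz
      omega
    · intro x hx' y hy z hz hxy hxz hyz xa' xb' ya yb za zb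
      by_contra hcon
      rcases hor with rfl | rfl
      · exact sel0_ee h h12 h34 hl hc hd he hx' hy hz n1 n2 n3 hxy hxz hyz xa'.symm ya.symm
          za.symm c0 (by omega)
      · exact sel0_ee h h12 h34 hl hc hd he hx' hy hz n1 n2 n3 hxy hxz hyz xb'.symm yb.symm
          zb.symm c0 (by omega)
  push Not at hC
  -- nothing critical
  have key : ∃ c ∈ I, 1 ≤ x3 c := by
    by_contra hcon
    push Not at hcon
    have hs : ∑ u ∈ I, x3 u = 0 := Finset.sum_eq_zero (fun u hu => by have := hcon u hu; omega)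
    have e3 := h.d3
    have h123 := h.c123
    omega
  obtain ⟨c, hc, hx⟩ := key
  obtain ⟨a, b, ha, hb, hab, xa, xb, -⟩ := sel0_choose h h12 h34 c hc (by omega)
  refine ⟨a, b, ha, hb, hab, xa, xb, fun u hu _ _ => hl u hu, ?_, ?_, ?_⟩
  · intro y hy z hz hyz ya yb za zb
    have := hA y hy z hz hyz
    omega
  · intro y hy z hz hyz ya yb za zb
    have := hB y hy z hz hyz
    omega
  · intro x hx' y hy z hz hxy hxz hyz xa' xb' ya yb za zb
    have := hC x hx' y hy z hz hxy hxz hyz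
    omega

end PStar
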