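import Pool.Agent.PStar.VC.Defs
import Pool.Agent.PStar.VC.Swap

set_option autoImplicit false

namespace PStar

open Finset

variable {V : Type*} [DecidableEq V] {I : Finset V} {x1 x2 x3 x4 : V → ℕ}
  {m12 m13 m14 m23 m24 m34 r : ℕ}

private theorem Sel1_S3 (g : V → ℕ) {u v w : V} (hu : u ∈ I) (hv : v ∈ I) (hw : w ∈ I) (huv : u ≠ v)
    (huw : u ≠ w) (hvw : v ≠ w) : g u + g v + g w ≤ ∑ x ∈ I, g x := by
  have hsub : ({u, v, w} : Finset V) ⊆ I := by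
    intro x hx
    simp only [mem_insert, mem_singleton] at hx
    rcases hx with rfl | rfl | rfl <;> assumption
  have h := sum_le_sum_of_subset (f := g) hsub
  rw [sum_insert (by simp [huv, huw]), sum_insert (by simp [hvw]), sum_singleton] at h
  omega

private theorem Sel1_S4 (g : V → ℕ) {u v w y : V} (hu : u ∈ I) (hv : v ∈ I) (hw : w ∈ I) (hy : y ∈ I)
    (huv : u ≠ v) (huw : u ≠ w) (hvw : v ≠ w) (huy : u ≠ y) (hvy : v ≠ y) (hwy : w ≠ y) :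
    g u + g v + g w + g y ≤ ∑ x ∈ I, g x := by
  have hsub : ({u, v, w, y} : Finset V) ⊆ I := by
    intro x hx
    simp only [mem_insert, mem_singleton] at hx
    rcases hx with rfl | rfl | rfl | rfl <;> assumption
  have h := sum_le_sum_of_subset (f := g) hsub
  rw [sum_insert (by simp [huv, huw, huy]), sum_insert (by simp [hvw, hvy]),
    sum_insert (by simp [hwy]), sum_singleton] at h
  omega

private theorem Sel1_S5 (g : V → ℕ) {u v w y z : V} (hu : u ∈ I) (hv : v ∈ I) (hw : w ∈ I) (hy : y ∈ I)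
    (hz : z ∈ I) (huv : u ≠ v) (huw : u ≠ w) (hvw : v ≠ w) (huy : u ≠ y) (hvy : v ≠ y) (hwy : w ≠ y)
    (huz : u ≠ z) (hvz : v ≠ z) (hwz : w ≠ z) (hyz : y ≠ z) :
    g u + g v + g w + g y + g z ≤ ∑ x ∈ I, g x := by
  have hsub : ({u, v, w, y, z} : Finset V) ⊆ I := by
    intro x hx
    simp only [mem_insert, mem_singleton] at hx
    rcases hx with rfl | rfl | rfl | rfl | rfl <;> assumption
  have h := sum_le_sum_of_subset (f := g) hsub
  rw [sum_insert (by simp [huv, huw, huy, huz]), sum_insert (by simp [hvw, hvy, hvz]),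
    sum_insert (by simp [hwy, hwz]), sum_insert (by simp [hyz]), sum_singleton] at h
  omega

/-- critical pair -/
private def Sel1_C (x1 x2 x3 x4 : V → ℕ) (m13 m14 m23 m24 m34 r : ℕ) (v w : V) : Prop :=
  2 * r ≤ (m13 + m14 + m34) + (x1 v + x3 v + x4 v) + (x1 w + x3 w + x4 w) + 1 ∨
  2 * r ≤ (m23 + m24 + m34) + (x2 v + x3 v + x4 v) + (x2 w + x3 w + x4 w) + 1

omit [DecidableEq V] in
private theorem Sel1_C_symm {v w : V} (h : Sel1_C x1 x2 x3 x4 m13 m14 m23 m24 m34 r v w) :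
    Sel1_C x1 x2 x3 x4 m13 m14 m23 m24 m34 r w v := by
  unfold Sel1_C at *
  omega

omit [DecidableEq V] in
private theorem Sel1_sums (h : N4 I x1 x2 x3 x4 m12 m13 m14 m23 m24 m34 r) :
    (∑ x ∈ I, (x1 x + x3 x + x4 x) + 2 * (m13 + m14 + m34) + (m12 + m23 + m24) = 3 * r) ∧
    (∑ x ∈ I, (x2 x + x3 x + x4 x) + 2 * (m23 + m24 + m34) + (m12 + m13 + m14) = 3 * r) ∧
    (∑ x ∈ I, (x1 x + x2 x + x3 x + x4 x) + 2 * (m12 + m13 + m14 + m23 + m24 + m34) = 4 * r) ∧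
    (∑ x ∈ I, (x1 x + x3 x) + (m12 + m13 + m14) + (m13 + m23 + m34) = 2 * r) ∧
    (∑ x ∈ I, (x1 x + x4 x) + (m12 + m13 + m14) + (m14 + m24 + m34) = 2 * r) := by
  have h1 := h.d1
  have h2 := h.d2
  have h3 := h.d3
  have h4 := h.d4
  simp only [sum_add_distrib]
  refine ⟨?_, ?_, ?_, ?_, ?_⟩ <;> omega

private theorem Sel1_D (h : N4 I x1 x2 x3 x4 m12 m13 m14 m23 m24 m34 r) (h12 : 1 ≤ m12) {u : V}
    (hu : u ∈ I) (hur : x1 u + x2 u + x3 u + x4 u = r) {v w v' w' : V} (hv : v ∈ I) (hw : w ∈ I)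
    (hv' : v' ∈ I) (hw' : w' ∈ I) (huv : u ≠ v) (huw : u ≠ w) (huv' : u ≠ v') (huw' : u ≠ w')
    (hvw : v ≠ w) (hvv' : v ≠ v') (hvw' : v ≠ w') (hwv' : w ≠ v') (hww' : w ≠ w') (hv'w' : v' ≠ w')
    (h1 : Sel1_C x1 x2 x3 x4 m13 m14 m23 m24 m34 r v w)
    (h2 : Sel1_C x1 x2 x3 x4 m13 m14 m23 m24 m34 r v' w') : False := by
  obtain ⟨s1, s2, s3, _, _⟩ := Sel1_sums h
  have t := h.t12 u hu
  have e1 := Sel1_S5 (fun x => x1 x + x3 x + x4 x) hu hv hw hv' hw' huv huw hvw huv' hvv' hwv' huw' hvw' hww' hv'w'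
  have e2 := Sel1_S5 (fun x => x2 x + x3 x + x4 x) hu hv hw hv' hw' huv huw hvw huv' hvv' hwv' huw' hvw' hww' hv'w'
  have e3 := Sel1_S5 (fun x => x1 x + x2 x + x3 x + x4 x) hu hv hw hv' hw' huv huw hvw huv' hvv' hwv' huw' hvw' hww'
    hv'w'
  rcases h1 with h1 | h1 <;> rcases h2 with h2 | h2
  · omega
  · omega
  · omega
  · omega

private theorem Sel1_O (h : N4 I x1 x2 x3 x4 m12 m13 m14 m23 m24 m34 r) (h12 : 1 ≤ m12) {u : V}
    (hu : u ∈ I) (hur : x1 u + x2 u + x3 u + x4 u = r)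
    (hl : ∀ v ∈ I, v ≠ u → x1 v + x2 v + x3 v + x4 v + 1 ≤ r) {v w w' : V} (hv : v ∈ I) (hw : w ∈ I)
    (hw' : w' ∈ I) (huv : u ≠ v) (huw : u ≠ w) (huw' : u ≠ w')
    (hvw : v ≠ w) (hvw' : v ≠ w') (hww' : w ≠ w')
    (h1 : Sel1_C x1 x2 x3 x4 m13 m14 m23 m24 m34 r v w)
    (h2 : Sel1_C x1 x2 x3 x4 m13 m14 m23 m24 m34 r v w') : False := by
  obtain ⟨s1, s2, s3, _, _⟩ := Sel1_sums h
  have t := h.t12 u hu
  have t3 := h.t34 v hv
  have hw3 := h.w v hv w hw w' hw' hvw hvw' hww'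
  have hlv := hl v hv huv.symm
  have e1 := Sel1_S4 (fun x => x1 x + x3 x + x4 x) hu hv hw hw' huv huw hvw huw' hvw' hww'
  have e2 := Sel1_S4 (fun x => x2 x + x3 x + x4 x) hu hv hw hw' huv huw hvw huw' hvw' hww'
  rcases h1 with h1 | h1 <;> rcases h2 with h2 | h2
  · omega
  · omega
  · omega
  · omega

private theorem Sel1_mk (h : N4 I x1 x2 x3 x4 m12 m13 m14 m23 m24 m34 r) (h12 : 1 ≤ m12) {u : V}
    (hu : u ∈ I) (hur : x1 u + x2 u + x3 u + x4 u = r)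
    (hl : ∀ v ∈ I, v ≠ u → x1 v + x2 v + x3 v + x4 v + 1 ≤ r) {a b : V} (ha : a ∈ I) (hb : b ∈ I)
    (hab : a ≠ b) (hxa : 1 ≤ x3 a) (hxb : 1 ≤ x4 b) (huab : u = a ∨ u = b)
    (hC : ∀ v ∈ I, ∀ w ∈ I, v ≠ w → v ≠ a → v ≠ b → w ≠ a → w ≠ b →
      ¬ Sel1_C x1 x2 x3 x4 m13 m14 m23 m24 m34 r v w) :
    GoodPair I x1 x2 x3 x4 m12 m13 m14 m23 m24 m34 r a b := by
  have hne : ∀ v, v ≠ a → v ≠ b → v ≠ u := by
    intro v h1 h2
    rcases huab with rfl | rfl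
    · exact h1
    · exact h2
  refine ⟨ha, hb, hab, hxa, hxb, ?_, ?_, ?_, ?_⟩
  · intro v hv h1 h2
    exact hl v hv (hne v h1 h2)
  · intro v hv w hw hvw h1 h2 h3 h4
    have := hC v hv w hw hvw h1 h2 h3 h4
    unfold Sel1_C at this
    rw [not_or] at this
    omega
  · intro v hv w hw hvw h1 h2 h3 h4
    have := hC v hv w hw hvw h1 h2 h3 h4
    unfold Sel1_C at this
    rw [not_or] at this
    omega
  · intro v hv w hw y hy hvw hvy hwy h1 h2 h3 h4 h5 h6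
    obtain ⟨_, _, s3, _, _⟩ := Sel1_sums h
    have hex : ∃ z ∈ I, z ∉ ({u, v, w, y} : Finset V) := by
      by_contra hcon
      push Not at hcon
      have h7 : I ⊆ ({u, v, w, y} : Finset V) := hcon
      have h8 := card_le_card h7
      have h9 : ({u, v, w, y} : Finset V).card ≤ 4 := card_le_four
      have := h.card
      omega
    obtain ⟨z, hz, hzn⟩ := hex
    simp only [mem_insert, mem_singleton, not_or] at hzn
    obtain ⟨z1, z2, z3, z4⟩ := hzn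
    have e3 := Sel1_S5 (fun x => x1 x + x2 x + x3 x + x4 x) hu hv hw hy hz (hne v h1 h2).symm (hne w h3 h4).symm
      hvw (hne y h5 h6).symm hvy hwy (Ne.symm z1) (Ne.symm z2) (Ne.symm z3) (Ne.symm z4)
    have hp := h.pos z hz
    omega

private theorem Sel1_134 (h : N4 I x1 x2 x3 x4 m12 m13 m14 m23 m24 m34 r) (h12 : 1 ≤ m12) {u : V}
    (hu : u ∈ I) (hur : x1 u + x2 u + x3 u + x4 u = r)
    (hl : ∀ v ∈ I, v ≠ u → x1 v + x2 v + x3 v + x4 v + 1 ≤ r) {v w : V} (hv : v ∈ I) (hw : w ∈ I)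
    (hvw : v ≠ w) (huv : u ≠ v) (huw : u ≠ w)
    (hc : 2 * r ≤ (m13 + m14 + m34) + (x1 v + x3 v + x4 v) + (x1 w + x3 w + x4 w) + 1) :
    ∃ a b, GoodPair I x1 x2 x3 x4 m12 m13 m14 m23 m24 m34 r a b := by
  -- uniqueness
  have huniq : ∀ v' ∈ I, ∀ w' ∈ I, v' ≠ w' → v' ≠ u → w' ≠ u → (v' ≠ v ∧ w' ≠ v) ∨ (v' ≠ w ∧ w' ≠ w) →
      ¬ Sel1_C x1 x2 x3 x4 m13 m14 m23 m24 m34 r v' w' := by
    intro v' hv' w' hw' hn hvu hwu hor hC'
    have hC : Sel1_C x1 x2 x3 x4 m13 m14 m23 m24 m34 r v w := Or.inl hc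
    rcases hor with ⟨k1, k2⟩ | ⟨k1, k2⟩
    · -- v is not in the pair
      by_cases e1 : v' = w
      · subst e1
        exact Sel1_O h h12 hu hur hl hw hv hw' huw huv hwu.symm hvw.symm hn k2.symm (Sel1_C_symm hC) hC'
      · by_cases e2 : w' = w
        · subst e2
          exact Sel1_O h h12 hu hur hl hw hv hv' huw huv hvu.symm hvw.symm hn.symm k1.symm (Sel1_C_symm hC)
            (Sel1_C_symm hC')
        · exact Sel1_D h h12 hu hur hv hw hv' hw' huv huw hvu.symm hwu.symm hvw k1.symm k2.symm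
            (Ne.symm e1) (Ne.symm e2) hn hC hC'
    · by_cases e1 : v' = v
      · subst e1
        exact Sel1_O h h12 hu hur hl hv hw hw' huv huw hwu.symm hvw hn k2.symm hC hC'
      · by_cases e2 : w' = v
        · subst e2
          exact Sel1_O h h12 hu hur hl hv hw hv' huv huw hvu.symm hvw hn.symm k1.symm hC (Sel1_C_symm hC')
        · exact Sel1_D h h12 hu hur hv hw hv' hw' huv huw hvu.symm hwu.symm hvw (Ne.symm e1) (Ne.symm e2)
            k1.symm k2.symm hn hC hC'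
  have t12 := h.t12 u hu
  have t34 := h.t34 u hu
  have k1 := Sel1_S3 x1 hu hv hw huv huw hvw
  have d1 := h.d1
  have hge : 1 ≤ x3 v + x4 v + x3 w + x4 w := by omega
  have hge2 : 2 ≤ x3 u + x4 u := by omega
  by_cases c1 : 1 ≤ x3 u ∧ 1 ≤ x4 v
  · exact ⟨u, v, Sel1_mk h h12 hu hur hl hu hv huv c1.1 c1.2 (Or.inl rfl)
      (fun v' hv' w' hw' hn n1 n2 n3 n4 => huniq v' hv' w' hw' hn n1 n3 (Or.inl ⟨n2, n4⟩))⟩
  by_cases c2 : 1 ≤ x3 u ∧ 1 ≤ x4 w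
  · exact ⟨u, w, Sel1_mk h h12 hu hur hl hu hw huw c2.1 c2.2 (Or.inl rfl)
      (fun v' hv' w' hw' hn n1 n2 n3 n4 => huniq v' hv' w' hw' hn n1 n3 (Or.inr ⟨n2, n4⟩))⟩
  by_cases c3 : 1 ≤ x4 u ∧ 1 ≤ x3 v
  · exact ⟨v, u, Sel1_mk h h12 hu hur hl hv hu huv.symm c3.2 c3.1 (Or.inr rfl)
      (fun v' hv' w' hw' hn n1 n2 n3 n4 => huniq v' hv' w' hw' hn n2 n4 (Or.inl ⟨n1, n3⟩))⟩
  by_cases c4 : 1 ≤ x4 u ∧ 1 ≤ x3 w
  · exact ⟨w, u, Sel1_mk h h12 hu hur hl hw hu huw.symm c4.2 c4.1 (Or.inr rfl)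
      (fun v' hv' w' hw' hn n1 n2 n3 n4 => huniq v' hv' w' hw' hn n2 n4 (Or.inr ⟨n1, n3⟩))⟩
  exfalso
  obtain ⟨_, _, _, s4, s5⟩ := Sel1_sums h
  have k13 := Sel1_S3 (fun x => x1 x + x3 x) hu hv hw huv huw hvw
  have k14 := Sel1_S3 (fun x => x1 x + x4 x) hu hv hw huv huw hvw
  have k2 := single_le_sum (f := x2) (fun _ _ => Nat.zero_le _) hu
  have d2 := h.d2
  omega

/-- exactly one saturated leaf `u` -/
theorem N4.sel1 (h : N4 I x1 x2 x3 x4 m12 m13 m14 m23 m24 m34 r) (h12 : 1 ≤ m12) {u : V}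
    (hu : u ∈ I) (hur : x1 u + x2 u + x3 u + x4 u = r)
    (hl : ∀ v ∈ I, v ≠ u → x1 v + x2 v + x3 v + x4 v + 1 ≤ r) :
    ∃ a b, GoodPair I x1 x2 x3 x4 m12 m13 m14 m23 m24 m34 r a b := by
  by_cases hex : ∃ v ∈ I, ∃ w ∈ I, v ≠ w ∧ u ≠ v ∧ u ≠ w ∧ Sel1_C x1 x2 x3 x4 m13 m14 m23 m24 m34 r v w
  · obtain ⟨v, hv, w, hw, hvw, huv, huw, hC⟩ := hex
    rcases hC with hC | hC
    · exact Sel1_134 h h12 hu hur hl hv hw hvw huv huw hC
    · obtain ⟨a, b, hg⟩ := Sel1_134 h.swap h12 hu (by omega) (fun v hv hne => by have := hl v hv hne; omega)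
        hv hw hvw huv huw hC
      exact ⟨a, b, hg.swap⟩
  · push Not at hex
    have hnc : ∀ v ∈ I, ∀ w ∈ I, v ≠ w → v ≠ u → w ≠ u →
        ¬ Sel1_C x1 x2 x3 x4 m13 m14 m23 m24 m34 r v w :=
      fun v hv w hw hvw h1 h2 => hex v hv w hw hvw h1.symm h2.symm
    by_cases c1 : 1 ≤ x3 u ∧ ∃ b ∈ I, b ≠ u ∧ 1 ≤ x4 b
    · obtain ⟨c1, b, hb, hbu, hxb⟩ := c1
      exact ⟨u, b, Sel1_mk h h12 hu hur hl hu hb hbu.symm c1 hxb (Or.inl rfl)
        (fun v' hv' w' hw' hn n1 n2 n3 n4 => hnc v' hv' w' hw' hn n1 n3)⟩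
    by_cases c2 : 1 ≤ x4 u ∧ ∃ a ∈ I, a ≠ u ∧ 1 ≤ x3 a
    · obtain ⟨c2, a, ha, hau, hxa⟩ := c2
      exact ⟨a, u, Sel1_mk h h12 hu hur hl ha hu hau hxa c2 (Or.inr rfl)
        (fun v' hv' w' hw' hn n1 n2 n3 n4 => hnc v' hv' w' hw' hn n2 n4)⟩
    exfalso
    have t12 := h.t12 u hu
    have t34 := h.t34 u hu
    have q := h.q u hu
    have d3 := h.d3
    have d4 := h.d4
    have hs4 : 1 ≤ x3 u → ∑ x ∈ I, x4 x = x4 u := by
      intro h3
      apply sum_eq_single u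
      · intro b hb hbu
        by_contra hne
        exact c1 ⟨h3, b, hb, hbu, by omega⟩
      · intro hn
        exact absurd hu hn
    have hs3 : 1 ≤ x4 u → ∑ x ∈ I, x3 x = x3 u := by
      intro h3
      apply sum_eq_single u
      · intro b hb hbu
        by_contra hne
        exact c2 ⟨h3, b, hb, hbu, by omega⟩
      · intro hn
        exact absurd hu hn
    omega

end PStar
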