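import Pool.Agent.PStar.VC.Defs

set_option autoImplicit false

namespace PStar

open Finset

variable {V : Type*} [DecidableEq V] {I : Finset V} {x1 x2 x3 x4 : V → ℕ}
  {m12 m13 m14 m23 m24 m34 r : ℕ}

private theorem sel2_four (x : V → ℕ) {u v y z : V} (hu : u ∈ I) (hv : v ∈ I) (hy : y ∈ I)
    (hz : z ∈ I) (huv : u ≠ v) (hyu : y ≠ u) (hyv : y ≠ v) (hzu : z ≠ u) (hzv : z ≠ v)
    (hyz : y ≠ z) : x u + x v + x y + x z ≤ ∑ w ∈ I, x w := by
  have h1 : ({u, v, y, z} : Finset V) ⊆ I := by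
    intro w hw
    simp only [Finset.mem_insert, Finset.mem_singleton] at hw
    rcases hw with rfl | rfl | rfl | rfl <;> assumption
  have h2 : ∑ w ∈ ({u, v, y, z} : Finset V), x w = x u + (x v + (x y + x z)) := by
    rw [Finset.sum_insert, Finset.sum_insert, Finset.sum_insert, Finset.sum_singleton]
    · simpa using hyz
    · simp only [Finset.mem_insert, Finset.mem_singleton, not_or]
      exact ⟨hyv.symm, hzv.symm⟩
    · simp only [Finset.mem_insert, Finset.mem_singleton, not_or]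
      exact ⟨huv, hyu.symm, hzu.symm⟩
  have h3 := Finset.sum_le_sum_of_subset (f := x) h1
  omega

private theorem sel2_five (x : V → ℕ) {u v y z t : V} (hu : u ∈ I) (hv : v ∈ I) (hy : y ∈ I)
    (hz : z ∈ I) (ht : t ∈ I) (huv : u ≠ v) (hyu : y ≠ u) (hyv : y ≠ v) (hzu : z ≠ u)
    (hzv : z ≠ v) (htu : t ≠ u) (htv : t ≠ v) (hyz : y ≠ z) (hyt : y ≠ t) (hzt : z ≠ t) :
    x u + x v + x y + x z + x t ≤ ∑ w ∈ I, x w := by
  have h1 : ({u, v, y, z, t} : Finset V) ⊆ I := by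
    intro w hw
    simp only [Finset.mem_insert, Finset.mem_singleton] at hw
    rcases hw with rfl | rfl | rfl | rfl | rfl <;> assumption
  have h2 : ∑ w ∈ ({u, v, y, z, t} : Finset V), x w = x u + (x v + (x y + (x z + x t))) := by
    rw [Finset.sum_insert, Finset.sum_insert, Finset.sum_insert, Finset.sum_insert,
      Finset.sum_singleton]
    · simpa using hzt
    · simp only [Finset.mem_insert, Finset.mem_singleton, not_or]
      exact ⟨hyz, hyt⟩
    · simp only [Finset.mem_insert, Finset.mem_singleton, not_or]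
      exact ⟨hyv.symm, hzv.symm, htv.symm⟩
    · simp only [Finset.mem_insert, Finset.mem_singleton, not_or]
      exact ⟨huv, hyu.symm, hzu.symm, htu.symm⟩
  have h3 := Finset.sum_le_sum_of_subset (f := x) h1
  omega

private theorem sel2_two (x : V → ℕ) {u v : V} (hu : u ∈ I) (hv : v ∈ I) (huv : u ≠ v) :
    x u + x v ≤ ∑ w ∈ I, x w := by
  have h1 : ({u, v} : Finset V) ⊆ I := by
    intro w hw
    simp only [Finset.mem_insert, Finset.mem_singleton] at hw
    rcases hw with rfl | rfl <;> assumption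
  have h3 := Finset.sum_le_sum_of_subset (f := x) h1
  rwa [Finset.sum_pair huv] at h3

private theorem sel2_aux (h : N4 I x1 x2 x3 x4 m12 m13 m14 m23 m24 m34 r) (h12 : 1 ≤ m12) {u v : V}
    (hu : u ∈ I) (hv : v ∈ I) (huv : u ≠ v) (hur : x1 u + x2 u + x3 u + x4 u = r)
    (hvr : x1 v + x2 v + x3 v + x4 v = r) (hx3 : 1 ≤ x3 u) (hx4 : 1 ≤ x4 v) :
    GoodPair I x1 x2 x3 x4 m12 m13 m14 m23 m24 m34 r u v := by
  have d1 := h.d1
  have d2 := h.d2
  have d3 := h.d3
  have d4 := h.d4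
  refine ⟨hu, hv, huv, hx3, hx4, ?_, ?_, ?_, ?_⟩
  · intro y hy hyu hyv
    have := h.w u hu v hv y hy huv hyu.symm hyv.symm
    omega
  · intro y hy z hz hyz hyu hyv hzu hzv
    have s1 := sel2_four x1 hu hv hy hz huv hyu hyv hzu hzv hyz
    have s3 := sel2_four x3 hu hv hy hz huv hyu hyv hzu hzv hyz
    have s4 := sel2_four x4 hu hv hy hz huv hyu hyv hzu hzv hyz
    have s2 := sel2_two x2 hu hv huv
    omega
  · intro y hy z hz hyz hyu hyv hzu hzv
    have s2 := sel2_four x2 hu hv hy hz huv hyu hyv hzu hzv hyz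
    have s3 := sel2_four x3 hu hv hy hz huv hyu hyv hzu hzv hyz
    have s4 := sel2_four x4 hu hv hy hz huv hyu hyv hzu hzv hyz
    have s1 := sel2_two x1 hu hv huv
    omega
  · intro y hy z hz t ht hyz hyt hzt hyu hyv hzu hzv htu htv
    have s1 := sel2_five x1 hu hv hy hz ht huv hyu hyv hzu hzv htu htv hyz hyt hzt
    have s2 := sel2_five x2 hu hv hy hz ht huv hyu hyv hzu hzv htu htv hyz hyt hzt
    have s3 := sel2_five x3 hu hv hy hz ht huv hyu hyv hzu hzv htu htv hyz hyt hzt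
    have s4 := sel2_five x4 hu hv hy hz ht huv hyu hyv hzu hzv htu htv hyz hyt hzt
    omega

/-- two saturated leaves `u`, `v` -/
theorem N4.sel2 (h : N4 I x1 x2 x3 x4 m12 m13 m14 m23 m24 m34 r) (h12 : 1 ≤ m12) {u v : V}
    (hu : u ∈ I) (hv : v ∈ I) (huv : u ≠ v) (hur : x1 u + x2 u + x3 u + x4 u = r)
    (hvr : x1 v + x2 v + x3 v + x4 v = r) :
    ∃ a b, GoodPair I x1 x2 x3 x4 m12 m13 m14 m23 m24 m34 r a b := by
  have k1 := h.p124 u hu v hv huv
  have k2 := h.p123 u hu v hv huv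
  have k3 := h.t12 u hu
  have k4 := h.t12 v hv
  have k5 : (1 ≤ x3 u ∧ 1 ≤ x4 v) ∨ (1 ≤ x3 v ∧ 1 ≤ x4 u) := by omega
  rcases k5 with ⟨h1, h2⟩ | ⟨h1, h2⟩
  · exact ⟨u, v, sel2_aux h h12 hu hv huv hur hvr h1 h2⟩
  · exact ⟨v, u, sel2_aux h h12 hv hu huv.symm hvr hur h1 h2⟩

end PStar
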