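import Pool.Agent.PStar.VC.Basic
import Pool.Agent.PStar.Small

set_option autoImplicit false

namespace PStar

open Finset

variable {V : Type*} [DecidableEq V] {W S : Finset V} {m : V → V → ℕ} {f : V → ℕ} {r : ℕ}

theorem VCS.dec_tight (h : VCS W S m f r) (hS : S.card ≤ 4) {X : Finset V} (hX : X ⊆ W)
    (ho : Odd X.card) (h3 : 3 ≤ X.card) (hlt : (X \ S).card < (X ∩ S).card)
    (ht : cut W m f X = r)
    (IH : ∀ (W' S' : Finset V) (m' : V → V → ℕ) (f' : V → ℕ),
      IsZG W' m' f' (fun _ => 0) r → S' ⊆ W' →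
      (∀ u ∈ W', u ∉ S' → ∀ v ∈ W', v ∉ S' → m' u v = 0) → S'.card < S.card → Dec W' m' f' r) :
    Dec W m f r := by
  have hsplit : (X \ S).card + (X ∩ S).card = X.card := Finset.card_sdiff_add_card_inter X S
  have hle4 : (X ∩ S).card ≤ S.card := Finset.card_le_card Finset.inter_subset_right
  have h2 : 2 ≤ (X ∩ S).card := by omega
  have hc7 : X.card ≤ 8 := by omega
  obtain ⟨x0, hx0⟩ : (X ∩ S).Nonempty := Finset.card_pos.1 (by omega)
  obtain ⟨hx0X, hx0S⟩ := Finset.mem_inter.1 hx0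
  have k1 := h.zg.contract hX hx0X ho 0 (by rw [ht, mul_zero, add_zero])
  have k2 := h.zg.inside hX
  have hK : conK x0 0 (fun _ : V => 0) = fun _ => 0 := by
    funext v
    simp [conK]
  rw [hK] at k1
  refine h.zg.glue_tight hX hx0X ho ht ?_ (k2.small hc7)
  refine IH _ (insert x0 (S \ X)) _ _ k1 ?_ ?_ ?_
  · exact Finset.insert_subset_insert x0 (Finset.sdiff_subset_sdiff h.sub (le_refl _))
  · intro u hu huS v hv hvS
    have hu0 : u ≠ x0 := by
      rintro rfl
      exact huS (Finset.mem_insert_self _ _)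
    have hv0 : v ≠ x0 := by
      rintro rfl
      exact hvS (Finset.mem_insert_self _ _)
    have hu1 := (Finset.mem_insert.1 hu).resolve_left hu0
    have hv1 := (Finset.mem_insert.1 hv).resolve_left hv0
    obtain ⟨hu2, hu3⟩ := Finset.mem_sdiff.1 hu1
    obtain ⟨hv2, hv3⟩ := Finset.mem_sdiff.1 hv1
    have huS' : u ∉ S := fun h5 =>
      huS (Finset.mem_insert_of_mem (Finset.mem_sdiff.2 ⟨h5, hu3⟩))
    have hvS' : v ∉ S := fun h5 =>
      hvS (Finset.mem_insert_of_mem (Finset.mem_sdiff.2 ⟨h5, hv3⟩))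
    simp only [conM, if_neg hu0, if_neg hv0]
    exact h.ind u hu2 huS' v hv2 hvS'
  · have h4 := Finset.card_insert_le x0 (S \ X)
    have h5 : (S \ X).card + (S ∩ X).card = S.card := Finset.card_sdiff_add_card_inter S X
    rw [Finset.inter_comm S X] at h5
    omega

end PStar
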