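import Pool.Agent.PStar.VC.Basic

set_option autoImplicit false

namespace PStar

open Finset

variable {V : Type*} [DecidableEq V] {W S : Finset V} {m : V → V → ℕ} {f : V → ℕ} {r s : ℕ}

private lemma toN4_key (h : VCS W S m f r) (hnt : NTV W S m f r) {T P : Finset V}
    (hT : T ⊆ S) (hP : P ⊆ W \ S) (hlt : P.card < T.card) (hodd : Odd (T.card + P.card))
    (h3 : 3 ≤ T.card + P.card) :
    E m T T + 2 * ∑ u ∈ P, ∑ t ∈ T, m t u + r + 2 ≤ r * (T.card + P.card) := by
  have hdis : Disjoint T P := by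
    rw [Finset.disjoint_left]
    intro x hx hx'
    exact (Finset.mem_sdiff.1 (hP hx')).2 (hT hx)
  have hX : T ∪ P ⊆ W := Finset.union_subset (hT.trans h.sub) (hP.trans Finset.sdiff_subset)
  have hcard : (T ∪ P).card = T.card + P.card := Finset.card_union_of_disjoint hdis
  have h1 : (T ∪ P) ∩ S = T := by
    ext x
    simp only [Finset.mem_inter, Finset.mem_union]
    constructor
    · rintro ⟨hx | hx, hxS⟩
      · exact hx
      · exact absurd hxS (Finset.mem_sdiff.1 (hP hx)).2
    · intro hx
      exact ⟨Or.inl hx, hT hx⟩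
  have h2 : (T ∪ P) \ S = P := by
    ext x
    simp only [Finset.mem_sdiff, Finset.mem_union]
    constructor
    · rintro ⟨hx | hx, hxS⟩
      · exact absurd (hT hx) hxS
      · exact hx
    · intro hx
      exact ⟨Or.inr hx, (Finset.mem_sdiff.1 (hP hx)).2⟩
  have hc := hnt (T ∪ P) hX (by rw [hcard]; exact hodd) (by rw [hcard]; exact h3)
    (by rw [h1, h2]; exact hlt)
  have he := h.zg.cut_add_E hX
  have hE := h.E_eq hX
  rw [h1, h2] at hE
  rw [hcard] at he
  omega

theorem VCS.n4 (h : VCS W S m f r) (hnt : NTV W S m f r) {p q k l : V}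
    (hS : S = {p, q, k, l}) (hcard : S.card = 4) (hW : 9 ≤ W.card)
    (hpos : ∀ u ∈ W, u ∉ S → 1 ≤ dS m S u) :
    N4 (W \ S) (m p) (m q) (m k) (m l) (m p q) (m p k) (m p l) (m q k) (m q l) (m k l) r := by
  have hd : p ≠ q ∧ p ≠ k ∧ p ≠ l ∧ q ≠ k ∧ q ≠ l ∧ k ≠ l := by
    rw [hS] at hcard
    have h4 : ∀ a b c d : V, ({a, b, c, d} : Finset V).card = 4 → a ∉ ({b, c, d} : Finset V) := by
      intro a b c d h4 ha
      rw [Finset.insert_eq_of_mem ha] at h4
      have := Finset.card_le_three (a := b) (b := c) (c := d)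
      omega
    have hp := h4 p q k l hcard
    have hc3 : ({q, k, l} : Finset V).card = 3 := by
      rw [Finset.card_insert_of_notMem hp] at hcard
      omega
    have hq : q ∉ ({k, l} : Finset V) := by
      intro ha
      rw [Finset.insert_eq_of_mem ha] at hc3
      have := Finset.card_le_two (a := k) (b := l)
      omega
    have hc2 : ({k, l} : Finset V).card = 2 := by
      rw [Finset.card_insert_of_notMem hq] at hc3
      omega
    have hk : k ∉ ({l} : Finset V) := by
      intro ha
      rw [Finset.insert_eq_of_mem ha] at hc2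
      simp at hc2
    simp only [Finset.mem_insert, Finset.mem_singleton, not_or] at hp hq hk
    exact ⟨hp.1, hp.2.1, hp.2.2, hq.1, hq.2, hk⟩
  obtain ⟨hpq, hpk, hpl, hqk, hql, hkl⟩ := hd
  have hpS : p ∈ S := by rw [hS]; simp
  have hqS : q ∈ S := by rw [hS]; simp
  have hkS : k ∈ S := by rw [hS]; simp
  have hlS : l ∈ S := by rw [hS]; simp
  have hpW := h.sub hpS
  have hqW := h.sub hqS
  have hkW := h.sub hkS
  have hlW := h.sub hlS
  have spq := h.zg.symm q hqW p hpW
  have spk := h.zg.symm k hkW p hpW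
  have spl := h.zg.symm l hlW p hpW
  have sqk := h.zg.symm k hkW q hqW
  have sql := h.zg.symm l hlW q hqW
  have skl := h.zg.symm l hlW k hkW
  have lp := h.zg.loopless p hpW
  have lq := h.zg.loopless q hqW
  have lk := h.zg.loopless k hkW
  have ll := h.zg.loopless l hlW
  -- sums over small sets
  have sum2 : ∀ (a b : V) (g : V → ℕ), a ≠ b → ∑ x ∈ ({a, b} : Finset V), g x = g a + g b := by
    intro a b g hab
    exact Finset.sum_pair hab
  have sum3 : ∀ (a b c : V) (g : V → ℕ), a ≠ b → a ≠ c → b ≠ c →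
      ∑ x ∈ ({a, b, c} : Finset V), g x = g a + g b + g c := by
    intro a b c g hab hac hbc
    rw [Finset.sum_insert (by simp [hab, hac]), Finset.sum_pair hbc]
    ring
  have sum4 : ∀ (g : V → ℕ), ∑ x ∈ S, g x = g p + g q + g k + g l := by
    intro g
    rw [hS, Finset.sum_insert (by simp [hpq, hpk, hpl]), Finset.sum_insert (by simp [hqk, hql]),
      Finset.sum_pair hkl]
    ring
  have hdS : ∀ u, dS m S u = m p u + m q u + m k u + m l u := by
    intro u
    unfold dS
    exact sum4 (fun x => m x u)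
  -- degrees
  have hdeg : ∀ x ∈ S, ∑ u ∈ S, m x u + ∑ u ∈ W \ S, m x u = r := by
    intro x hx
    have h1 := h.zg.degree x (h.sub hx)
    rw [h.sat x hx] at h1
    have h2 := Finset.sum_sdiff (f := fun u => m x u) h.sub
    omega
  have dp := hdeg p hpS
  have dq := hdeg q hqS
  have dk := hdeg k hkS
  have dl := hdeg l hlS
  rw [sum4 (fun u => m p u)] at dp
  rw [sum4 (fun u => m q u)] at dq
  rw [sum4 (fun u => m k u)] at dk
  rw [sum4 (fun u => m l u)] at dl
  -- E on small sets
  have E2 : ∀ a ∈ S, ∀ b ∈ S, a ≠ b → E m {a, b} {a, b} = 2 * m a b := by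
    intro a ha b hb hab
    unfold E
    rw [sum2 _ _ _ hab, sum2 _ _ _ hab, sum2 _ _ _ hab, h.zg.loopless a (h.sub ha),
      h.zg.loopless b (h.sub hb), h.zg.symm b (h.sub hb) a (h.sub ha)]
    ring
  have E3 : ∀ a ∈ S, ∀ b ∈ S, ∀ c ∈ S, a ≠ b → a ≠ c → b ≠ c →
      E m {a, b, c} {a, b, c} = 2 * (m a b + m a c + m b c) := by
    intro a ha b hb c hc hab hac hbc
    unfold E
    rw [sum3 _ _ _ _ hab hac hbc, sum3 _ _ _ _ hab hac hbc, sum3 _ _ _ _ hab hac hbc,
      sum3 _ _ _ _ hab hac hbc, h.zg.loopless a (h.sub ha),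
      h.zg.loopless b (h.sub hb), h.zg.loopless c (h.sub hc), h.zg.symm b (h.sub hb) a (h.sub ha),
      h.zg.symm c (h.sub hc) a (h.sub ha), h.zg.symm c (h.sub hc) b (h.sub hb)]
    ring
  have E4 : E m S S = 2 * (m p q + m p k + m p l + m q k + m q l + m k l) := by
    unfold E
    rw [sum4, sum4, sum4, sum4, sum4, lp, lq, lk, ll, spq, spk, spl, sqk, sql, skl]
    ring
  have card2 : ∀ a b : V, a ≠ b → ({a, b} : Finset V).card = 2 := fun a b hab =>
    Finset.card_pair hab
  have card3 : ∀ a b c : V, a ≠ b → a ≠ c → b ≠ c → ({a, b, c} : Finset V).card = 3 := by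
    intro a b c hab hac hbc
    rw [Finset.card_insert_of_notMem (by simp [hab, hac]), Finset.card_pair hbc]
  -- two vertices of S, one leaf
  have key2 : ∀ a ∈ S, ∀ b ∈ S, a ≠ b → ∀ u ∈ W \ S, m a b + m a u + m b u + 1 ≤ r := by
    intro a ha b hb hab u hu
    have hk := toN4_key h hnt (T := {a, b}) (P := {u})
      (by intro x hx; simp only [Finset.mem_insert, Finset.mem_singleton] at hx
          rcases hx with rfl | rfl <;> assumption)
      (by simpa using hu)
      (by rw [card2 a b hab]; simp) (by rw [card2 a b hab]; simp; decide)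
      (by rw [card2 a b hab]; simp)
    rw [E2 a ha b hb hab, card2 a b hab, Finset.card_singleton, Finset.sum_singleton,
      sum2 _ _ _ hab] at hk
    omega
  have key3 : ∀ a ∈ S, ∀ b ∈ S, ∀ c ∈ S, a ≠ b → a ≠ c → b ≠ c →
      m a b + m a c + m b c + 1 ≤ r := by
    intro a ha b hb c hc hab hac hbc
    have hk := toN4_key h hnt (T := {a, b, c}) (P := ∅)
      (by intro x hx; simp only [Finset.mem_insert, Finset.mem_singleton] at hx
          rcases hx with rfl | rfl | rfl <;> assumption)
      (by simp)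
      (by rw [card3 a b c hab hac hbc]; simp) (by rw [card3 a b c hab hac hbc]; simp; decide)
      (by rw [card3 a b c hab hac hbc]; simp)
    rw [E3 a ha b hb c hc hab hac hbc, card3 a b c hab hac hbc, Finset.card_empty,
      Finset.sum_empty] at hk
    omega
  have key5 : ∀ a ∈ S, ∀ b ∈ S, ∀ c ∈ S, a ≠ b → a ≠ c → b ≠ c →
      ∀ u ∈ W \ S, ∀ v ∈ W \ S, u ≠ v →
      (m a b + m a c + m b c) + (m a u + m b u + m c u) + (m a v + m b v + m c v) + 1 ≤ 2 * r := by
    intro a ha b hb c hc hab hac hbc u hu v hv huv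
    have hk := toN4_key h hnt (T := {a, b, c}) (P := {u, v})
      (by intro x hx; simp only [Finset.mem_insert, Finset.mem_singleton] at hx
          rcases hx with rfl | rfl | rfl <;> assumption)
      (by intro x hx; simp only [Finset.mem_insert, Finset.mem_singleton] at hx
          rcases hx with rfl | rfl <;> assumption)
      (by rw [card3 a b c hab hac hbc, card2 u v huv]; norm_num)
      (by rw [card3 a b c hab hac hbc, card2 u v huv]; decide)
      (by rw [card3 a b c hab hac hbc, card2 u v huv]; norm_num)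
    rw [E3 a ha b hb c hc hab hac hbc, card3 a b c hab hac hbc, card2 u v huv,
      sum2 _ _ _ huv, sum3 _ _ _ _ hab hac hbc, sum3 _ _ _ _ hab hac hbc] at hk
    omega
  have hq1 : ∀ u ∈ W \ S, (m p q + m p k + m p l + m q k + m q l + m k l) +
      (m p u + m q u + m k u + m l u) + 1 ≤ 2 * r := by
    intro u hu
    have hk := toN4_key h hnt (T := S) (P := {u}) (Finset.Subset.refl S)
      (by simpa using hu) (by rw [hcard]; simp) (by rw [hcard]; simp; decide)
      (by rw [hcard]; simp)
    rw [E4, hcard, Finset.card_singleton, Finset.sum_singleton, sum4] at hk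
    omega
  have hw : ∀ u ∈ W \ S, ∀ v ∈ W \ S, ∀ w ∈ W \ S, u ≠ v → u ≠ w → v ≠ w →
    (m p q + m p k + m p l + m q k + m q l + m k l) + (m p u + m q u + m k u + m l u) +
      (m p v + m q v + m k v + m l v) + (m p w + m q w + m k w + m l w) + 1 ≤ 3 * r := by
    intro u hu v hv w hw huv huw hvw
    have hk := toN4_key h hnt (T := S) (P := {u, v, w}) (Finset.Subset.refl S)
      (by intro x hx; simp only [Finset.mem_insert, Finset.mem_singleton] at hx
          rcases hx with rfl | rfl | rfl <;> assumption)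
      (by rw [hcard, card3 u v w huv huw hvw]; norm_num)
      (by rw [hcard, card3 u v w huv huw hvw]; decide)
      (by rw [hcard, card3 u v w huv huw hvw]; norm_num)
    rw [E4, hcard, card3 u v w huv huw hvw, sum3 _ _ _ _ huv huw hvw, sum4, sum4, sum4] at hk
    omega
  have hmem : ∀ u ∈ W \ S, u ∈ W ∧ u ∉ S := fun u hu => Finset.mem_sdiff.1 hu
  refine ⟨?_, ?_, ?_, ?_, ?_, ?_, ?_, ?_, ?_, ?_, ?_, hq1, ?_, ?_, ?_, ?_, hw⟩
  · rw [Finset.card_sdiff_of_subset h.sub, hcard]
    omega
  · omega
  · omega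
  · omega
  · omega
  · intro u hu
    have := hpos u (hmem u hu).1 (hmem u hu).2
    rw [hdS u] at this
    exact this
  · intro u hu
    have := h.deg_dS (hmem u hu).1 (hmem u hu).2
    rw [hdS u] at this
    omega
  · exact fun u hu => key2 p hpS q hqS hpq u hu
  · exact fun u hu => key2 k hkS l hlS hkl u hu
  · exact key3 p hpS q hqS k hkS hpq hpk hqk
  · exact key3 p hpS q hqS l hlS hpq hpl hql
  · exact fun u hu v hv huv => key5 p hpS q hqS k hkS hpq hpk hqk u hu v hv huv
  · exact fun u hu v hv huv => key5 p hpS q hqS l hlS hpq hpl hql u hu v hv huv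
  · exact fun u hu v hv huv => key5 p hpS k hkS l hlS hpk hpl hkl u hu v hv huv
  · exact fun u hu v hv huv => key5 q hqS k hkS l hlS hqk hql hkl u hu v hv huv

end PStar
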