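import Pool.Agent.PStar.VC.RedA
import Pool.Agent.PStar.VC.RedB
import Pool.Agent.PStar.VC.Red3
import Pool.Agent.PStar.VC.ToN4
import Pool.Agent.PStar.VC.Sel0
import Pool.Agent.PStar.VC.Sel1
import Pool.Agent.PStar.VC.Sel2
import Pool.Agent.PStar.VC.Bip
import Pool.Agent.PStar.VC.Leaf
import Pool.Agent.PStar.VC.TightV

set_option autoImplicit false

namespace PStar

open Finset

variable {V : Type*} [DecidableEq V]

private theorem Main_dS {S : Finset V} {m : V → V → ℕ} {p q k l : V} (hS : S = {p, q, k, l})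
    (hpq : p ≠ q) (hpk : p ≠ k) (hpl : p ≠ l) (hqk : q ≠ k) (hql : q ≠ l) (hkl : k ≠ l) (u : V) :
    dS m S u = m p u + m q u + m k u + m l u := by
  unfold dS
  rw [hS, sum_insert, sum_insert, sum_insert, sum_singleton]
  · ring
  · simpa using hkl
  · simp only [mem_insert, mem_singleton, not_or]
    exact ⟨hqk, hql⟩
  · simp only [mem_insert, mem_singleton, not_or]
    exact ⟨hpq, hpk, hpl⟩

/-- one part can be removed if there are no tight sets and there is an edge inside `S` -/
private theorem Main_red {W S : Finset V} {m : V → V → ℕ} {f : V → ℕ} {s : ℕ}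
    (h : VCS W S m f (s + 1)) (hnt : NTV W S m f (s + 1)) (hS4 : S.card ≤ 4) (hW : 9 ≤ W.card)
    (hpos : ∀ u ∈ W, u ∉ S → 1 ≤ dS m S u) {p q : V} (hp : p ∈ S) (hq : q ∈ S)
    (hpq : 1 ≤ m p q) : VRed W S m f s := by
  have hne : p ≠ q := by
    rintro rfl
    have := h.zg.loopless p (h.sub hp)
    omega
  have hq' : q ∈ S.erase p := mem_erase.2 ⟨hne.symm, hq⟩
  have hTS : insert p (insert q ((S.erase p).erase q)) = S := by
    rw [insert_erase hq', insert_erase hp]
  have hTc : ((S.erase p).erase q).card + 2 = S.card := by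
    have h1 := card_erase_add_one hq'
    have h2 := card_erase_add_one hp
    omega
  have hpT : p ∉ (S.erase p).erase q := by simp
  have hqT : q ∉ (S.erase p).erase q := by simp
  generalize (S.erase p).erase q = T at hTS hTc hpT hqT
  have hcases : T.card = 0 ∨ T.card = 1 ∨ T.card = 2 := by omega
  rcases hcases with h0 | h1 | h2
  · rw [card_eq_zero] at h0
    subst h0
    exact h.red2 hnt (p := p) (q := q) (by rw [← hTS]; rfl) (by simpa using hTc.symm) hpq
  · obtain ⟨k, rfl⟩ := card_eq_one.1 h1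
    exact h.red3 hnt (p := p) (q := q) (k := k) hTS.symm (by simpa using hTc.symm) hpq
  · obtain ⟨k, l, hkl, rfl⟩ := card_eq_two.1 h2
    have hcard : S.card = 4 := by omega
    simp only [mem_insert, mem_singleton, not_or] at hpT hqT
    have hSe : S = {p, q, k, l} := hTS.symm
    have hd := Main_dS (m := m) hSe hne hpT.1 hpT.2 hqT.1 hqT.2 hkl
    by_cases hB : 1 ≤ m k l ∧ ∀ u ∈ W, u ∉ S → 1 ≤ f u
    · exact h.redB hnt hSe hcard hpq hB.1 hB.2
    · have hN := h.n4 hnt hSe hcard hW hpos
      have hdf : ∀ u ∈ W \ S, m p u + m q u + m k u + m l u + f u = s + 1 := by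
        intro u hu
        rw [mem_sdiff] at hu
        rw [← hd u]
        exact h.deg_dS hu.1 hu.2
      suffices hG : ∃ a b, GoodPair (W \ S) (m p) (m q) (m k) (m l) (m p q) (m p k) (m p l)
          (m q k) (m q l) (m k l) (s + 1) a b by
        obtain ⟨a, b, hG⟩ := hG
        exact h.redA hnt hSe hcard hpq hG
      by_cases hex : ∃ u ∈ W \ S, f u = 0
      · obtain ⟨u, hu, hu0⟩ := hex
        by_cases hex2 : ∃ v ∈ W \ S, v ≠ u ∧ f v = 0
        · obtain ⟨v, hv, hvu, hv0⟩ := hex2
          refine hN.sel2 hpq hu hv hvu.symm ?_ ?_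
          · have := hdf u hu
            omega
          · have := hdf v hv
            omega
        · refine hN.sel1 hpq hu ?_ ?_
          · have := hdf u hu
            omega
          · intro v hv hvu
            have h3 : f v ≠ 0 := fun h0 => hex2 ⟨v, hv, hvu, h0⟩
            have := hdf v hv
            omega
      · have hall : ∀ u ∈ W \ S, 1 ≤ f u := by
          intro u hu
          have h3 : f u ≠ 0 := fun h0 => hex ⟨u, hu, h0⟩
          omega
        have hkl0 : m k l = 0 := by
          by_contra hne0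
          exact hB ⟨by omega, fun u hu hS => hall u (mem_sdiff.2 ⟨hu, hS⟩)⟩
        refine hN.sel0 hpq hkl0 ?_
        intro u hu
        have h3 := hall u hu
        have := hdf u hu
        omega

/-- the saturated case -/
private theorem Main_sat (S : Finset V) (hS4 : S.card ≤ 4)
    (IH : ∀ (r : ℕ) (W' S' : Finset V) (m' : V → V → ℕ) (f' : V → ℕ),
      IsZG W' m' f' (fun _ => 0) r → S' ⊆ W' →
      (∀ u ∈ W', u ∉ S' → ∀ v ∈ W', v ∉ S' → m' u v = 0) → S'.card < S.card → Dec W' m' f' r) :
    ∀ (w : ℕ) (W : Finset V), W.card = w → ∀ (r : ℕ) (m : V → V → ℕ) (f : V → ℕ),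
      VCS W S m f r → Dec W m f r := by
  intro w
  induction w using Nat.strong_induction_on with
  | _ w ihw =>
  intro W hW r
  induction r with
  | zero =>
    intro m f h
    exact dec_zero fun v hv => by simpa using h.zg.degree v hv
  | succ s ihs =>
    intro m f h
    by_cases h8 : W.card ≤ 8
    · exact h.zg.small h8
    by_cases hiso : ∃ u ∈ W, u ∉ S ∧ dS m S u = 0
    · obtain ⟨u, hu, huS, hu0⟩ := hiso
      have hfu : f u = s + 1 := by
        have := h.deg_dS hu huS
        omega
      refine Dec.of_erase_iso h.zg hu hfu ?_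
      refine ihw (W.erase u).card ?_ (W.erase u) rfl (s + 1) m f ?_
      · rw [← hW]
        exact card_erase_lt_of_mem hu
      · refine ⟨h.zg.erase_iso hu hfu, ?_, h.sat, ?_⟩
        · intro x hx
          exact mem_erase.2 ⟨fun hxu => huS (hxu ▸ hx), h.sub hx⟩
        · intro a ha haS b hb hbS
          exact h.ind a (mem_of_mem_erase ha) haS b (mem_of_mem_erase hb) hbS
    by_cases hbip : ∀ x ∈ S, ∀ y ∈ S, m x y = 0
    · exact h.dec_bip hbip
    by_cases htight : ∃ X ⊆ W, Odd X.card ∧ 3 ≤ X.card ∧ (X \ S).card < (X ∩ S).card ∧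
        cut W m f X = s + 1
    · obtain ⟨X, hX, ho, h3, hlt, ht⟩ := htight
      exact h.dec_tight hS4 hX ho h3 hlt ht (IH (s + 1))
    have hnt : NTV W S m f (s + 1) := by
      intro X hX ho h3 hlt
      have h1 := h.zg.cuts X hX ho
      have h2 : cut W m f X ≠ s + 1 := fun h0 => htight ⟨X, hX, ho, h3, hlt, h0⟩
      have h4 := h.zg.cut_parity hX
      obtain ⟨j, hj⟩ := ho
      have h5 : ((s + 1) * X.card) % 2 = (s + 1) % 2 := by
        rw [hj, show (s + 1) * (2 * j + 1) = (s + 1) + 2 * ((s + 1) * j) by ring,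
          Nat.add_mul_mod_self_left]
      rw [h5] at h4
      omega
    have hpos : ∀ u ∈ W, u ∉ S → 1 ≤ dS m S u := by
      intro u hu huS
      have h1 : dS m S u ≠ 0 := fun h0 => hiso ⟨u, hu, huS, h0⟩
      omega
    have hedge : ∃ p ∈ S, ∃ q ∈ S, 1 ≤ m p q := by
      by_contra hcon
      push Not at hcon
      refine hbip fun x hx y hy => ?_
      have := hcon x hx y hy
      omega
    obtain ⟨p, hp, q, hq, hpq⟩ := hedge
    obtain ⟨m', f', hV, himp⟩ := Main_red h hnt hS4 (by omega) hpos hp hq hpq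
    exact himp (ihs m' f' hV)

private theorem Main_aux [Infinite V] : ∀ (n N : ℕ) (W S : Finset V) (m : V → V → ℕ) (f : V → ℕ)
    (r : ℕ), S.card = n → (S.filter fun x => f x ≠ 0).card = N →
    IsZG W m f (fun _ => 0) r → S ⊆ W →
    (∀ u ∈ W, u ∉ S → ∀ v ∈ W, v ∉ S → m u v = 0) → S.card ≤ 4 → Dec W m f r := by
  intro n
  induction n using Nat.strong_induction_on with
  | _ n ihn =>
  intro N
  induction N with
  | zero =>
    intro W S m f r hn hN h hS hI hc
    have hsat : ∀ x ∈ S, f x = 0 := by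
      intro x hx
      rw [card_eq_zero, filter_eq_empty_iff] at hN
      have := hN hx
      simpa using this
    refine Main_sat S hc ?_ W.card W rfl r m f ⟨h, hS, hsat, hI⟩
    intro r' W' S' m' f' h' hS' hI' hlt
    exact ihn S'.card (by omega) _ W' S' m' f' r' rfl rfl h' hS' hI' (by omega)
  | succ N ihN =>
    intro W S m f r hn hN h hS hI hc
    obtain ⟨x, hx⟩ : (S.filter fun x => f x ≠ 0).Nonempty := by
      rw [← card_pos]
      omega
    obtain ⟨hxS, hfx⟩ := mem_filter.1 hx
    obtain ⟨y, hy⟩ := Infinite.exists_notMem_finset W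
    have hxW := hS hxS
    have hxy : x ≠ y := fun hxy => hy (hxy ▸ hxW)
    have hyS : y ∉ S := fun h0 => hy (hS h0)
    refine Dec.of_leaf h hxW hy ?_
    refine ihN (insert y W) S (leafM m x y (f x)) (leafF f x y r) r hn ?_ (h.add_leaf hxW hy)
      (hS.trans (subset_insert y W)) ?_ hc
    · have h1 : (S.filter fun v => leafF f x y r v ≠ 0) = (S.filter fun v => f v ≠ 0).erase x := by
        ext v
        simp only [mem_filter, mem_erase]
        unfold leafF
        constructor
        · rintro ⟨hv, hv0⟩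
          have hvy : v ≠ y := fun h0 => hyS (h0 ▸ hv)
          rw [if_neg hvy] at hv0
          by_cases hvx : v = x
          · rw [if_pos hvx] at hv0
            exact absurd rfl hv0
          · rw [if_neg hvx] at hv0
            exact ⟨hvx, hv, hv0⟩
        · rintro ⟨hvx, hv, hv0⟩
          have hvy : v ≠ y := fun h0 => hyS (h0 ▸ hv)
          rw [if_neg hvy, if_neg hvx]
          exact ⟨hv, hv0⟩
      rw [h1, card_erase_of_mem hx, hN]
      omega
    · intro u hu huS v hv hvS
      unfold leafM
      have h1 : ¬((u = x ∧ v = y) ∨ (u = y ∧ v = x)) := by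
        rintro (⟨h1, _⟩ | ⟨_, h1⟩)
        · exact huS (h1 ▸ hxS)
        · exact hvS (h1 ▸ hxS)
      rw [if_neg h1]
      by_cases h2 : u = y ∨ v = y
      · rw [if_pos h2]
      · rw [if_neg h2]
        push Not at h2
        exact hI u (mem_of_mem_insert_of_ne hu h2.1) huS v (mem_of_mem_insert_of_ne hv h2.2) hvS

/-- z-graphs with a vertex cover of size at most four -/
theorem dec_of_cover [Infinite V] (W S : Finset V) (m : V → V → ℕ) (f : V → ℕ) (r : ℕ)
    (h : IsZG W m f (fun _ => 0) r) (hS : S ⊆ W)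
    (hI : ∀ u ∈ W, u ∉ S → ∀ v ∈ W, v ∉ S → m u v = 0) (hc : S.card ≤ 4) : Dec W m f r :=
  Main_aux _ _ W S m f r rfl rfl h hS hI hc

end PStar
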