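import Pool.Agent.PStar.VC.Basic

set_option autoImplicit false

namespace PStar

open Finset

variable {V : Type*} [DecidableEq V] {W S : Finset V} {m : V → V → ℕ} {f : V → ℕ} {r s : ℕ}

private theorem redA_dist {p q k l : V} (h : ({p, q, k, l} : Finset V).card = 4) :
    p ≠ q ∧ p ≠ k ∧ p ≠ l ∧ q ≠ k ∧ q ≠ l ∧ k ≠ l := by
  have key : ∀ a b c : V, ¬ ({p, q, k, l} : Finset V) ⊆ {a, b, c} := by
    intro a b c hs
    have h1 := (card_le_card hs).trans (card_le_three (a := a) (b := b) (c := c))
    omega
  refine ⟨?_, ?_, ?_, ?_, ?_, ?_⟩ <;> intro he <;> subst he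
  · apply key p k l
    intro x hx
    simp only [mem_insert, mem_singleton] at hx ⊢
    tauto
  · apply key p q l
    intro x hx
    simp only [mem_insert, mem_singleton] at hx ⊢
    tauto
  · apply key p q k
    intro x hx
    simp only [mem_insert, mem_singleton] at hx ⊢
    tauto
  · apply key p q l
    intro x hx
    simp only [mem_insert, mem_singleton] at hx ⊢
    tauto
  · apply key p q k
    intro x hx
    simp only [mem_insert, mem_singleton] at hx ⊢
    tauto
  · apply key p q k
    intro x hx
    simp only [mem_insert, mem_singleton] at hx ⊢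
    tauto

private theorem redA_EJ {Q : V → Option V} {T X : Finset V} (hT : T ⊆ X)
    (h : ∀ x ∈ T, ∃ y ∈ X, Q x = some y) : T.card ≤ E (stepJ Q) X X := by
  unfold E
  have h1 : T.card ≤ ∑ x ∈ T, ∑ y ∈ X, stepJ Q x y := by
    rw [card_eq_sum_ones]
    apply sum_le_sum
    intro x hx
    obtain ⟨y, hy, hQ⟩ := h x hx
    have h2 := single_le_sum (f := fun y => stepJ Q x y) (fun _ _ => Nat.zero_le _) hy
    simp only [stepJ, hQ, if_true] at h2
    simpa only [stepJ, hQ] using h2
  exact h1.trans (sum_le_sum_of_subset_of_nonneg hT (fun _ _ _ => Nat.zero_le _))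

private theorem redA_card {p q k l : V} (hd : p ≠ q ∧ p ≠ k ∧ p ≠ l ∧ q ≠ k ∧ q ≠ l ∧ k ≠ l)
    (X : Finset V) : (X ∩ {p, q, k, l}).card = (if p ∈ X then 1 else 0) +
      (if q ∈ X then 1 else 0) + (if k ∈ X then 1 else 0) + (if l ∈ X then 1 else 0) := by
  obtain ⟨h1, h2, h3, h4, h5, h6⟩ := hd
  have e : X ∩ {p, q, k, l} = ({p, q, k, l} : Finset V).filter (fun x => x ∈ X) := by
    ext x
    simp only [mem_inter, mem_filter]
    tauto
  rw [e, card_filter, sum_insert (by simp [h1, h2, h3]), sum_insert (by simp [h4, h5]),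
    sum_insert (by simp [h6]), sum_singleton]
  ring

private theorem redA_E3 (h : IsZG W m f (fun _ => 0) r) {x y z : V} (hx : x ∈ W) (hy : y ∈ W)
    (hz : z ∈ W) (hxy : x ≠ y) (hxz : x ≠ z) (hyz : y ≠ z) :
    E m {x, y, z} {x, y, z} = 2 * (m x y + m x z + m y z) := by
  unfold E
  have e : ∀ g : V → ℕ, ∑ v ∈ ({x, y, z} : Finset V), g v = g x + (g y + g z) := by
    intro g
    rw [sum_insert (by simp [hxy, hxz]), sum_insert (by simp [hyz]), sum_singleton]
  rw [e, e, e, e]
  rw [h.loopless x hx, h.loopless y hy, h.loopless z hz, h.symm y hy x hx, h.symm z hz x hx,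
    h.symm z hz y hy]
  ring

private theorem redA_E4 (h : IsZG W m f (fun _ => 0) r) {x y z w : V} (hx : x ∈ W) (hy : y ∈ W)
    (hz : z ∈ W) (hw : w ∈ W) (hd : x ≠ y ∧ x ≠ z ∧ x ≠ w ∧ y ≠ z ∧ y ≠ w ∧ z ≠ w) :
    E m {x, y, z, w} {x, y, z, w} =
      2 * (m x y + m x z + m x w + m y z + m y w + m z w) := by
  obtain ⟨h1, h2, h3, h4, h5, h6⟩ := hd
  unfold E
  have e : ∀ g : V → ℕ, ∑ v ∈ ({x, y, z, w} : Finset V), g v = g x + (g y + (g z + g w)) := by
    intro g
    rw [sum_insert (by simp [h1, h2, h3]), sum_insert (by simp [h4, h5]),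
      sum_insert (by simp [h6]), sum_singleton]
  rw [e, e, e, e, e]
  rw [h.loopless x hx, h.loopless y hy, h.loopless z hz, h.loopless w hw, h.symm y hy x hx,
    h.symm z hz x hx, h.symm z hz y hy, h.symm w hw x hx, h.symm w hw y hy, h.symm w hw z hz]
  ring

theorem VCS.redA (h : VCS W S m f (s + 1)) (hnt : NTV W S m f (s + 1)) {p q k l a b : V}
    (hS : S = {p, q, k, l}) (hcard : S.card = 4) (hpq : 1 ≤ m p q)
    (hg : GoodPair (W \ S) (m p) (m q) (m k) (m l) (m p q) (m p k) (m p l) (m q k) (m q l)
      (m k l) (s + 1) a b) : VRed W S m f s := by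
  have hd := redA_dist (hS ▸ hcard)
  obtain ⟨npq, npk, npl, nqk, nql, nkl⟩ := id hd
  have hpS : p ∈ S := by rw [hS]; simp
  have hqS : q ∈ S := by rw [hS]; simp
  have hkS : k ∈ S := by rw [hS]; simp
  have hlS : l ∈ S := by rw [hS]; simp
  have hpW := h.sub hpS
  have hqW := h.sub hqS
  have hkW := h.sub hkS
  have hlW := h.sub hlS
  obtain ⟨haW, haS⟩ := mem_sdiff.mp hg.ha
  obtain ⟨hbW, hbS⟩ := mem_sdiff.mp hg.hb
  have nab := hg.ne
  have nap : a ≠ p := fun e => haS (e ▸ hpS)
  have naq : a ≠ q := fun e => haS (e ▸ hqS)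
  have nak : a ≠ k := fun e => haS (e ▸ hkS)
  have nal : a ≠ l := fun e => haS (e ▸ hlS)
  have nbp : b ≠ p := fun e => hbS (e ▸ hpS)
  have nbq : b ≠ q := fun e => hbS (e ▸ hqS)
  have nbk : b ≠ k := fun e => hbS (e ▸ hkS)
  have nbl : b ≠ l := fun e => hbS (e ▸ hlS)
  set Q : V → Option V := fun u => if u = p then some q else if u = q then some p else
    if u = k then some a else if u = a then some k else if u = l then some b else
    if u = b then some l else none with hQ
  have Qp : Q p = some q := by simp [hQ]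
  have hQq0 : Q q = some p := by simp [hQ, npq.symm]
  have Qk : Q k = some a := by simp [hQ, npk.symm, nqk.symm]
  have Qa : Q a = some k := by simp [hQ, nap, naq, nak]
  have Ql : Q l = some b := by simp [hQ, npl.symm, nql.symm, nkl.symm, nal.symm]
  have Qb : Q b = some l := by simp [hQ, nbp, nbq, nbk, nab.symm, nbl]
  have Qn : ∀ u, u ≠ p → u ≠ q → u ≠ k → u ≠ a → u ≠ l → u ≠ b → Q u = none := by
    intro u h1 h2 h3 h4 h5 h6
    simp [hQ, h1, h2, h3, h4, h5, h6]
  have hPQ : PQ W m f Q := by
    constructor
    · intro u _ v _ huv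
      by_cases h1 : u = p
      · subst h1; rw [Qp] at huv; rw [← Option.some.inj huv]; exact hQq0
      by_cases h2 : u = q
      · subst h2; rw [hQq0] at huv; rw [← Option.some.inj huv]; exact Qp
      by_cases h3 : u = k
      · subst h3; rw [Qk] at huv; rw [← Option.some.inj huv]; exact Qa
      by_cases h4 : u = a
      · subst h4; rw [Qa] at huv; rw [← Option.some.inj huv]; exact Qk
      by_cases h5 : u = l
      · subst h5; rw [Ql] at huv; rw [← Option.some.inj huv]; exact Qb
      by_cases h6 : u = b
      · subst h6; rw [Qb] at huv; rw [← Option.some.inj huv]; exact Ql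
      rw [Qn u h1 h2 h3 h4 h5 h6] at huv
      exact absurd huv (by simp)
    · intro u _ v huv
      by_cases h1 : u = p
      · subst h1; rw [Qp] at huv; rw [← Option.some.inj huv]; exact ⟨hqW, hpq⟩
      by_cases h2 : u = q
      · subst h2; rw [hQq0] at huv; rw [← Option.some.inj huv]
        exact ⟨hpW, by rw [h.zg.symm _ hqW _ hpW]; exact hpq⟩
      by_cases h3 : u = k
      · subst h3; rw [Qk] at huv; rw [← Option.some.inj huv]; exact ⟨haW, hg.xa⟩
      by_cases h4 : u = a
      · subst h4; rw [Qa] at huv; rw [← Option.some.inj huv]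
        exact ⟨hkW, by rw [h.zg.symm _ haW _ hkW]; exact hg.xa⟩
      by_cases h5 : u = l
      · subst h5; rw [Ql] at huv; rw [← Option.some.inj huv]; exact ⟨hbW, hg.xb⟩
      by_cases h6 : u = b
      · subst h6; rw [Qb] at huv; rw [← Option.some.inj huv]
        exact ⟨hlW, by rw [h.zg.symm _ hbW _ hlW]; exact hg.xb⟩
      rw [Qn u h1 h2 h3 h4 h5 h6] at huv
      exact absurd huv (by simp)
    · intro u hu hun
      by_cases h1 : u = p
      · subst h1; rw [Qp] at hun; exact absurd hun (by simp)
      by_cases h2 : u = q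
      · subst h2; rw [hQq0] at hun; exact absurd hun (by simp)
      by_cases h3 : u = k
      · subst h3; rw [Qk] at hun; exact absurd hun (by simp)
      by_cases h4 : u = a
      · subst h4; rw [Qa] at hun; exact absurd hun (by simp)
      by_cases h5 : u = l
      · subst h5; rw [Ql] at hun; exact absurd hun (by simp)
      by_cases h6 : u = b
      · subst h6; rw [Qb] at hun; exact absurd hun (by simp)
      have huS : u ∉ S := by
        rw [hS]
        simp [h1, h2, h3, h5]
      have h7 := h.deg_dS hu huS
      have h8 := hg.le u (mem_sdiff.mpr ⟨hu, huS⟩) h4 h6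
      have h9 : dS m S u = m p u + (m q u + (m k u + m l u)) := by
        unfold dS
        rw [hS, sum_insert (by simp [npq, npk, npl]), sum_insert (by simp [nqk, nql]),
          sum_insert (by simp [nkl]), sum_singleton]
      omega
  apply h.red_of_crit hPQ
  intro X hXW hodd h3 hlt
  have hc1 := hnt X hXW hodd h3 hlt
  have hc2 := h.zg.cut_add_E hXW
  have hsplit : (X \ S).card + (X ∩ S).card = X.card := card_sdiff_add_card_inter X S
  have hcX := redA_card hd X
  rw [← hS] at hcX
  have hle4 : (X ∩ S).card ≤ 4 := by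
    rw [← hcard]
    exact card_le_card inter_subset_right
  have e0 : (s + 1) * X.card = s * X.card + X.card := by ring
  rw [e0] at hc2
  have hodd' := Nat.odd_iff.mp hodd
  have hcase : X.card = 3 ∨ X.card = 5 ∨ X.card = 7 := by omega
  have hE := h.E_eq hXW
  -- matching edges inside `X`
  have hpair : ∀ c d : V, c ≠ d → Q c = some d → Q d = some c → c ∈ X → d ∈ X →
      2 ≤ E (stepJ Q) X X := by
    intro c d hcd hc hd' h1 h2
    have := redA_EJ (Q := Q) (T := {c, d}) (X := X)
      (by
        intro x hx
        simp only [mem_insert, mem_singleton] at hx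
        rcases hx with rfl | rfl
        · exact h1
        · exact h2)
      (by
        intro x hx
        simp only [mem_insert, mem_singleton] at hx
        rcases hx with rfl | rfl
        · exact ⟨_, h2, hc⟩
        · exact ⟨_, h1, hd'⟩)
    rwa [card_pair hcd] at this
  rcases hcase with h5 | h5 | h5
  · omega
  · -- five vertices
    have hgoal : 2 ≤ E (stepJ Q) X X → E m X X + s ≤ s * X.card + E (stepJ Q) X X := by
      intro hj
      omega
    by_cases hpqX : p ∈ X ∧ q ∈ X
    · exact hgoal (hpair p q npq Qp hQq0 hpqX.1 hpqX.2)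
    have hS3 : 3 ≤ (X ∩ S).card := by omega
    have hk' : k ∈ X := by
      by_contra hk
      rw [hcX, if_neg hk] at hS3
      apply hpqX
      constructor
      · by_contra h1
        rw [if_neg h1] at hS3
        split_ifs at hS3 <;> omega
      · by_contra h1
        rw [if_neg h1] at hS3
        split_ifs at hS3 <;> omega
    have hl' : l ∈ X := by
      by_contra hk
      rw [hcX, if_neg hk] at hS3
      apply hpqX
      constructor
      · by_contra h1
        rw [if_neg h1] at hS3
        split_ifs at hS3 <;> omega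
      · by_contra h1
        rw [if_neg h1] at hS3
        split_ifs at hS3 <;> omega
    by_cases haX : a ∈ X
    · exact hgoal (hpair k a nak.symm Qk Qa hk' haX)
    by_cases hbX : b ∈ X
    · exact hgoal (hpair l b nbl.symm Ql Qb hl' hbX)
    have hS3' : (X ∩ S).card = 3 := by
      rw [hcX, if_pos hk', if_pos hl'] at hS3 ⊢
      by_cases h1 : p ∈ X
      · have h2 : q ∉ X := fun h2 => hpqX ⟨h1, h2⟩
        rw [if_pos h1, if_neg h2]
      · rw [if_neg h1] at hS3 ⊢
        split_ifs at hS3 ⊢ <;> omega
    have hX2 : (X \ S).card = 2 := by omega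
    obtain ⟨u, v, huv, hXuv⟩ := card_eq_two.mp hX2
    have hu : u ∈ X \ S := by rw [hXuv]; simp
    have hv : v ∈ X \ S := by rw [hXuv]; simp
    have huI : u ∈ W \ S := sdiff_subset_sdiff hXW (Subset.refl S) hu
    have hvI : v ∈ W \ S := sdiff_subset_sdiff hXW (Subset.refl S) hv
    have hua : u ≠ a := fun e => haX (e ▸ (mem_sdiff.mp hu).1)
    have hub : u ≠ b := fun e => hbX (e ▸ (mem_sdiff.mp hu).1)
    have hva : v ≠ a := fun e => haX (e ▸ (mem_sdiff.mp hv).1)
    have hvb : v ≠ b := fun e => hbX (e ▸ (mem_sdiff.mp hv).1)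
    by_cases h1 : p ∈ X
    · have h2 : q ∉ X := fun h2 => hpqX ⟨h1, h2⟩
      have hXS : X ∩ S = {p, k, l} := by
        rw [hS]
        ext x
        simp only [mem_inter, mem_insert, mem_singleton]
        constructor
        · rintro ⟨hx, rfl | rfl | rfl | rfl⟩
          · exact Or.inl rfl
          · exact absurd hx h2
          · exact Or.inr (Or.inl rfl)
          · exact Or.inr (Or.inr rfl)
        · rintro (rfl | rfl | rfl)
          · exact ⟨h1, Or.inl rfl⟩
          · exact ⟨hk', Or.inr (Or.inr (Or.inl rfl))⟩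
          · exact ⟨hl', Or.inr (Or.inr (Or.inr rfl))⟩
      have hp134 := hg.p134 u huI v hvI huv hua hub hva hvb
      have e3 : ∀ g : V → ℕ, ∑ t ∈ ({p, k, l} : Finset V), g t = g p + (g k + g l) := by
        intro g
        rw [sum_insert (by simp [npk, npl]), sum_insert (by simp [nkl]), sum_singleton]
      rw [hXS, redA_E3 h.zg hpW hkW hlW npk npl nkl, hXuv, sum_pair huv, e3, e3] at hE
      rw [h5]
      omega
    · have h2 : q ∈ X := by
        by_contra h2
        rw [hcX, if_neg h1, if_neg h2] at hS3
        split_ifs at hS3 <;> omega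
      have hXS : X ∩ S = {q, k, l} := by
        rw [hS]
        ext x
        simp only [mem_inter, mem_insert, mem_singleton]
        constructor
        · rintro ⟨hx, rfl | rfl | rfl | rfl⟩
          · exact absurd hx h1
          · exact Or.inl rfl
          · exact Or.inr (Or.inl rfl)
          · exact Or.inr (Or.inr rfl)
        · rintro (rfl | rfl | rfl)
          · exact ⟨h2, Or.inr (Or.inl rfl)⟩
          · exact ⟨hk', Or.inr (Or.inr (Or.inl rfl))⟩
          · exact ⟨hl', Or.inr (Or.inr (Or.inr rfl))⟩
      have hp234 := hg.p234 u huI v hvI huv hua hub hva hvb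
      have e3 : ∀ g : V → ℕ, ∑ t ∈ ({q, k, l} : Finset V), g t = g q + (g k + g l) := by
        intro g
        rw [sum_insert (by simp [nqk, nql]), sum_insert (by simp [nkl]), sum_singleton]
      rw [hXS, redA_E3 h.zg hqW hkW hlW nqk nql nkl, hXuv, sum_pair huv, e3, e3] at hE
      rw [h5]
      omega
  · -- seven vertices
    have hS4 : (X ∩ S).card = 4 := by omega
    have h6 : X ∩ S = S := eq_of_subset_of_card_le inter_subset_right (by omega)
    have hsub : S ⊆ X := by
      intro x hx
      rw [← h6] at hx
      exact (mem_inter.mp hx).1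
    have hpX := hsub hpS
    have hqX := hsub hqS
    have hkX := hsub hkS
    have hlX := hsub hlS
    by_cases haX : a ∈ X
    · have := redA_EJ (Q := Q) (T := {p, q, k, a}) (X := X)
        (by
          intro x hx
          simp only [mem_insert, mem_singleton] at hx
          rcases hx with rfl | rfl | rfl | rfl <;> assumption)
        (by
          intro x hx
          simp only [mem_insert, mem_singleton] at hx
          rcases hx with rfl | rfl | rfl | rfl
          · exact ⟨_, hqX, Qp⟩
          · exact ⟨_, hpX, hQq0⟩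
          · exact ⟨_, haX, Qk⟩
          · exact ⟨_, hkX, Qa⟩)
      have hc4 : ({p, q, k, a} : Finset V).card = 4 := by
        rw [card_insert_of_notMem (by simp [npq, npk, nap.symm]),
          card_insert_of_notMem (by simp [nqk, naq.symm]),
          card_insert_of_notMem (by simp [nak.symm]), card_singleton]
      rw [hc4] at this
      omega
    by_cases hbX : b ∈ X
    · have := redA_EJ (Q := Q) (T := {p, q, l, b}) (X := X)
        (by
          intro x hx
          simp only [mem_insert, mem_singleton] at hx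
          rcases hx with rfl | rfl | rfl | rfl <;> assumption)
        (by
          intro x hx
          simp only [mem_insert, mem_singleton] at hx
          rcases hx with rfl | rfl | rfl | rfl
          · exact ⟨_, hqX, Qp⟩
          · exact ⟨_, hpX, hQq0⟩
          · exact ⟨_, hbX, Ql⟩
          · exact ⟨_, hlX, Qb⟩)
      have hc4 : ({p, q, l, b} : Finset V).card = 4 := by
        rw [card_insert_of_notMem (by simp [npq, npl, nbp.symm]),
          card_insert_of_notMem (by simp [nql, nbq.symm]),
          card_insert_of_notMem (by simp [nbl.symm]), card_singleton]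
      rw [hc4] at this
      omega
    have hj := hpair p q npq Qp hQq0 hpX hqX
    have hX3 : (X \ S).card = 3 := by omega
    obtain ⟨u, v, w, huv, huw, hvw, hXuvw⟩ := card_eq_three.mp hX3
    have hu : u ∈ X \ S := by rw [hXuvw]; simp
    have hv : v ∈ X \ S := by rw [hXuvw]; simp
    have hw : w ∈ X \ S := by rw [hXuvw]; simp
    have huI : u ∈ W \ S := sdiff_subset_sdiff hXW (Subset.refl S) hu
    have hvI : v ∈ W \ S := sdiff_subset_sdiff hXW (Subset.refl S) hv
    have hwI : w ∈ W \ S := sdiff_subset_sdiff hXW (Subset.refl S) hw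
    have hua : u ≠ a := fun e => haX (e ▸ (mem_sdiff.mp hu).1)
    have hub : u ≠ b := fun e => hbX (e ▸ (mem_sdiff.mp hu).1)
    have hva : v ≠ a := fun e => haX (e ▸ (mem_sdiff.mp hv).1)
    have hvb : v ≠ b := fun e => hbX (e ▸ (mem_sdiff.mp hv).1)
    have hwa : w ≠ a := fun e => haX (e ▸ (mem_sdiff.mp hw).1)
    have hwb : w ≠ b := fun e => hbX (e ▸ (mem_sdiff.mp hw).1)
    have hgw := hg.w u huI v hvI w hwI huv huw hvw hua hub hva hvb hwa hwb
    have e4 : ∀ g : V → ℕ, ∑ t ∈ ({p, q, k, l} : Finset V), g t = g p + (g q + (g k + g l)) := by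
      intro g
      rw [sum_insert (by simp [npq, npk, npl]), sum_insert (by simp [nqk, nql]),
        sum_insert (by simp [nkl]), sum_singleton]
    have e3 : ∀ g : V → ℕ, ∑ t ∈ ({u, v, w} : Finset V), g t = g u + (g v + g w) := by
      intro g
      rw [sum_insert (by simp [huv, huw]), sum_insert (by simp [hvw]), sum_singleton]
    rw [h6, hXuvw, hS, redA_E4 h.zg hpW hqW hkW hlW hd, e3, e4, e4, e4] at hE
    rw [h5]
    omega

end PStar
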