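import Mathlib

set_option autoImplicit false

namespace PStar

open Finset

private noncomputable def Sub_ind {α β : Type*} [DecidableEq α] [DecidableEq β] (P : Finset α) (Q : Finset β)
    (a : α) (b : β) : ℤ := if a ∈ P ∧ b ∈ Q then 1 else 0

private theorem Sub_e_eq {α β : Type*} [Fintype α] [Fintype β] [DecidableEq α] [DecidableEq β]
    (m : α → β → ℕ) (P : Finset α) (Q : Finset β) :
    ∑ a ∈ P, ∑ b ∈ Q, (m a b : ℤ) = ∑ a, ∑ b, (m a b : ℤ) * Sub_ind P Q a b := by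
  rw [← sum_subset (subset_univ P)]
  · refine sum_congr rfl fun a ha => ?_
    rw [← sum_subset (subset_univ Q)]
    · refine sum_congr rfl fun b hb => ?_
      unfold Sub_ind
      rw [if_pos ⟨ha, hb⟩, mul_one]
    · intro b _ hb
      unfold Sub_ind
      rw [if_neg fun h => hb h.2, mul_zero]
  · intro a _ ha
    refine sum_eq_zero fun b _ => ?_
    unfold Sub_ind
    rw [if_neg fun h => ha h.1, mul_zero]

private theorem Sub_cmp {α β : Type*} [Fintype α] [Fintype β] [DecidableEq α] [DecidableEq β]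
    (m : α → β → ℕ) {P1 P2 P3 P4 : Finset α} {Q1 Q2 Q3 Q4 : Finset β}
    (h : ∀ a b, Sub_ind P3 Q3 a b + Sub_ind P4 Q4 a b ≤ Sub_ind P1 Q1 a b + Sub_ind P2 Q2 a b)
    {a0 : α} {b0 : β} (hm : 0 < m a0 b0)
    (h0 : Sub_ind P3 Q3 a0 b0 + Sub_ind P4 Q4 a0 b0 < Sub_ind P1 Q1 a0 b0 + Sub_ind P2 Q2 a0 b0) :
    ∑ a ∈ P3, ∑ b ∈ Q3, (m a b : ℤ) + ∑ a ∈ P4, ∑ b ∈ Q4, (m a b : ℤ) <
      ∑ a ∈ P1, ∑ b ∈ Q1, (m a b : ℤ) + ∑ a ∈ P2, ∑ b ∈ Q2, (m a b : ℤ) := by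
  rw [Sub_e_eq, Sub_e_eq, Sub_e_eq, Sub_e_eq, ← sum_add_distrib, ← sum_add_distrib]
  have h1 : ∀ a b, (m a b : ℤ) * Sub_ind P3 Q3 a b + (m a b : ℤ) * Sub_ind P4 Q4 a b ≤
      (m a b : ℤ) * Sub_ind P1 Q1 a b + (m a b : ℤ) * Sub_ind P2 Q2 a b := by
    intro a b
    rw [← mul_add, ← mul_add]
    exact mul_le_mul_of_nonneg_left (h a b) (Nat.cast_nonneg _)
  refine sum_lt_sum (fun a _ => ?_) ⟨a0, mem_univ _, ?_⟩
  · rw [← sum_add_distrib, ← sum_add_distrib]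
    exact sum_le_sum fun b _ => h1 a b
  · rw [← sum_add_distrib, ← sum_add_distrib]
    refine sum_lt_sum (fun b _ => h1 a0 b) ⟨b0, mem_univ _, ?_⟩
    rw [← mul_add, ← mul_add]
    exact mul_lt_mul_of_pos_left h0 (by exact_mod_cast hm)

private theorem Sub_diff {γ : Type*} [DecidableEq γ] (f : γ → ℤ) (X Y : Finset γ) :
    ∑ a ∈ X \ Y, f a + ∑ a ∈ X ∩ Y, f a = ∑ a ∈ X, f a := by
  rw [← sdiff_inter_self_left, sum_sdiff inter_subset_left]

private def Sub_del {α β : Type*} [DecidableEq α] [DecidableEq β] (m : α → β → ℕ) (a : α) (b : β) : α → β → ℕ :=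
  fun a' b' => m a' b' - (if a' = a then (if b' = b then 1 else 0) else 0)

private theorem Sub_del_cast {α β : Type*} [DecidableEq α] [DecidableEq β] (m : α → β → ℕ) {a : α} {b : β}
    (h : 0 < m a b) (a' : α) (b' : β) :
    (Sub_del m a b a' b' : ℤ) = (m a' b' : ℤ) - (if a' = a then (if b' = b then 1 else 0) else 0) := by
  unfold Sub_del
  by_cases h1 : a' = a
  · by_cases h2 : b' = b
    · subst h1
      subst h2
      rw [if_pos rfl, if_pos rfl, if_pos rfl, if_pos rfl]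
      omega
    · rw [if_pos h1, if_neg h2, if_pos h1, if_neg h2]
      simp
  · rw [if_neg h1, if_neg h1]
    simp

private theorem Sub_del_e {α β : Type*} [DecidableEq α] [DecidableEq β] (m : α → β → ℕ) {a : α} {b : β}
    (h : 0 < m a b) (P : Finset α) (Q : Finset β) :
    ∑ a' ∈ P, ∑ b' ∈ Q, (Sub_del m a b a' b' : ℤ) = ∑ a' ∈ P, ∑ b' ∈ Q, (m a' b' : ℤ) - Sub_ind P Q a b := by
  simp_rw [Sub_del_cast m h]
  have h1 : ∑ a' ∈ P, ∑ b' ∈ Q, (if a' = a then (if b' = b then (1 : ℤ) else 0) else 0) = Sub_ind P Q a b := by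
    unfold Sub_ind
    by_cases ha : a ∈ P
    · rw [sum_eq_single_of_mem a ha]
      · by_cases hb : b ∈ Q
        · rw [sum_eq_single_of_mem b hb]
          · rw [if_pos rfl, if_pos rfl, if_pos ⟨ha, hb⟩]
          · intro b' _ hb'
            rw [if_pos rfl, if_neg hb']
        · rw [if_neg fun h => hb h.2]
          refine sum_eq_zero fun b' hb' => ?_
          rw [if_pos rfl, if_neg]
          rintro rfl
          exact hb hb'
      · intro a' _ ha'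
        refine sum_eq_zero fun b' _ => ?_
        rw [if_neg ha']
    · rw [if_neg fun h => ha h.1]
      refine sum_eq_zero fun a' ha' => sum_eq_zero fun b' _ => ?_
      rw [if_neg]
      rintro rfl
      exact ha ha'
  simp_rw [sum_sub_distrib]
  rw [h1]

private theorem Sub_shift {γ : Type*} [DecidableEq γ] (f : γ → ℤ) (a : γ) (X : Finset γ) :
    ∑ c ∈ X, (f c - if c = a then 1 else 0) = ∑ c ∈ X, f c - if a ∈ X then 1 else 0 := by
  rw [sum_sub_distrib, sum_ite_eq']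

private def Sub_H1 {α β : Type*} [Fintype α] [Fintype β] [DecidableEq α] [DecidableEq β]
    (m : α → β → ℕ) (LA : α → ℤ) (UB : β → ℤ) : Prop := ∀ (X : Finset α) (Y : Finset β),
      ∑ a ∈ X, LA a ≤ ∑ b ∈ Y, UB b + ∑ a ∈ X, ∑ b ∈ Yᶜ, (m a b : ℤ)

private def Sub_H2 {α β : Type*} [Fintype α] [Fintype β] [DecidableEq α] [DecidableEq β]
    (m : α → β → ℕ) (UA : α → ℤ) (LB : β → ℤ) : Prop := ∀ (X : Finset α) (Y : Finset β),
      ∑ b ∈ Y, LB b ≤ ∑ a ∈ X, UA a + ∑ a ∈ Xᶜ, ∑ b ∈ Y, (m a b : ℤ)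

/-- one of the two reductions is possible -/
private theorem Sub_step {α β : Type*} [Fintype α] [Fintype β] [DecidableEq α] [DecidableEq β]
    (m : α → β → ℕ) (LA UA : α → ℤ) (LB UB : β → ℤ)
    (hA : ∀ a, LA a ≤ UA a) (hB : ∀ b, LB b ≤ UB b) (h1 : Sub_H1 m LA UB) (h2 : Sub_H2 m UA LB)
    {a : α} {b : β} (hab : 0 < m a b) :
    (Sub_H1 (Sub_del m a b) LA UB ∧ Sub_H2 (Sub_del m a b) UA LB) ∨
      (Sub_H1 (Sub_del m a b) (fun c => LA c - if c = a then 1 else 0) (fun c => UB c - if c = b then 1 else 0) ∧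
        Sub_H2 (Sub_del m a b) (fun c => UA c - if c = a then 1 else 0) (fun c => LB c - if c = b then 1 else 0)) := by
  by_contra hcon
  rw [not_or, not_and_or, not_and_or] at hcon
  obtain ⟨hX, hY⟩ := hcon
  have k1 : ¬ Sub_H1 (Sub_del m a b) LA UB → ∃ X Y, a ∈ X ∧ b ∉ Y ∧
      ∑ a ∈ X, LA a = ∑ b ∈ Y, UB b + ∑ a ∈ X, ∑ b ∈ Yᶜ, (m a b : ℤ) := by
    intro h
    unfold Sub_H1 at h
    push Not at h
    obtain ⟨X, Y, h⟩ := h
    rw [Sub_del_e m hab] at h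
    have h3 := h1 X Y
    unfold Sub_ind at h
    by_cases hc : a ∈ X ∧ b ∈ Yᶜ
    · rw [if_pos hc] at h
      exact ⟨X, Y, hc.1, mem_compl.1 hc.2, by omega⟩
    · rw [if_neg hc] at h
      omega
  have k2 : ¬ Sub_H2 (Sub_del m a b) UA LB → ∃ X Y, a ∉ X ∧ b ∈ Y ∧
      ∑ b ∈ Y, LB b = ∑ a ∈ X, UA a + ∑ a ∈ Xᶜ, ∑ b ∈ Y, (m a b : ℤ) := by
    intro h
    unfold Sub_H2 at h
    push Not at h
    obtain ⟨X, Y, h⟩ := h
    rw [Sub_del_e m hab] at h
    have h3 := h2 X Y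
    unfold Sub_ind at h
    by_cases hc : a ∈ Xᶜ ∧ b ∈ Y
    · rw [if_pos hc] at h
      exact ⟨X, Y, mem_compl.1 hc.1, hc.2, by omega⟩
    · rw [if_neg hc] at h
      omega
  have k3 : ¬ Sub_H1 (Sub_del m a b) (fun c => LA c - if c = a then 1 else 0)
      (fun c => UB c - if c = b then 1 else 0) → ∃ X Y, a ∉ X ∧ b ∈ Y ∧
      ∑ a ∈ X, LA a = ∑ b ∈ Y, UB b + ∑ a ∈ X, ∑ b ∈ Yᶜ, (m a b : ℤ) := by
    intro h
    unfold Sub_H1 at h
    push Not at h
    obtain ⟨X, Y, h⟩ := h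
    rw [Sub_del_e m hab, Sub_shift, Sub_shift] at h
    have h3 := h1 X Y
    unfold Sub_ind at h
    by_cases ha : a ∈ X
    · by_cases hb : b ∈ Y
      · rw [if_pos ha, if_pos hb, if_neg fun hh => mem_compl.1 hh.2 hb] at h
        omega
      · rw [if_pos ha, if_neg hb, if_pos ⟨ha, mem_compl.2 hb⟩] at h
        omega
    · by_cases hb : b ∈ Y
      · rw [if_neg ha, if_pos hb, if_neg fun hh => ha hh.1] at h
        exact ⟨X, Y, ha, hb, by omega⟩
      · rw [if_neg ha, if_neg hb, if_neg fun hh => ha hh.1] at h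
        omega
  have k4 : ¬ Sub_H2 (Sub_del m a b) (fun c => UA c - if c = a then 1 else 0)
      (fun c => LB c - if c = b then 1 else 0) → ∃ X Y, a ∈ X ∧ b ∉ Y ∧
      ∑ b ∈ Y, LB b = ∑ a ∈ X, UA a + ∑ a ∈ Xᶜ, ∑ b ∈ Y, (m a b : ℤ) := by
    intro h
    unfold Sub_H2 at h
    push Not at h
    obtain ⟨X, Y, h⟩ := h
    rw [Sub_del_e m hab, Sub_shift, Sub_shift] at h
    have h3 := h2 X Y
    unfold Sub_ind at h
    by_cases ha : a ∈ X
    · by_cases hb : b ∈ Y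
      · rw [if_pos ha, if_pos hb, if_neg fun hh => mem_compl.1 hh.1 ha] at h
        omega
      · rw [if_pos ha, if_neg hb, if_neg fun hh => mem_compl.1 hh.1 ha] at h
        exact ⟨X, Y, ha, hb, by omega⟩
    · by_cases hb : b ∈ Y
      · rw [if_neg ha, if_pos hb, if_pos ⟨mem_compl.2 ha, hb⟩] at h
        omega
      · rw [if_neg ha, if_neg hb, if_neg fun hh => hb hh.2] at h
        omega
  rcases hX with hX | hX
  · obtain ⟨X1, Y1, ha1, hb1, e1⟩ := k1 hX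
    rcases hY with hY | hY
    · obtain ⟨X2, Y2, ha2, hb2, e2⟩ := k3 hY
      have g1 := h1 (X1 ∪ X2) (Y1 ∪ Y2)
      have g2 := h1 (X1 ∩ X2) (Y1 ∩ Y2)
      have s1 := sum_union_inter (s₁ := X1) (s₂ := X2) (f := LA)
      have s2 := sum_union_inter (s₁ := Y1) (s₂ := Y2) (f := UB)
      have c := Sub_cmp m (P1 := X1) (Q1 := Y1ᶜ) (P2 := X2) (Q2 := Y2ᶜ) (P3 := X1 ∪ X2) (Q3 := (Y1 ∪ Y2)ᶜ)
        (P4 := X1 ∩ X2) (Q4 := (Y1 ∩ Y2)ᶜ) (a0 := a) (b0 := b) (fun a b => by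
          unfold Sub_ind
          by_cases c1 : a ∈ X1 <;> by_cases c2 : a ∈ X2 <;> by_cases c3 : b ∈ Y1 <;> by_cases c4 : b ∈ Y2 <;>
            simp [c1, c2, c3, c4]) hab (by
          unfold Sub_ind
          simp [ha1, ha2, hb1, hb2])
      omega
    · obtain ⟨X2, Y2, ha2, hb2, e2⟩ := k4 hY
      have g1 := h1 (X1 \ X2) (Y1 \ Y2)
      have g2 := h2 (X2 \ X1) (Y2 \ Y1)
      have g3 : ∑ a ∈ X1 ∩ X2, LA a ≤ ∑ a ∈ X1 ∩ X2, UA a := sum_le_sum fun a _ => hA a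
      have g4 : ∑ b ∈ Y1 ∩ Y2, LB b ≤ ∑ b ∈ Y1 ∩ Y2, UB b := sum_le_sum fun b _ => hB b
      have s1 := Sub_diff LA X1 X2
      have s2 := Sub_diff UB Y1 Y2
      have s3 := Sub_diff UA X2 X1
      have s4 := Sub_diff LB Y2 Y1
      rw [inter_comm X2 X1] at s3
      rw [inter_comm Y2 Y1] at s4
      have c := Sub_cmp m (P1 := X1) (Q1 := Y1ᶜ) (P2 := X2ᶜ) (Q2 := Y2) (P3 := X1 \ X2) (Q3 := (Y1 \ Y2)ᶜ)
        (P4 := (X2 \ X1)ᶜ) (Q4 := Y2 \ Y1) (a0 := a) (b0 := b) (fun a b => by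
          unfold Sub_ind
          by_cases c1 : a ∈ X1 <;> by_cases c2 : a ∈ X2 <;> by_cases c3 : b ∈ Y1 <;> by_cases c4 : b ∈ Y2 <;>
            simp [c1, c2, c3, c4]) hab (by
          unfold Sub_ind
          simp [ha1, ha2, hb1, hb2])
      omega
  · obtain ⟨X1, Y1, ha1, hb1, e1⟩ := k2 hX
    rcases hY with hY | hY
    · obtain ⟨X2, Y2, ha2, hb2, e2⟩ := k3 hY
      have g1 := h2 (X1 \ X2) (Y1 \ Y2)
      have g2 := h1 (X2 \ X1) (Y2 \ Y1)
      have g3 : ∑ a ∈ X1 ∩ X2, LA a ≤ ∑ a ∈ X1 ∩ X2, UA a := sum_le_sum fun a _ => hA a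
      have g4 : ∑ b ∈ Y1 ∩ Y2, LB b ≤ ∑ b ∈ Y1 ∩ Y2, UB b := sum_le_sum fun b _ => hB b
      have s1 := Sub_diff UA X1 X2
      have s2 := Sub_diff LB Y1 Y2
      have s3 := Sub_diff LA X2 X1
      have s4 := Sub_diff UB Y2 Y1
      rw [inter_comm X2 X1] at s3
      rw [inter_comm Y2 Y1] at s4
      have c := Sub_cmp m (P1 := X1ᶜ) (Q1 := Y1) (P2 := X2) (Q2 := Y2ᶜ) (P3 := (X1 \ X2)ᶜ) (Q3 := Y1 \ Y2)
        (P4 := X2 \ X1) (Q4 := (Y2 \ Y1)ᶜ) (a0 := a) (b0 := b) (fun a b => by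
          unfold Sub_ind
          by_cases c1 : a ∈ X1 <;> by_cases c2 : a ∈ X2 <;> by_cases c3 : b ∈ Y1 <;> by_cases c4 : b ∈ Y2 <;>
            simp [c1, c2, c3, c4]) hab (by
          unfold Sub_ind
          simp [ha1, ha2, hb1, hb2])
      omega
    · obtain ⟨X2, Y2, ha2, hb2, e2⟩ := k4 hY
      have g1 := h2 (X1 ∪ X2) (Y1 ∪ Y2)
      have g2 := h2 (X1 ∩ X2) (Y1 ∩ Y2)
      have s1 := sum_union_inter (s₁ := X1) (s₂ := X2) (f := UA)
      have s2 := sum_union_inter (s₁ := Y1) (s₂ := Y2) (f := LB)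
      have c := Sub_cmp m (P1 := X1ᶜ) (Q1 := Y1) (P2 := X2ᶜ) (Q2 := Y2) (P3 := (X1 ∪ X2)ᶜ) (Q3 := Y1 ∪ Y2)
        (P4 := (X1 ∩ X2)ᶜ) (Q4 := Y1 ∩ Y2) (a0 := a) (b0 := b) (fun a b => by
          unfold Sub_ind
          by_cases c1 : a ∈ X1 <;> by_cases c2 : a ∈ X2 <;> by_cases c3 : b ∈ Y1 <;> by_cases c4 : b ∈ Y2 <;>
            simp [c1, c2, c3, c4]) hab (by
          unfold Sub_ind
          simp [ha1, ha2, hb1, hb2])
      omega

private theorem Sub_main {α β : Type*} [Fintype α] [Fintype β] [DecidableEq α] [DecidableEq β] (n : ℕ) :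
    ∀ (m : α → β → ℕ) (LA UA : α → ℤ) (LB UB : β → ℤ), ∑ a, ∑ b, m a b = n →
    (∀ a, LA a ≤ UA a) → (∀ b, LB b ≤ UB b) → Sub_H1 m LA UB → Sub_H2 m UA LB →
    ∃ x : α → β → ℕ, (∀ a b, x a b ≤ m a b) ∧
      (∀ a, LA a ≤ ∑ b, (x a b : ℤ)) ∧ (∀ a, ∑ b, (x a b : ℤ) ≤ UA a) ∧
      (∀ b, LB b ≤ ∑ a, (x a b : ℤ)) ∧ (∀ b, ∑ a, (x a b : ℤ) ≤ UB b) := by
  induction n with
  | zero =>
    intro m LA UA LB UB hm _ _ h1 h2
    have hm0 : ∀ a b, m a b = 0 := by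
      intro a b
      have h3 := (sum_eq_zero_iff.1 hm) a (mem_univ a)
      exact (sum_eq_zero_iff.1 h3) b (mem_univ b)
    refine ⟨fun _ _ => 0, fun _ _ => Nat.zero_le _, fun a => ?_, fun a => ?_, fun b => ?_, fun b => ?_⟩
    · have h3 := h1 {a} ∅
      simpa [hm0] using h3
    · have h3 := h2 {a} ∅
      simpa [hm0] using h3
    · have h3 := h2 ∅ {b}
      simpa [hm0] using h3
    · have h3 := h1 ∅ {b}
      simpa [hm0] using h3
  | succ n ih =>
    intro m LA UA LB UB hm hA hB h1 h2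
    obtain ⟨a, b, hab⟩ : ∃ a b, 0 < m a b := by
      by_contra hc
      push Not at hc
      have h3 : ∑ a, ∑ b, m a b = 0 := sum_eq_zero fun a _ => sum_eq_zero fun b _ => Nat.le_zero.1 (hc a b)
      omega
    have hsum : ∑ a', ∑ b', Sub_del m a b a' b' = n := by
      have h3 := Sub_del_e m hab univ univ
      have h4 : Sub_ind (univ : Finset α) (univ : Finset β) a b = 1 := by
        unfold Sub_ind
        rw [if_pos ⟨mem_univ _, mem_univ _⟩]
      rw [h4] at h3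
      have h5 : ((∑ a', ∑ b', Sub_del m a b a' b' : ℕ) : ℤ) = ((∑ a', ∑ b', m a' b' : ℕ) : ℤ) - 1 := by
        push_cast
        exact h3
      rw [hm] at h5
      omega
    have hle : ∀ a' b', Sub_del m a b a' b' ≤ m a' b' := fun a' b' => Nat.sub_le _ _
    rcases Sub_step m LA UA LB UB hA hB h1 h2 hab with ⟨g1, g2⟩ | ⟨g1, g2⟩
    · obtain ⟨x, hx, r1, r2, r3, r4⟩ := ih _ LA UA LB UB hsum hA hB g1 g2
      exact ⟨x, fun a' b' => (hx a' b').trans (hle a' b'), r1, r2, r3, r4⟩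
    · obtain ⟨x, hx, r1, r2, r3, r4⟩ := ih _ _ _ _ _ hsum
        (fun c => sub_le_sub_right (hA c) _) (fun c => sub_le_sub_right (hB c) _) g1 g2
      have hrow : ∀ a', ∑ b', ((x a' b' + (if a' = a then (if b' = b then 1 else 0) else 0) : ℕ) : ℤ) =
          ∑ b', (x a' b' : ℤ) + if a' = a then 1 else 0 := by
        intro a'
        push_cast
        rw [sum_add_distrib]
        congr 1
        by_cases h3 : a' = a
        · rw [if_pos h3]
          simp_rw [if_pos h3]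
          rw [sum_ite_eq' univ b, if_pos (mem_univ _)]
        · rw [if_neg h3]
          simp_rw [if_neg h3]
          exact sum_const_zero
      have hcol : ∀ b', ∑ a', ((x a' b' + (if a' = a then (if b' = b then 1 else 0) else 0) : ℕ) : ℤ) =
          ∑ a', (x a' b' : ℤ) + if b' = b then 1 else 0 := by
        intro b'
        push_cast
        rw [sum_add_distrib]
        congr 1
        rw [sum_ite_eq' univ a, if_pos (mem_univ _)]
      refine ⟨fun a' b' => x a' b' + (if a' = a then (if b' = b then 1 else 0) else 0), fun a' b' => ?_,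
        fun a' => ?_, fun a' => ?_, fun b' => ?_, fun b' => ?_⟩
      · have h3 := hx a' b'
        have h4 := Sub_del_cast m hab a' b'
        change x a' b' + (if a' = a then (if b' = b then 1 else 0) else 0) ≤ m a' b'
        by_cases c1 : a' = a
        · by_cases c2 : b' = b
          · rw [if_pos c1, if_pos c2] at h4 ⊢
            omega
          · rw [if_pos c1, if_neg c2] at h4 ⊢
            omega
        · rw [if_neg c1] at h4 ⊢
          omega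
      · rw [hrow]
        have h3 := r1 a'
        linarith
      · rw [hrow]
        have h3 := r2 a'
        linarith
      · rw [hcol]
        have h3 := r3 b'
        linarith
      · rw [hcol]
        have h3 := r4 b'
        linarith

/-- Subgraphs of a bipartite multigraph with lower and upper bounds on the degrees. -/
theorem exists_subdeg {α β : Type*} [Fintype α] [Fintype β] [DecidableEq α] [DecidableEq β]
    (m : α → β → ℕ) (LA UA : α → ℤ) (LB UB : β → ℤ)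
    (hA : ∀ a, LA a ≤ UA a) (hB : ∀ b, LB b ≤ UB b)
    (h1 : ∀ (X : Finset α) (Y : Finset β),
      ∑ a ∈ X, LA a ≤ ∑ b ∈ Y, UB b + ∑ a ∈ X, ∑ b ∈ Yᶜ, (m a b : ℤ))
    (h2 : ∀ (X : Finset α) (Y : Finset β),
      ∑ b ∈ Y, LB b ≤ ∑ a ∈ X, UA a + ∑ a ∈ Xᶜ, ∑ b ∈ Y, (m a b : ℤ)) :
    ∃ x : α → β → ℕ, (∀ a b, x a b ≤ m a b) ∧
      (∀ a, LA a ≤ ∑ b, (x a b : ℤ)) ∧ (∀ a, ∑ b, (x a b : ℤ) ≤ UA a) ∧
      (∀ b, LB b ≤ ∑ a, (x a b : ℤ)) ∧ (∀ b, ∑ a, (x a b : ℤ) ≤ UB b) :=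
  Sub_main _ m LA UA LB UB rfl hA hB h1 h2

end PStar
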